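import Pool.Agent.Lib.VMT.Sys

/-!
# VMT.Blk : states and block moves (MP_4cc966_co)
-/

set_option autoImplicit false

namespace Pool.Agent.VMT

/-- a state with a marked cycle `p` after `R` steps; `B` are the labels of the seed -/
structure Good (s : Sys) (B : Multiset LF) (R : ℕ) (p : List LF) (cs : List (List LF)) :
    Prop where
  htot : tot s.k (p :: cs) = B + W s R
  hh : p.head? = some (lab s R 0)
  hl : p.getLast? = some (lab s R 4)

theorem Sr_valid {r c : ℕ} (h : c ∈ Sr r) : c % 8 ≠ 7 := by
  simp only [Sr, Multiset.mem_add, Multiset.mem_map] at h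
  rcases h with (((⟨d, -, rfl⟩ | ⟨d, -, rfl⟩) | ⟨d, -, rfl⟩) | ⟨d, -, rfl⟩) | ⟨d, -, rfl⟩ <;> omega

theorem Sr33_valid {r c : ℕ} (h : c ∈ Sr r + {3, 3}) : c % 8 ≠ 7 := by
  rw [Multiset.mem_add] at h
  rcases h with h | h
  · exact Sr_valid h
  · have : c = 3 := by simpa using h
    omega

theorem tot_lab {s : Sys} (hs : s.OK) (R : ℕ) (ex : List (List ℕ))
    (h : ∀ c ∈ (ex.map vz).flatten, c % 8 ≠ 7) :
    tot s.k (ex.map (List.map (lab s R))) =
      ((ex.flatten : List ℕ) : Multiset ℕ).map (lab s R) +
        (((ex.map vz).flatten : List ℕ) : Multiset ℕ).map (sl s R) := by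
  induction ex with
  | nil => rfl
  | cons c ex ih =>
    rw [List.map_cons, tot_cons, ih (fun d hd => h d (by
      rw [List.map_cons, List.flatten_cons]
      exact List.mem_append_right _ hd)), vs_lab hs R c (fun d hd => h d (by
      rw [List.map_cons, List.flatten_cons]
      exact List.mem_append_left _ hd))]
    rw [List.flatten_cons, List.map_cons, List.flatten_cons, ← Multiset.coe_add,
      ← Multiset.coe_add, Multiset.map_add, Multiset.map_add]
    simp only [Multiset.map_coe]
    abel

theorem lab_next_zero (s : Sys) (R r : ℕ) : lab s (R + r) 0 = lab s R (8 * r) := by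
  have e1 : (8 * r) % 8 = 0 := by omega
  have e2 : (8 * r) / 8 = r := by omega
  rw [lab, lab, e1, e2]
  simp

theorem lab_next_four (s : Sys) (R r : ℕ) : lab s (R + r) 4 = lab s R (16 * r + 4) := by
  have e1 : (16 * r + 4) % 8 = 4 := by omega
  have e2 : (16 * r + 4) / 8 = 2 * r := by omega
  rw [lab, lab, e1, e2]
  simp
  ring

theorem sl_three {s : Sys} (hs : s.OK) (R : ℕ) :
    s.k - lab s R 0 - lab s R 4 = sl s R 3 := by
  have := slot_spec hs R 0 4 (by decide)
  rwa [show slot 0 4 = 3 by decide] at this

theorem good_P {s : Sys} (hs : s.OK) {B : Multiset LF} {R : ℕ} {p : List LF}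
    {cs : List (List LF)} (h : Good s B R p cs) {r : ℕ} {u w : List ℕ} {ex : List (List ℕ)}
    {rev : Bool} (hL : ((u ++ w ++ ex.flatten : List ℕ) : Multiset ℕ) = Lr r)
    (hS : ((vz (u ++ (bif rev then [4, 0] else [0, 4]) ++ w) ++ (ex.map vz).flatten : List ℕ) :
      Multiset ℕ) = Sr r + {3, 3})
    (hu : u.head? = some (8 * r)) (hw : w.getLast? = some (16 * r + 4)) :
    Good s B (R + r)
      (u.map (lab s R) ++ (bif rev then p.reverse else p) ++ w.map (lab s R))
      (ex.map (List.map (lab s R)) ++ cs) := by
  have hval : ∀ c ∈ vz (u ++ (bif rev then [4, 0] else [0, 4]) ++ w) ++ (ex.map vz).flatten,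
      c % 8 ≠ 7 := by
    intro c hc
    apply Sr33_valid (r := r)
    rw [← hS]
    exact hc
  set j : LF := s.k - lab s R 0 - lab s R 4 with hj
  have hj' : s.k - lab s R 4 - lab s R 0 = j := by rw [hj]; abel
  set p' : List LF := bif rev then p.reverse else p with hp'
  set xy : List ℕ := bif rev then [4, 0] else [0, 4] with hxy
  have hcoe : (p' : Multiset LF) = p := by
    cases rev
    · rfl
    · simp [hp']
  have hvsp : (vs s.k p' : Multiset LF) = vs s.k p := by
    cases rev
    · rfl
    · exact vs_reverse s.k p _ _ h.hh h.hl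
  have hspl : (vs s.k (u.map (lab s R) ++ p' ++ w.map (lab s R)) : Multiset LF) + {j} + {j} =
      (vs s.k ((u ++ xy ++ w).map (lab s R)) : Multiset LF) + vs s.k p' := by
    cases rev
    · have := vs_splice s.k (u.map (lab s R)) p (w.map (lab s R)) _ _ h.hh h.hl
      simpa [hp', hxy, List.map_append, List.append_assoc] using this
    · have := vs_splice s.k (u.map (lab s R)) p.reverse (w.map (lab s R)) (lab s R 4) (lab s R 0)
        (by rw [List.head?_reverse, h.hl]) (by rw [List.getLast?_reverse, h.hh])
      rw [hj'] at this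
      simpa [hp', hxy, List.map_append, List.append_assoc] using this
  have hvl := vs_lab hs R (u ++ xy ++ w) (fun c hc => hval c (List.mem_append_left _ hc))
  have htl := tot_lab hs R ex (fun c hc => hval c (List.mem_append_right _ hc))
  have hSm := congrArg (Multiset.map (sl s R)) hS
  have hLm := congrArg (Multiset.map (lab s R)) hL
  refine ⟨?_, ?_, ?_⟩
  · have htot := h.htot
    rw [tot_cons] at htot
    rw [tot_cons, tot_append, W_add, htl]
    rw [hvl, hvsp] at hspl
    simp only [← Multiset.coe_add, Multiset.map_add, Multiset.map_coe, Multiset.insert_eq_cons,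
      Multiset.map_cons, Multiset.map_singleton, ← sl_three hs R] at hSm hLm ⊢
    rw [← hj] at hSm
    apply add_right_cancel (b := ({j} + {j} : Multiset LF))
    have e1 : (j ::ₘ {j} : Multiset LF) = {j} + {j} := rfl
    rw [e1] at hSm
    calc _ = ((u.map (lab s R) : Multiset LF) + (w.map (lab s R) : Multiset LF) +
          (ex.flatten.map (lab s R) : Multiset LF)) + (p' : Multiset LF) +
          ((vs s.k (u.map (lab s R) ++ p' ++ w.map (lab s R)) : Multiset LF) + {j} + {j}) +
          (((ex.map vz).flatten.map (sl s R) : List LF) : Multiset LF) + tot s.k cs := by abel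
      _ = _ := by
        rw [hspl, hLm, hcoe]
        have : ((vz (u ++ xy ++ w)).map (sl s R) : Multiset LF) + vs s.k p +
            (((ex.map vz).flatten.map (sl s R) : List LF) : Multiset LF) =
            (Multiset.map (sl s R) (Sr r) + ({j} + {j})) + vs s.k p := by
          rw [← hSm]
          abel
        calc _ = Multiset.map (lab s R) (Lr r) + (p : Multiset LF) +
              (((vz (u ++ xy ++ w)).map (sl s R) : Multiset LF) + vs s.k p +
              (((ex.map vz).flatten.map (sl s R) : List LF) : Multiset LF)) + tot s.k cs := by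
                abel
          _ = Multiset.map (lab s R) (Lr r) + Multiset.map (sl s R) (Sr r) + ({j} + {j}) +
              ((p : Multiset LF) + vs s.k p + tot s.k cs) := by
                rw [this]
                abel
          _ = _ := by
                rw [htot]
                abel
  · rw [lab_next_zero]
    cases u with
    | nil => simp at hu
    | cons a u =>
      have : a = 8 * r := by simpa using hu
      rw [this]
      rfl
  · rw [lab_next_four, List.getLast?_append, List.getLast?_map, hw]
    rfl

theorem good_S {s : Sys} (hs : s.OK) {B : Multiset LF} {R : ℕ} {p : List LF}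
    {cs : List (List LF)} (h : Good s B R p cs) {r : ℕ} {u w : List ℕ} {ex : List (List ℕ)}
    (hL : ((u ++ w ++ ex.flatten : List ℕ) : Multiset ℕ) = Lr r)
    (hS : ((vz (0 :: 4 :: u) ++ vz w ++ (ex.map vz).flatten : List ℕ) :
      Multiset ℕ) = Sr r + {3, 3})
    (hw0 : w.head? = some (8 * r)) (hw : w.getLast? = some (16 * r + 4)) :
    Good s B (R + r) (w.map (lab s R))
      (ex.map (List.map (lab s R)) ++ (p ++ u.map (lab s R)) :: cs) := by
  have hval : ∀ c ∈ vz (0 :: 4 :: u) ++ vz w ++ (ex.map vz).flatten, c % 8 ≠ 7 := by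
    intro c hc
    apply Sr33_valid (r := r)
    rw [← hS]
    exact hc
  set j : LF := s.k - lab s R 0 - lab s R 4 with hj
  have hspl : (vs s.k (p ++ u.map (lab s R)) : Multiset LF) + {j} + {j} =
      (vs s.k ((0 :: 4 :: u).map (lab s R)) : Multiset LF) + vs s.k p := by
    have := vs_splice s.k [] p (u.map (lab s R)) _ _ h.hh h.hl
    simpa using this
  have hvl := vs_lab hs R (0 :: 4 :: u) (fun c hc => hval c
    (List.mem_append_left _ (List.mem_append_left _ hc)))
  have hvl2 := vs_lab hs R w (fun c hc => hval c
    (List.mem_append_left _ (List.mem_append_right _ hc)))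
  have htl := tot_lab hs R ex (fun c hc => hval c (List.mem_append_right _ hc))
  have hSm := congrArg (Multiset.map (sl s R)) hS
  have hLm := congrArg (Multiset.map (lab s R)) hL
  refine ⟨?_, ?_, ?_⟩
  · have htot := h.htot
    rw [tot_cons] at htot
    rw [tot_cons, tot_append, tot_cons, W_add, htl, hvl2]
    rw [hvl] at hspl
    simp only [← Multiset.coe_add, Multiset.map_add, Multiset.map_coe, Multiset.insert_eq_cons,
      Multiset.map_cons, Multiset.map_singleton, ← sl_three hs R] at hSm hLm ⊢
    rw [← hj] at hSm
    apply add_right_cancel (b := ({j} + {j} : Multiset LF))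
    have e1 : (j ::ₘ {j} : Multiset LF) = {j} + {j} := rfl
    rw [e1] at hSm
    calc _ = ((u.map (lab s R) : Multiset LF) + (w.map (lab s R) : Multiset LF) +
          (ex.flatten.map (lab s R) : Multiset LF)) + (p : Multiset LF) +
          ((vs s.k (p ++ u.map (lab s R)) : Multiset LF) + {j} + {j}) +
          ((vz w).map (sl s R) : Multiset LF) +
          (((ex.map vz).flatten.map (sl s R) : List LF) : Multiset LF) + tot s.k cs := by abel
      _ = Multiset.map (lab s R) (Lr r) + (p : Multiset LF) +
          ((((vz (0 :: 4 :: u)).map (sl s R) : List LF) : Multiset LF) +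
            ((vz w).map (sl s R) : Multiset LF) +
            (((ex.map vz).flatten.map (sl s R) : List LF) : Multiset LF)) +
          vs s.k p + tot s.k cs := by
        rw [hspl, hLm]
        abel
      _ = Multiset.map (lab s R) (Lr r) + Multiset.map (sl s R) (Sr r) + ({j} + {j}) +
          ((p : Multiset LF) + vs s.k p + tot s.k cs) := by
        rw [hSm]
        abel
      _ = _ := by
        rw [htot]
        abel
  · rw [lab_next_zero]
    cases w with
    | nil => simp at hw0
    | cons a w =>
      have : a = 8 * r := by simpa using hw0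
      rw [this]
      rfl
  · rw [lab_next_four, List.getLast?_map, hw]
    rfl

theorem good_O {s : Sys} (hs : s.OK) {B : Multiset LF} {R : ℕ}
    {cs : List (List LF)} (h : tot s.k cs = B + W s R) {r : ℕ} {w : List ℕ}
    {ex : List (List ℕ)}
    (hL : ((w ++ ex.flatten : List ℕ) : Multiset ℕ) = Lr r)
    (hS : ((vz w ++ (ex.map vz).flatten : List ℕ) : Multiset ℕ) = Sr r)
    (hw0 : w.head? = some (8 * r)) (hw : w.getLast? = some (16 * r + 4)) :
    Good s B (R + r) (w.map (lab s R)) (ex.map (List.map (lab s R)) ++ cs) := by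
  have hval : ∀ c ∈ vz w ++ (ex.map vz).flatten, c % 8 ≠ 7 := by
    intro c hc
    apply Sr_valid (r := r)
    rw [← hS]
    exact hc
  have hvl2 := vs_lab hs R w (fun c hc => hval c (List.mem_append_left _ hc))
  have htl := tot_lab hs R ex (fun c hc => hval c (List.mem_append_right _ hc))
  have hSm := congrArg (Multiset.map (sl s R)) hS
  have hLm := congrArg (Multiset.map (lab s R)) hL
  refine ⟨?_, ?_, ?_⟩
  · rw [tot_cons, tot_append, W_add, htl, hvl2, h, ← hSm, ← hLm]
    simp only [← Multiset.coe_add, Multiset.map_add, Multiset.map_coe]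
    abel
  · rw [lab_next_zero]
    cases w with
    | nil => simp at hw0
    | cons a w =>
      have : a = 8 * r := by simpa using hw0
      rw [this]
      rfl
  · rw [lab_next_four, List.getLast?_map, hw]
    rfl

theorem good_C {s : Sys} (hs : s.OK) {B : Multiset LF} {R : ℕ}
    {cs : List (List LF)} (h : tot s.k cs = B + W s R) {r : ℕ} {ex : List (List ℕ)}
    (hL : ((ex.flatten : List ℕ) : Multiset ℕ) = Lr r)
    (hS : (((ex.map vz).flatten : List ℕ) : Multiset ℕ) = Sr r) :
    tot s.k (ex.map (List.map (lab s R)) ++ cs) = B + W s (R + r) := by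
  have hval : ∀ c ∈ (ex.map vz).flatten, c % 8 ≠ 7 := by
    intro c hc
    apply Sr_valid (r := r)
    rw [← hS]
    exact hc
  rw [tot_append, W_add, tot_lab hs R ex hval, hL, hS, h]
  abel

end Pool.Agent.VMT
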