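import Mathlib

/-!
# VMT.Core : cycles of labels and their sums (MP_4cc966_co)

A labeled cycle is the list `c` of the labels of its edges (in cyclic order), in an additive group;
the labels of its vertices are `k - a - b` for the cyclically consecutive pairs `a, b`.
-/

set_option autoImplicit false

namespace Pool.Agent.VMT

section Group

variable {G : Type*} [AddCommGroup G]

/-- the sums `k - a - b` along a list -/
def ps (k : G) : List G → List G
  | a :: b :: l => (k - a - b) :: ps k (b :: l)
  | _ => []

/-- the sums around a cycle -/
def vs (k : G) : List G → List G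
  | [] => []
  | a :: l => ps k ((a :: l) ++ [a])

/-- all labels of the edges and vertices of a family of cycles -/
def tot (k : G) (cs : List (List G)) : Multiset G :=
  (cs.map fun c => ((c ++ vs k c : List G) : Multiset G)).sum

theorem ps_nil (k : G) : ps k ([] : List G) = [] := rfl

theorem ps_single (k a : G) : ps k [a] = [] := rfl

theorem ps_cons_cons (k a b : G) (l : List G) :
    ps k (a :: b :: l) = (k - a - b) :: ps k (b :: l) := rfl

theorem ps_pair (k a b : G) : ps k [a, b] = [k - a - b] := rfl

theorem ps_append (k : G) (α : List G) (x : G) (β : List G) :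
    ps k (α ++ x :: β) = ps k (α ++ [x]) ++ ps k (x :: β) := by
  induction α with
  | nil => simp [ps]
  | cons a α ih =>
    cases α with
    | nil => simp [ps]
    | cons b α =>
      simp only [List.cons_append] at ih ⊢
      rw [ps_cons_cons, ps_cons_cons, ih]
      rfl

theorem ps_reverse (k : G) (l : List G) : (ps k l.reverse : Multiset G) = ps k l := by
  induction l with
  | nil => rfl
  | cons a l ih =>
    cases l with
    | nil => rfl
    | cons b l =>
      have h1 : (a :: b :: l).reverse = l.reverse ++ b :: [a] := by simp
      have h2 : (b :: l).reverse = l.reverse ++ [b] := by simp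
      rw [h1, ps_append, ← h2, ← Multiset.coe_add, ih, ps_pair, ps_cons_cons,
        ← Multiset.cons_coe]
      have h3 : k - b - a = k - a - b := by abel
      rw [h3, add_comm]
      rfl

theorem tot_nil (k : G) : tot k ([] : List (List G)) = 0 := rfl

theorem tot_cons (k : G) (c : List G) (cs : List (List G)) :
    tot k (c :: cs) = (c : Multiset G) + (vs k c : Multiset G) + tot k cs := by
  rw [tot, List.map_cons, List.sum_cons, ← Multiset.coe_add]
  rfl

theorem tot_append (k : G) (cs ds : List (List G)) :
    tot k (cs ++ ds) = tot k cs + tot k ds := by
  rw [tot, List.map_append, List.sum_append]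
  rfl

theorem vs_cons (k a : G) (l : List G) : vs k (a :: l) = ps k ((a :: l) ++ [a]) := rfl

theorem ps_map {H : Type*} [AddCommGroup H] (f : G →+ H) (k : G) (l : List G) :
    (ps k l).map f = ps (f k) (l.map f) := by
  induction l with
  | nil => rfl
  | cons a l ih =>
    cases l with
    | nil => rfl
    | cons b l =>
      simp only [ps_cons_cons, List.map_cons, map_sub] at ih ⊢
      rw [ih]

theorem vs_map {H : Type*} [AddCommGroup H] (f : G →+ H) (k : G) (l : List G) :
    (vs k l).map f = vs (f k) (l.map f) := by
  cases l with
  | nil => rfl
  | cons a l =>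
    rw [vs_cons, ps_map, List.map_append]
    rfl

theorem tot_map {H : Type*} [AddCommGroup H] (f : G →+ H) (k : G) (cs : List (List G)) :
    (tot k cs).map f = tot (f k) (cs.map (List.map f)) := by
  induction cs with
  | nil => rfl
  | cons c cs ih =>
    rw [List.map_cons, tot_cons, tot_cons, Multiset.map_add, Multiset.map_add, ih,
      Multiset.map_coe, Multiset.map_coe, vs_map]

/-- replacing the edge `x y` of a cycle by a path from `x` to `y` -/
theorem ps_splice (k : G) (α p β : List G) (x y : G) (hx : p.head? = some x)
    (hy : p.getLast? = some y) :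
    (ps k (α ++ p ++ β) : Multiset G) + {k - x - y} =
      (ps k (α ++ x :: y :: β) : Multiset G) + ps k p := by
  obtain ⟨q, rfl⟩ : ∃ q, p = x :: q := by
    cases p with
    | nil => simp at hx
    | cons a q =>
      simp only [List.head?_cons, Option.some.injEq] at hx
      exact ⟨q, by rw [hx]⟩
  have e1 : ps k (α ++ x :: q ++ β) = ps k (α ++ [x]) ++ ps k (x :: q ++ β) := by
    rw [List.append_assoc, List.cons_append, ps_append]
  have e2 : ps k (α ++ x :: y :: β) = ps k (α ++ [x]) ++ ((k - x - y) :: ps k (y :: β)) := by
    rw [ps_append, ps_cons_cons]
  have e3 : ps k (x :: q ++ β) = ps k (x :: q) ++ ps k (y :: β) := by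
    obtain ⟨q', hq'⟩ : ∃ q', x :: q = q' ++ [y] := by
      obtain ⟨l, hl⟩ := List.getLast?_eq_some_iff.1 hy
      exact ⟨l, hl⟩
    rw [hq', List.append_assoc, List.singleton_append, ps_append]
  rw [e1, e2, e3]
  simp only [← Multiset.coe_add, ← Multiset.cons_coe, ← Multiset.singleton_add]
  abel

theorem vs_eq (k : G) (p : List G) (x y : G) (hx : p.head? = some x)
    (hy : p.getLast? = some y) : (vs k p : Multiset G) = (ps k p : Multiset G) + {k - x - y} := by
  cases p with
  | nil => simp at hx
  | cons a q =>
    have hax : a = x := by simpa using hx
    subst hax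
    obtain ⟨l, hl⟩ := List.getLast?_eq_some_iff.1 hy
    rw [vs_cons, hl, List.append_assoc, List.singleton_append, ps_append, ps_pair,
      ← Multiset.coe_add]
    have : k - y - a = k - a - y := by abel
    rw [this]
    rfl

theorem vs_reverse (k : G) (p : List G) (x y : G) (hx : p.head? = some x)
    (hy : p.getLast? = some y) : (vs k p.reverse : Multiset G) = vs k p := by
  rw [vs_eq k p x y hx hy, vs_eq k p.reverse y x (by rw [List.head?_reverse, hy])
    (by rw [List.getLast?_reverse, hx]), ps_reverse]
  have : k - y - x = k - x - y := by abel
  rw [this]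

theorem vs_splice (k : G) (u p w : List G) (x y : G) (hx : p.head? = some x)
    (hy : p.getLast? = some y) :
    (vs k (u ++ p ++ w) : Multiset G) + {k - x - y} + {k - x - y} =
      (vs k (u ++ x :: y :: w) : Multiset G) + vs k p := by
  have hp := vs_eq k p x y hx hy
  have key : ∀ h : G, (ps k (u ++ p ++ w ++ [h]) : Multiset G) + {k - x - y} =
      (ps k (u ++ x :: y :: w ++ [h]) : Multiset G) + ps k p := by
    intro h
    have := ps_splice k u p (w ++ [h]) x y hx hy
    simpa [List.append_assoc] using this
  rw [hp]
  cases u with
  | nil =>
    cases p with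
    | nil => simp at hx
    | cons a q =>
      have hax : a = x := by simpa using hx
      subst hax
      have := key a
      simp only [List.nil_append, List.cons_append] at this ⊢
      rw [vs_cons, vs_cons]
      simp only [List.cons_append]
      rw [this]
      abel
  | cons b u =>
    have := key b
    simp only [List.cons_append] at this ⊢
    rw [vs_cons, vs_cons]
    simp only [List.cons_append]
    rw [this]
    abel

end Group

end Pool.Agent.VMT
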