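import Mathlib

/-!
# VMT.Defs : vertex-magic total labelings (MP_4cc966_co)
-/

set_option autoImplicit false

namespace Pool.Agent.VMT

/-- `f` is a vertex-magic total labeling of the finite graph `G` with the magic constant `k`: a
bijection from the vertices and edges onto the integers from `1` to their number, such that every
vertex label plus the labels of the edges at this vertex gives `k`. -/
structure IsVMTL {V : Type*} [Fintype V] [DecidableEq V] (G : SimpleGraph V)
    [DecidableRel G.Adj] (f : V ⊕ G.edgeSet → ℕ) (k : ℕ) : Prop where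
  bij : Set.BijOn f Set.univ (Set.Icc 1 (Fintype.card V + Fintype.card G.edgeSet))
  magic : ∀ x : V, f (Sum.inl x) +
    ∑ y : G.neighborSet x, f (Sum.inr ⟨s(x, (y : V)), G.mem_edgeSet.mpr y.2⟩) = k

/-- the finite graph `G` has a vertex-magic total labeling -/
def HasVMTL {V : Type*} [Fintype V] [DecidableEq V] (G : SimpleGraph V)
    [DecidableRel G.Adj] : Prop :=
  ∃ (f : V ⊕ G.edgeSet → ℕ) (k : ℕ), IsVMTL G f k

/-- the disjoint union of two triangles -/
def twoK3 : SimpleGraph (Fin 3 ⊕ Fin 3) :=
  SimpleGraph.sum (⊤ : SimpleGraph (Fin 3)) (⊤ : SimpleGraph (Fin 3))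

end Pool.Agent.VMT
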