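import Mathlib

/-!
# VMT.Gen : comparing short multisets by a number (MP_4cc966_co)
-/

set_option autoImplicit false

namespace Pool.Agent.VMT

/-- the number of a list: the sum of the powers `256 ^ c` -/
def gen : List ℕ → ℕ
  | [] => 0
  | c :: l => Nat.add (Nat.pow 256 c) (gen l)

theorem gen_cons (c : ℕ) (l : List ℕ) : gen (c :: l) = 256 ^ c + gen l := rfl

private theorem gen_eq_sum (N : ℕ) (l : List ℕ) (h : ∀ c ∈ l, c < N) :
    gen l = ∑ c ∈ Finset.range N, l.count c * 256 ^ c := by
  induction l with
  | nil => simp [gen]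
  | cons a l ih =>
    have ha : a < N := h a List.mem_cons_self
    rw [gen_cons, ih (fun c hc => h c (List.mem_cons_of_mem _ hc))]
    have : ∀ c ∈ Finset.range N, (a :: l).count c * 256 ^ c =
        l.count c * 256 ^ c + (if a = c then 256 ^ c else 0) := by
      intro c _
      rw [List.count_cons]
      by_cases hc : a = c
      · subst hc
        simp
        ring
      · simp [hc]
    rw [Finset.sum_congr rfl this, Finset.sum_add_distrib, Finset.sum_ite_eq,
      if_pos (Finset.mem_range.mpr ha), add_comm]

private theorem digits_unique (N : ℕ) : ∀ f g : ℕ → ℕ, (∀ c, f c < 256) → (∀ c, g c < 256) →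
    ∑ c ∈ Finset.range N, f c * 256 ^ c = ∑ c ∈ Finset.range N, g c * 256 ^ c →
    ∀ c < N, f c = g c := by
  induction N with
  | zero => intro f g _ _ _ c hc; omega
  | succ N ih =>
    intro f g hf hg h c hc
    have e : ∀ f : ℕ → ℕ, ∑ c ∈ Finset.range (N + 1), f c * 256 ^ c =
        256 * (∑ c ∈ Finset.range N, f (c + 1) * 256 ^ c) + f 0 := by
      intro f
      rw [Finset.sum_range_succ', Finset.mul_sum]
      congr 1
      · apply Finset.sum_congr rfl
        intro c _
        ring
      · simp
    rw [e, e] at h
    have h0 := hf 0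
    have h1 := hg 0
    have h2 : f 0 = g 0 := by omega
    have h3 := ih (fun c => f (c + 1)) (fun c => g (c + 1)) (fun c => hf _) (fun c => hg _)
      (by omega)
    cases c with
    | zero => exact h2
    | succ c => exact h3 c (by omega)

theorem coe_eq_of_gen {l m : List ℕ} (hl : l.length < 256) (hm : m.length < 256)
    (h : gen l = gen m) : (l : Multiset ℕ) = m := by
  obtain ⟨N, hN⟩ : ∃ N : ℕ, (∀ c ∈ l, c < N) ∧ (∀ c ∈ m, c < N) := by
    refine ⟨(l ++ m).sum + 1, ?_, ?_⟩
    · intro c hc
      have := List.single_le_sum (l := l ++ m) (fun x _ => Nat.zero_le x) c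
        (List.mem_append_left _ hc)
      omega
    · intro c hc
      have := List.single_le_sum (l := l ++ m) (fun x _ => Nat.zero_le x) c
        (List.mem_append_right _ hc)
      omega
  rw [gen_eq_sum N l hN.1, gen_eq_sum N m hN.2] at h
  have key := digits_unique N (fun c => l.count c) (fun c => m.count c)
    (fun c => lt_of_le_of_lt List.count_le_length hl)
    (fun c => lt_of_le_of_lt List.count_le_length hm) h
  ext c
  rw [Multiset.coe_count, Multiset.coe_count]
  by_cases hc : c < N
  · exact key c hc
  · rw [List.count_eq_zero_of_not_mem (fun h => hc (hN.1 c h)),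
      List.count_eq_zero_of_not_mem (fun h => hc (hN.2 c h))]

/-- the test -/
def same (l m : List ℕ) : Bool :=
  Nat.beq (gen l) (gen m) && Nat.blt l.length 256 && Nat.blt m.length 256

theorem coe_eq_of_same {l m : List ℕ} (h : same l m = true) : (l : Multiset ℕ) = m := by
  simp only [same, Bool.and_eq_true] at h
  obtain ⟨⟨h1, h2⟩, h3⟩ := h
  refine coe_eq_of_gen ?_ ?_ (Nat.eq_of_beq_eq_true h1)
  · simpa [Nat.blt] using h2
  · simpa [Nat.blt] using h3

end Pool.Agent.VMT
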