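import Pool.Agent.Lib.VMT.Defs

/-!
# VMT.Graph1 : labelings of a graph whose edges are `x -- σ x` for a permutation `σ`
-/

set_option autoImplicit false

namespace Pool.Agent.VMT

open Finset

theorem map_val_sum {A B C : Type*} [Fintype A] [Fintype B] (f : A ⊕ B → C) :
    (univ : Finset (A ⊕ B)).val.map f =
      (univ : Finset A).val.map (fun x => f (Sum.inl x)) +
        (univ : Finset B).val.map (fun x => f (Sum.inr x)) := by
  rw [← Finset.univ_disjSum_univ, Finset.val_disjSum, Multiset.disjSum, Multiset.map_add,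
    Multiset.map_map, Multiset.map_map]
  rfl

theorem map_val_equiv {A B C : Type*} [Fintype A] [Fintype B] (e : A ≃ B) (f : B → C) :
    (univ : Finset A).val.map (fun x => f (e x)) = (univ : Finset B).val.map f := by
  have h : (univ : Finset A).val.map e = (univ : Finset B).val := by
    have := Finset.map_univ_equiv e
    have h2 := congrArg Finset.val this
    rw [Finset.map_val] at h2
    exact h2
  rw [← h, Multiset.map_map]
  rfl

theorem bijOn_of_map {A : Type*} [Fintype A] {f : A → ℕ} {N : ℕ}
    (h : (univ : Finset A).val.map f = (Multiset.range N).map fun i : ℕ => i + 1) :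
    Set.BijOn f Set.univ (Set.Icc 1 N) := by
  have hnd : ((Multiset.range N).map fun i : ℕ => i + 1).Nodup :=
    (Multiset.nodup_range N).map (fun a b hab => by simpa using hab)
  refine ⟨?_, ?_, ?_⟩
  · intro x _
    have : f x ∈ (univ : Finset A).val.map f := Multiset.mem_map_of_mem f (Finset.mem_univ x)
    rw [h, Multiset.mem_map] at this
    obtain ⟨i, hi, hx⟩ := this
    rw [Multiset.mem_range] at hi
    rw [← hx]
    exact ⟨by omega, by omega⟩
  · intro x _ y _ hxy
    rw [← h] at hnd
    exact Multiset.inj_on_of_nodup_map hnd x (Finset.mem_univ x) y (Finset.mem_univ y) hxy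
  · intro i hi
    have : i ∈ (Multiset.range N).map fun i : ℕ => i + 1 := by
      rw [Multiset.mem_map]
      refine ⟨i - 1, ?_, ?_⟩
      · rw [Multiset.mem_range]
        have := hi.1
        have := hi.2
        omega
      · have := hi.1
        omega
    rw [← h, Multiset.mem_map] at this
    obtain ⟨x, _, hx⟩ := this
    exact ⟨x, trivial, hx⟩

theorem map_of_bijOn {A : Type*} [Fintype A] {f : A → ℕ} {N : ℕ}
    (h : Set.BijOn f Set.univ (Set.Icc 1 N)) :
    (univ : Finset A).val.map f = (Multiset.range N).map fun i : ℕ => i + 1 := by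
  have hnd : ((Multiset.range N).map fun i : ℕ => i + 1).Nodup :=
    (Multiset.nodup_range N).map (fun a b hab => by simpa using hab)
  have hnd2 : ((univ : Finset A).val.map f).Nodup :=
    (Finset.nodup univ).map (fun a b hab => h.injOn trivial trivial hab)
  rw [Multiset.Nodup.ext hnd2 hnd]
  intro i
  rw [Multiset.mem_map, Multiset.mem_map]
  constructor
  · rintro ⟨x, _, rfl⟩
    have := h.mapsTo (Set.mem_univ x)
    refine ⟨f x - 1, ?_, ?_⟩
    · rw [Multiset.mem_range]
      have h1 := this.1
      have h2 := this.2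
      omega
    · have h1 := this.1
      omega
  · rintro ⟨j, hj, rfl⟩
    rw [Multiset.mem_range] at hj
    obtain ⟨x, _, hx⟩ := h.surjOn (show j + 1 ∈ Set.Icc 1 N from ⟨by omega, by omega⟩)
    exact ⟨x, Finset.mem_univ x, hx⟩

section

variable {V : Type*} [Fintype V] [DecidableEq V] (G : SimpleGraph V) [DecidableRel G.Adj]
  (σ : Equiv.Perm V)

/-- the numerical form of a labeling -/
def Num (σ : Equiv.Perm V) : Prop :=
  ∃ (k : ℤ) (L : V → ℤ), (univ : Finset V).val.map L +
    (univ : Finset V).val.map (fun x => k - L x - L (σ x)) =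
      (Multiset.range (2 * Fintype.card V)).map fun i : ℕ => (i : ℤ) + 1

/-- the edge from `x` to `σ x` -/
def edg (hσ : ∀ x y, G.Adj x y ↔ (σ x = y ∨ σ y = x)) (x : V) : G.edgeSet :=
  ⟨s(x, σ x), G.mem_edgeSet.mpr ((hσ _ _).mpr (Or.inl rfl))⟩

variable {G σ}

omit [Fintype V] [DecidableEq V] [DecidableRel G.Adj] in
theorem edg_bij (hσ : ∀ x y, G.Adj x y ↔ (σ x = y ∨ σ y = x)) (hne : ∀ x, σ (σ x) ≠ x) :
    Function.Bijective (edg G σ hσ) := by
  constructor
  · intro x y hxy
    have h : s(x, σ x) = s(y, σ y) := congrArg Subtype.val hxy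
    rw [Sym2.eq_iff] at h
    rcases h with ⟨h1, _⟩ | ⟨h1, h2⟩
    · exact h1
    · exfalso
      rw [h1] at h2
      exact hne y h2
  · rintro ⟨e, he⟩
    induction e using Sym2.ind with
    | _ x y =>
      have h := (hσ x y).mp (G.mem_edgeSet.mp he)
      rcases h with h | h
      · refine ⟨x, ?_⟩
        apply Subtype.ext
        show s(x, σ x) = s(x, y)
        rw [h]
      · refine ⟨y, ?_⟩
        apply Subtype.ext
        show s(y, σ y) = s(x, y)
        rw [h, Sym2.eq_swap]

theorem sum_nbr (hσ : ∀ x y, G.Adj x y ↔ (σ x = y ∨ σ y = x)) (hne : ∀ x, σ (σ x) ≠ x)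
    (g : G.edgeSet → ℕ) (x : V) :
    ∑ y : G.neighborSet x, g ⟨s(x, (y : V)), G.mem_edgeSet.mpr y.2⟩ =
      g (edg G σ hσ x) + g (edg G σ hσ (σ.symm x)) := by
  have ha : G.Adj x (σ x) := (hσ _ _).mpr (Or.inl rfl)
  have hb : G.Adj x (σ.symm x) := (hσ _ _).mpr (Or.inr (σ.apply_symm_apply x))
  have hab : (⟨σ x, ha⟩ : G.neighborSet x) ≠ ⟨σ.symm x, hb⟩ := by
    intro h
    have h1 : σ x = σ.symm x := congrArg Subtype.val h
    apply hne x
    rw [h1, σ.apply_symm_apply]
  have huniv : (univ : Finset (G.neighborSet x)) = {⟨σ x, ha⟩, ⟨σ.symm x, hb⟩} := by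
    ext y
    simp only [Finset.mem_univ, Finset.mem_insert, Finset.mem_singleton, true_iff]
    have h := (hσ x y).mp y.2
    rcases h with h | h
    · left
      exact Subtype.ext h.symm
    · right
      apply Subtype.ext
      exact (σ.symm_apply_eq.mpr h.symm).symm
  rw [huniv, Finset.sum_pair hab]
  congr 2
  apply Subtype.ext
  show s(x, σ.symm x) = s(σ.symm x, σ (σ.symm x))
  rw [σ.apply_symm_apply, Sym2.eq_swap]

theorem hasVMTL_iff (hσ : ∀ x y, G.Adj x y ↔ (σ x = y ∨ σ y = x)) (hne : ∀ x, σ (σ x) ≠ x) :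
    HasVMTL G ↔ Num σ := by
  set e : V ≃ G.edgeSet := Equiv.ofBijective _ (edg_bij hσ hne) with he
  have hex : ∀ x, e x = edg G σ hσ x := fun x => rfl
  have hcard : Fintype.card G.edgeSet = Fintype.card V := (Fintype.card_congr e).symm
  have hN : Fintype.card V + Fintype.card G.edgeSet = 2 * Fintype.card V := by
    rw [hcard]
    ring
  constructor
  · rintro ⟨f, k, hf⟩
    refine ⟨k, fun x => (f (Sum.inr (e x)) : ℤ), ?_⟩
    have h1 := map_of_bijOn hf.bij
    rw [hN, map_val_sum, ← map_val_equiv e (fun z => f (Sum.inr z)),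
      ← map_val_equiv σ (fun z => f (Sum.inl z)), add_comm] at h1
    have h2 := congrArg (Multiset.map fun i : ℕ => (i : ℤ)) h1
    rw [Multiset.map_add, Multiset.map_map, Multiset.map_map, Multiset.map_map] at h2
    have h3 : ∀ x, (k : ℤ) - f (Sum.inr (e x)) - f (Sum.inr (e (σ x))) = f (Sum.inl (σ x)) := by
      intro x
      have h4 := hf.magic (σ x)
      rw [sum_nbr hσ hne (fun z => f (Sum.inr z)) (σ x), ← hex, ← hex, σ.symm_apply_apply] at h4
      rw [← h4]
      push_cast
      ring
    simp only [Function.comp_def] at h2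
    simp only [h3]
    rw [h2]
    apply Multiset.map_congr rfl
    intro i _
    push_cast
    ring
  · rintro ⟨k, L, hL⟩
    have hpos : ∀ z ∈ (univ : Finset V).val.map L +
        (univ : Finset V).val.map (fun x => k - L x - L (σ x)), 1 ≤ z := by
      rw [hL]
      intro z hz
      rw [Multiset.mem_map] at hz
      obtain ⟨i, _, rfl⟩ := hz
      omega
    have hp1 : ∀ x, 1 ≤ L x := fun x => hpos _ (Multiset.mem_add.mpr
      (Or.inl (Multiset.mem_map_of_mem L (Finset.mem_univ x))))
    have hp2 : ∀ x, 1 ≤ k - L x - L (σ x) := fun x => hpos _ (Multiset.mem_add.mpr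
      (Or.inr (Multiset.mem_map_of_mem (fun x => k - L x - L (σ x)) (Finset.mem_univ x))))
    refine ⟨Sum.elim (fun x => (k - L (σ.symm x) - L x).toNat) (fun z => (L (e.symm z)).toNat),
      k.toNat, ?_, ?_⟩
    · rw [hN]
      apply bijOn_of_map
      rw [map_val_sum]
      simp only [Sum.elim_inl, Sum.elim_inr]
      rw [← map_val_equiv e (fun z => (L (e.symm z)).toNat),
        ← map_val_equiv σ (fun z => (k - L (σ.symm z) - L z).toNat)]
      simp only [Equiv.symm_apply_apply]
      have h2 := congrArg (Multiset.map Int.toNat) hL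
      rw [Multiset.map_add, Multiset.map_map, Multiset.map_map, Multiset.map_map] at h2
      simp only [Function.comp_def] at h2
      rw [add_comm, h2]
      apply Multiset.map_congr rfl
      intro i _
      omega
    · intro x
      rw [sum_nbr hσ hne (fun z => Sum.elim (fun x => (k - L (σ.symm x) - L x).toNat)
        (fun z => (L (e.symm z)).toNat) (Sum.inr z)) x, ← hex, ← hex]
      simp only [Sum.elim_inl, Sum.elim_inr, Equiv.symm_apply_apply]
      have h1 := hp1 x
      have h2 := hp1 (σ.symm x)
      have h3 := hp2 (σ.symm x)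
      rw [σ.apply_symm_apply] at h3
      omega

end

end Pool.Agent.VMT
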