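import Pool.Agent.Lib.VMT.TreeU

/-!
# VMT.Small : labelings of the cycles with a given multiset of lengths (MP_4cc966_co)
-/

set_option autoImplicit false

namespace Pool.Agent.VMT

/-- the cycles with the lengths `G` have a vertex-magic total labeling, as lists of labels -/
def Vm (G : Multiset ℕ) : Prop :=
  ∃ (k : ℤ) (cs : List (List ℤ)),
    tot k cs = (Multiset.range (2 * G.sum)).map (fun i : ℕ => (i : ℤ) + 1) ∧ lens cs = G

theorem length_ps {A : Type*} [AddCommGroup A] (k : A) (l : List A) :
    (ps k l).length = l.length - 1 := by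
  induction l with
  | nil => rfl
  | cons a l ih =>
    cases l with
    | nil => rfl
    | cons b l =>
      rw [ps_cons_cons, List.length_cons, ih]
      simp

theorem length_vs {A : Type*} [AddCommGroup A] (k : A) (l : List A) :
    (vs k l).length = l.length := by
  cases l with
  | nil => rfl
  | cons a l =>
    rw [vs_cons, length_ps]
    simp

theorem card_tot {A : Type*} [AddCommGroup A] (k : A) (cs : List (List A)) :
    Multiset.card (tot k cs) = 2 * (lens cs).sum := by
  induction cs with
  | nil => rfl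
  | cons c cs ih =>
    rw [tot_cons, Multiset.card_add, Multiset.card_add, ih, lens_cons, Multiset.sum_add,
      Multiset.sum_singleton, Multiset.coe_card, Multiset.coe_card, length_vs]
    ring

theorem Um.vm {G : Multiset ℕ} (h : Um G) : Vm G := by
  obtain ⟨s, B, p0, R, cs, h1, h2, h3, h4⟩ := h
  have h5 := tot_map (ev R) s.k cs
  rw [h3, h2 R] at h5
  have h6 := congrArg Multiset.card h3
  have h7 := congrArg Multiset.card (h2 R)
  rw [Multiset.card_map, Multiset.card_map, Multiset.card_range] at h7
  rw [h7, card_tot, h4] at h6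
  refine ⟨ev R s.k, cs.map (List.map (ev R)), ?_, ?_⟩
  · rw [← h5, h6]
  · rw [lens_map, h4]

/-! ## Direct certificates -/

structure Dc where
  F : List ℕ
  k : ℕ
  c : List ℕ

def Dc.chk (d : Dc) : Bool :=
  leq ((d.c.map (dg 100)).map List.length) d.F &&
    ((d.c.map (dg 100)).all (okc 0 d.k 0) &&
      same ((d.c.map (dg 100)).flatten ++ ((d.c.map (dg 100)).map (vvs d.k)).flatten)
        (iot (Nat.mul 2 (sumL d.F)) 1))

theorem Dc.vm_of_chk {d : Dc} (h : d.chk = true) : Vm (d.F : Multiset ℕ) := by
  simp only [Dc.chk, Bool.and_eq_true] at h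
  obtain ⟨h1, h2, h3⟩ := h
  have h4 := okc_tot h2
  have h5 := tot_map (ev 0) ((d.k : ℤ), ((0 : ℕ) : ℤ)) ((d.c.map (dg 100)).map (List.map (lb 0)))
  rw [h4, coe_eq_of_same h3, iot_coe, Multiset.map_map, Multiset.map_map] at h5
  refine ⟨ev 0 ((d.k : ℤ), ((0 : ℕ) : ℤ)),
    ((d.c.map (dg 100)).map (List.map (lb 0))).map (List.map (ev 0)), ?_, ?_⟩
  · rw [← h5, sumL_coe]
    apply Multiset.map_congr rfl
    intro i _
    simp only [Function.comp, lb, ev, AddMonoidHom.coe_mk, ZeroHom.coe_mk]
    push_cast
    ring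
  · rw [lens_map, lens_map, lens, eq_of_leq h1]

def withD (t : BT Dc) (i : ℕ) (f : Dc → Bool) : Bool :=
  match t.get i with
  | some d => f d
  | none => false

theorem withD_spec {t : BT Dc} (hl : t.All fun d => Vm (d.F : Multiset ℕ)) {i : ℕ}
    {f : Dc → Bool} (h : withD t i f = true) : ∃ d : Dc, Vm (d.F : Multiset ℕ) ∧ f d = true := by
  unfold withD at h
  split at h
  · rename_i B hB
    exact ⟨B, BT.get_spec hl hB, h⟩
  · exact absurd h (by simp)

def chkSm (t : BT Dc) : T → List ℕ → ℕ → ℕ → Bool
  | .nil, _, sm, x => Nat.ble 15 (Nat.add sm x)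
  | .node it ch sb, S, sm, x =>
    (bif Nat.beq it 0 then Nat.beq (Nat.add sm x) 6 && Nat.beq (nnL (x :: S)) 0
      else withD t (Nat.pred it) fun d => same d.F (x :: S)) &&
    (chkSm t ch (x :: S) (Nat.add sm x) x && chkSm t sb S sm (Nat.succ x))

theorem eq_33 {S : Multiset ℕ} (h : nn S = 0) (h6 : S.sum = 6) : S = {3, 3} := by
  have h1 : ∀ x ∈ S, x = 3 := by
    intro x hx
    by_contra hne
    rw [nn, Multiset.countP_eq_zero] at h
    exact h x hx hne
  have h2 := Multiset.eq_replicate_card.mpr h1
  rw [h2, Multiset.sum_replicate, smul_eq_mul] at h6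
  have h3 : Multiset.card S = 2 := by omega
  rw [h2, h3]
  rfl

theorem chkSm_spec {t : BT Dc} (hl : t.All fun d => Vm (d.F : Multiset ℕ)) (τ : T) :
    ∀ (S : List ℕ) (sm x : ℕ),
    (S : Multiset ℕ).sum = sm → chkSm t τ S sm x = true →
    ∀ F : Multiset ℕ, (S : Multiset ℕ) ≤ F → (∃ m, m ∈ F - S) → (∀ m ∈ F - S, x ≤ m) →
    F.sum ≤ 14 → F ≠ {3, 3} → Vm F := by
  induction τ with
  | nil =>
    intro S sm x hs h F hF hne hx h14 _
    exfalso
    obtain ⟨m, hm⟩ := hne
    have h15 : 15 ≤ sm + x := Nat.le_of_ble_eq_true h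
    have h1 := sum_sub hF
    have h2 := sum_mono (Multiset.singleton_le.mpr hm)
    rw [Multiset.sum_singleton] at h2
    have h3 := hx m hm
    omega
  | node it ch sb ihc ihs =>
    intro S sm x hs h F hF hne hx h14 h6
    simp only [chkSm, Bool.and_eq_true] at h
    obtain ⟨h1, h2, h3⟩ := h
    by_cases hxm : x ∈ F - S
    · have hs' : ((x :: S : List ℕ) : Multiset ℕ).sum = Nat.add sm x := by
        rw [← Multiset.cons_coe, Multiset.sum_cons, hs]
        exact add_comm _ _
      have hle : (S : Multiset ℕ) ≤ ((x :: S : List ℕ) : Multiset ℕ) := by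
        rw [← Multiset.cons_coe]
        exact Multiset.le_cons_self _ _
      have hF' : ((x :: S : List ℕ) : Multiset ℕ) ≤ F := by
        rw [← Multiset.cons_coe, ← Multiset.singleton_add]
        calc {x} + (S : Multiset ℕ) ≤ (F - S) + S := by
              gcongr
              exact Multiset.singleton_le.mpr hxm
          _ = F := tsub_add_cancel_of_le hF
      by_cases hFe : F = ((x :: S : List ℕ) : Multiset ℕ)
      · rw [hFe] at h6 ⊢
        cases h0 : Nat.beq it 0
        · rw [h0, cond_false] at h1
          obtain ⟨d, hd, h⟩ := withD_spec hl h1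
          rwa [coe_eq_of_same h] at hd
        · rw [h0, cond_true, Bool.and_eq_true] at h1
          exfalso
          apply h6
          refine eq_33 ?_ ?_
          · rw [nnL_coe]
            exact Nat.eq_of_beq_eq_true h1.2
          · rw [hs']
            exact Nat.eq_of_beq_eq_true h1.1
      · refine ihc (x :: S) (Nat.add sm x) x hs' h2 F hF' ?_ ?_ h14 h6
        · apply Multiset.exists_mem_of_ne_zero
          intro h0
          apply hFe
          apply le_antisymm _ hF'
          rwa [← tsub_eq_zero_iff_le]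
        · intro m hm
          exact hx m (Multiset.mem_of_le (tsub_le_tsub_left hle F) hm)
    · refine ihs S sm (Nat.succ x) hs h3 F hF hne ?_ h14 h6
      intro m hm
      have h3 := hx m hm
      rcases Nat.lt_or_ge x m with h4 | h4
      · exact h4
      · have : m = x := le_antisymm h4 h3
        rw [this] at hm
        exact absurd hm hxm

theorem small_vm {t : BT Dc} (hl : t.All fun d => Vm (d.F : Multiset ℕ)) {τ : T}
    (h : chkSm t τ [] 0 3 = true) {G : Multiset ℕ} (hP : Pt G) (h14 : G.sum ≤ 14)
    (h6 : G ≠ {3, 3}) : Vm G := by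
  by_cases h0 : G = 0
  · subst h0
    exact ⟨0, [], rfl, rfl⟩
  · refine chkSm_spec hl τ [] 0 3 rfl h G (Multiset.zero_le G) ?_ ?_ h14 h6
    · rw [Multiset.coe_nil, tsub_zero]
      exact Multiset.exists_mem_of_ne_zero h0
    · intro m hm
      exact hP m (Multiset.mem_of_le (Multiset.sub_le_self _ _) hm)

end Pool.Agent.VMT
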