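import Pool.Agent.Lib.VMT.Graph1
import Pool.Agent.Lib.VMT.Small

/-!
# VMT.Graph2 : from lists of labels to labelings of a union of cycles
-/

set_option autoImplicit false

namespace Pool.Agent.VMT

open Finset

/-- the rotation of every cycle -/
def rot {ι : Type*} (n : ι → ℕ) : Equiv.Perm (Σ i, Fin (n i)) :=
  Equiv.sigmaCongrRight fun i => finRotate (n i)

theorem rot_apply {ι : Type*} (n : ι → ℕ) (i : ι) (a : Fin (n i)) :
    rot n ⟨i, a⟩ = ⟨i, finRotate (n i) a⟩ := rfl

theorem val_finRotate {m : ℕ} (a : Fin m) :
    ((finRotate m a : Fin m) : ℕ) = if (a : ℕ) + 1 = m then 0 else (a : ℕ) + 1 := by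
  cases m with
  | zero => exact a.elim0
  | succ m =>
    by_cases h : (a : ℕ) + 1 = m + 1
    · rw [if_pos h]
      have : a = Fin.last m := by
        apply Fin.ext
        rw [Fin.val_last]
        omega
      rw [this, finRotate_last]
      rfl
    · rw [if_neg h]
      apply coe_finRotate_of_ne_last
      intro h2
      apply h
      rw [h2, Fin.val_last]

theorem rot_rot_ne {ι : Type*} (n : ι → ℕ) (hn : ∀ i, 3 ≤ n i) (x : Σ i, Fin (n i)) :
    rot n (rot n x) ≠ x := by
  obtain ⟨i, a⟩ := x
  rw [rot_apply, rot_apply]
  intro h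
  have h1 : finRotate (n i) (finRotate (n i) a) = a := by
    rw [Sigma.mk.injEq] at h
    exact eq_of_heq h.2
  have h2 := congrArg Fin.val h1
  rw [val_finRotate, val_finRotate] at h2
  have h3 := hn i
  have h4 := a.2
  split_ifs at h2 <;> omega

/-! ## Lists -/

theorem getElem_ps {A : Type*} [AddCommGroup A] (k : A) (l : List A) (j : ℕ)
    (h : j < (ps k l).length) (h1 : j < l.length) (h2 : j + 1 < l.length) :
    (ps k l)[j] = k - l[j] - l[j + 1] := by
  induction l generalizing j with
  | nil => simp at h1
  | cons a l ih =>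
    cases l with
    | nil => simp at h2
    | cons b l =>
      cases j with
      | zero => rfl
      | succ j =>
        simp only [ps_cons_cons, List.getElem_cons_succ]
        rw [ih j (by simpa [ps_cons_cons] using h) (by simpa using h1) (by simpa using h2)]
        rfl

theorem vs_eq_ofFn {A : Type*} [AddCommGroup A] (k : A) (l : List A) (m : ℕ)
    (hm : l.length = m) :
    vs k l = List.ofFn (fun a : Fin m =>
      k - l.getD (a : ℕ) 0 - l.getD ((finRotate m a : Fin m) : ℕ) 0) := by
  subst hm
  apply List.ext_getElem
  · rw [length_vs, List.length_ofFn]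
  · intro j h1 h2
    rw [List.getElem_ofFn]
    cases l with
    | nil => simp [vs] at h1
    | cons a l =>
      have hj : j < (a :: l).length := by rwa [length_vs] at h1
      have h1' : j < (ps k ((a :: l) ++ [a])).length := h1
      have hj1 : j < ((a :: l) ++ [a]).length := by
        rw [List.length_append]
        omega
      have hj2 : j + 1 < ((a :: l) ++ [a]).length := by
        rw [List.length_append, List.length_singleton]
        omega
      have e0 : (vs k (a :: l))[j]'h1 = (ps k ((a :: l) ++ [a]))[j]'h1' := rfl
      rw [e0, getElem_ps k _ j h1' hj1 hj2, val_finRotate]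
      rw [List.getElem_append_left hj]
      have e1 : (a :: l).getD j 0 = (a :: l)[j] := by
        rw [List.getD_eq_getElem _ _ hj]
      rw [e1]
      congr 1
      by_cases h3 : j + 1 = (a :: l).length
      · rw [if_pos h3, List.getElem_append_right (by omega)]
        simp [h3]
      · rw [if_neg h3]
        have h4 : j + 1 < (a :: l).length := by omega
        rw [List.getElem_append_left h4, List.getD_eq_getElem _ _ h4]

theorem coe_eq_univ {A : Type*} [Zero A] (l : List A) (m : ℕ) (hm : l.length = m) :
    (l : Multiset A) = (univ : Finset (Fin m)).val.map (fun a : Fin m => l.getD (a : ℕ) 0) := by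
  rw [Fin.univ_val_map]
  congr 1
  subst hm
  apply List.ext_getElem
  · rw [List.length_ofFn]
  · intro j h1 h2
    rw [List.getElem_ofFn, List.getD_eq_getElem _ _ h1]

theorem coe_vs_eq_univ {A : Type*} [AddCommGroup A] (k : A) (l : List A) (m : ℕ)
    (hm : l.length = m) :
    (vs k l : Multiset A) = (univ : Finset (Fin m)).val.map (fun a : Fin m =>
      k - l.getD (a : ℕ) 0 - l.getD ((finRotate m a : Fin m) : ℕ) 0) := by
  rw [Fin.univ_val_map, vs_eq_ofFn k l m hm]

theorem tot_eq_sum {A : Type*} [AddCommGroup A] (k : A) (cs : List (List A)) :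
    tot k cs = ((cs : Multiset (List A)).map
      (fun c : List A => (c : Multiset A) + (vs k c : Multiset A))).sum := by
  induction cs with
  | nil => rfl
  | cons c cs ih =>
    rw [tot_cons, ih, ← Multiset.cons_coe, Multiset.map_cons, Multiset.sum_cons]

/-- choosing the cycles in the order of the indices -/
theorem exists_choice {ι B : Type*} [DecidableEq ι] (f : B → ℕ) (n : ι → ℕ) [Nonempty B]
    (t : Finset ι) : ∀ s : Multiset B, s.map f = t.val.map n →
    ∃ g : ι → B, t.val.map g = s ∧ ∀ i ∈ t, f (g i) = n i := by
  induction t using Finset.induction_on with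
  | empty =>
    intro s hs
    have : s = 0 := by
      have := congrArg Multiset.card hs
      simpa using this
    refine ⟨fun _ => Classical.arbitrary B, ?_, fun i hi => absurd hi (Finset.notMem_empty i)⟩
    rw [this]
    rfl
  | insert a t ha ih =>
    intro s hs
    rw [Finset.insert_val_of_notMem ha, Multiset.map_cons] at hs
    have h1 : n a ∈ s.map f := by
      rw [hs]
      exact Multiset.mem_cons_self _ _
    obtain ⟨b, hb, hfb⟩ := Multiset.mem_map.mp h1
    obtain ⟨s', rfl⟩ := Multiset.exists_cons_of_mem hb
    rw [Multiset.map_cons, hfb] at hs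
    have hs' := (Multiset.cons_inj_right _).mp hs
    obtain ⟨g, hg1, hg2⟩ := ih s' hs'
    refine ⟨Function.update g a b, ?_, ?_⟩
    · rw [Finset.insert_val_of_notMem ha, Multiset.map_cons, Function.update_self]
      congr 1
      rw [← hg1]
      apply Multiset.map_congr rfl
      intro i hi
      rw [Function.update_of_ne]
      intro h
      rw [h] at hi
      exact ha hi
    · intro i hi
      by_cases h : i = a
      · rw [h, Function.update_self, hfb]
      · rw [Function.update_of_ne h]
        exact hg2 i (Finset.mem_of_mem_insert_of_ne hi h)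

theorem map_eq_sum {A B : Type*} (t : Finset A) (F : A → B) :
    t.val.map F = ∑ x ∈ t, ({F x} : Multiset B) := by
  rw [Finset.sum, ← Multiset.sum_map_singleton (t.val.map F), Multiset.map_map]
  rfl

theorem map_sigma {ι B : Type*} [Fintype ι] (n : ι → ℕ) (F : (Σ i, Fin (n i)) → B) :
    (univ : Finset (Σ i, Fin (n i))).val.map F =
      ∑ i, (univ : Finset (Fin (n i))).val.map (fun a => F ⟨i, a⟩) := by
  rw [map_eq_sum, Fintype.sum_sigma]
  apply Finset.sum_congr rfl
  intro i _
  rw [map_eq_sum]

theorem num_of_vm {ι : Type*} [Fintype ι] [DecidableEq ι] (n : ι → ℕ)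
    (h : Vm ((univ : Finset ι).val.map n)) : Num (rot n) := by
  obtain ⟨k, cs, htot, hlens⟩ := h
  obtain ⟨g, hg1, hg2⟩ := exists_choice List.length n univ (cs : Multiset (List ℤ)) (by
    rw [← hlens, lens, Multiset.map_coe])
  have hcard : Fintype.card (Σ i, Fin (n i)) = ((univ : Finset ι).val.map n).sum := by
    rw [Fintype.card_sigma]
    simp only [Fintype.card_fin]
    rfl
  refine ⟨k, fun x => (g x.1).getD (x.2 : ℕ) 0, ?_⟩
  rw [map_sigma, map_sigma, ← Finset.sum_add_distrib, hcard, ← htot, tot_eq_sum, ← hg1,
    Multiset.map_map]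
  apply Finset.sum_congr rfl
  intro i _
  simp only [Function.comp]
  rw [coe_eq_univ (g i) (n i) (hg2 i (Finset.mem_univ i)),
    coe_vs_eq_univ k (g i) (n i) (hg2 i (Finset.mem_univ i))]
  rfl

/-- the numerical form is invariant under conjugation -/
theorem Num.conj {A B : Type*} [Fintype A] [Fintype B] [DecidableEq A] [DecidableEq B]
    {τ : Equiv.Perm A} (h : Num τ) (e : A ≃ B) : Num ((e.symm.trans τ).trans e) := by
  obtain ⟨k, L, hL⟩ := h
  refine ⟨k, fun x => L (e.symm x), ?_⟩
  rw [← Fintype.card_congr e, ← hL, ← map_val_equiv e (fun x => L (e.symm x)),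
    ← map_val_equiv e (fun x => k - L (e.symm x) -
      L (e.symm (((e.symm.trans τ).trans e) x)))]
  simp only [Equiv.trans_apply, Equiv.symm_apply_apply]

end Pool.Agent.VMT
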