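import Pool.Agent.Lib.VMT.Small

/-!
# VMT.Neg : two triangles have no labeling (MP_4cc966_co)
-/

set_option autoImplicit false

namespace Pool.Agent.VMT

def allLt : ℕ → (ℕ → Bool) → Bool
  | 0, _ => true
  | n + 1, p => p n && allLt n p

theorem allLt_spec {n : ℕ} {p : ℕ → Bool} (h : allLt n p = true) {i : ℕ} (hi : i < n) :
    p i = true := by
  induction n with
  | zero => omega
  | succ n ih =>
    rw [allLt, Bool.and_eq_true] at h
    rcases Nat.lt_succ_iff_lt_or_eq.mp hi with h1 | h1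
    · exact ih h.2 h1
    · rw [h1]
      exact h.1

/-- the edge labels `a b c` and `d e f` of two triangles do not work -/
def bad2 (a b c d e f m : ℕ) : Bool :=
  bif Nat.beq (Nat.mod m 6) 0 then
    !(Nat.beq (gen [a, b, c, Nat.sub (a + Nat.div m 6) (a + b + c),
      Nat.sub (b + Nat.div m 6) (a + b + c), Nat.sub (c + Nat.div m 6) (a + b + c),
      d, e, f, Nat.sub (d + Nat.div m 6) (d + e + f),
      Nat.sub (e + Nat.div m 6) (d + e + f), Nat.sub (f + Nat.div m 6) (d + e + f)])
      (gen [1, 2, 3, 4, 5, 6, 7, 8, 9, 10, 11, 12]))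
  else true

theorem bad_all :
    (allLt 13 fun c => allLt c fun b => allLt b fun a =>
      allLt 13 fun f => allLt f fun e => allLt e fun d =>
        bad2 a b c d e f (a + b + c + (d + e + f) + 78)) = true := by
  decide +kernel

theorem gen_perm {l m : List ℕ} (h : l.Perm m) : gen l = gen m := by
  induction h with
  | nil => rfl
  | cons x _ ih => rw [gen_cons, gen_cons, ih]
  | swap x y l =>
    rw [gen_cons, gen_cons, gen_cons, gen_cons]
    omega
  | trans _ _ ih1 ih2 => rw [ih1, ih2]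

theorem gen_coe {l m : List ℕ} (h : (l : Multiset ℕ) = m) : gen l = gen m :=
  gen_perm (Multiset.coe_eq_coe.mp h)

theorem sort3 {A : Multiset ℕ} (h3 : Multiset.card A = 3) (hn : A.Nodup) :
    ∃ a b c : ℕ, a < b ∧ b < c ∧ A = (([a, b, c] : List ℕ) : Multiset ℕ) := by
  have h1 : ((A.sort (· ≤ ·) : List ℕ) : Multiset ℕ) = A := Multiset.sort_eq A _
  have h2 := Multiset.pairwise_sort A (· ≤ ·)
  have h4 : (A.sort (· ≤ ·)).length = 3 := by rw [Multiset.length_sort, h3]
  obtain ⟨a, b, c, h5⟩ := List.length_eq_three.mp h4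
  rw [h5] at h1 h2
  have hn' : ([a, b, c] : List ℕ).Nodup := by
    rw [← h1] at hn
    exact Multiset.coe_nodup.mp hn
  simp only [List.nodup_cons, List.mem_cons, List.not_mem_nil, or_false, not_or,
    List.nodup_nil] at hn'
  simp only [List.pairwise_cons, List.mem_cons, List.not_mem_nil, or_false] at h2
  refine ⟨a, b, c, ?_, ?_, h1.symm⟩
  · exact lt_of_le_of_ne (h2.1 b (Or.inl rfl)) hn'.1.1
  · exact lt_of_le_of_ne (h2.2.1 c rfl) hn'.2.1

/-- the natural number version -/
theorem no_nat {A B : Multiset ℕ} {k : ℕ} (hA : Multiset.card A = 3)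
    (hB : Multiset.card B = 3)
    (h : A + A.map (fun x => x + k - A.sum) + (B + B.map (fun x => x + k - B.sum)) =
      (([1, 2, 3, 4, 5, 6, 7, 8, 9, 10, 11, 12] : List ℕ) : Multiset ℕ))
    (hk : 6 * k = A.sum + B.sum + 78) : False := by
  have hnd : (([1, 2, 3, 4, 5, 6, 7, 8, 9, 10, 11, 12] : List ℕ) : Multiset ℕ).Nodup := by
    decide
  have hmem : ∀ x ∈ (([1, 2, 3, 4, 5, 6, 7, 8, 9, 10, 11, 12] : List ℕ) : Multiset ℕ),
      x < 13 := by decide
  rw [← h] at hnd hmem
  have hndA : A.Nodup := Multiset.nodup_of_le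
    ((Multiset.le_add_right _ _).trans (Multiset.le_add_right _ _)) hnd
  have hndB : B.Nodup := Multiset.nodup_of_le
    ((Multiset.le_add_right _ _).trans (Multiset.le_add_left _ _)) hnd
  obtain ⟨a, b, c, hab, hbc, rfl⟩ := sort3 hA hndA
  obtain ⟨d, e, f, hde, hef, rfl⟩ := sort3 hB hndB
  have hc : c < 13 := hmem c (by simp)
  have hf : f < 13 := hmem f (by simp)
  have key := allLt_spec (allLt_spec (allLt_spec (allLt_spec (allLt_spec (allLt_spec bad_all
    hc) hbc) hab) hf) hef) hde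
  have s1 : (([a, b, c] : List ℕ) : Multiset ℕ).sum = a + b + c := by
    simp
    ring
  have s2 : (([d, e, f] : List ℕ) : Multiset ℕ).sum = d + e + f := by
    simp
    ring
  rw [s1, s2] at h hk
  rw [← hk] at key
  have m6 : Nat.mod (6 * k) 6 = 0 := by
    have : 6 * k % 6 = 0 := by omega
    exact this
  have d6 : Nat.div (6 * k) 6 = k := by
    have : 6 * k / 6 = k := by omega
    exact this
  rw [bad2, m6, d6] at key
  have h2 := gen_coe (l := [a, b, c, a + k - (a + b + c), b + k - (a + b + c),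
    c + k - (a + b + c), d, e, f, d + k - (d + e + f), e + k - (d + e + f),
    f + k - (d + e + f)]) (m := [1, 2, 3, 4, 5, 6, 7, 8, 9, 10, 11, 12]) h
  have h3 : Nat.beq (gen [a, b, c, Nat.sub (a + k) (a + b + c),
      Nat.sub (b + k) (a + b + c), Nat.sub (c + k) (a + b + c),
      d, e, f, Nat.sub (d + k) (d + e + f),
      Nat.sub (e + k) (d + e + f), Nat.sub (f + k) (d + e + f)])
      (gen [1, 2, 3, 4, 5, 6, 7, 8, 9, 10, 11, 12]) = true := by
    rw [Nat.beq_eq]
    exact h2
  rw [h3] at key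
  exact absurd key (by decide)

theorem not_vm33 : ¬ Vm {3, 3} := by
  rintro ⟨k, cs, htot, hlens⟩
  have hl2 : cs.length = 2 := by
    have := congrArg Multiset.card hlens
    rw [lens, Multiset.coe_card, List.length_map] at this
    exact this
  have hl3 : ∀ c ∈ cs, c.length = 3 := by
    intro c hc
    have : c.length ∈ lens cs := by
      rw [lens, Multiset.mem_coe]
      exact List.mem_map_of_mem hc
    rw [hlens] at this
    simpa using this
  obtain ⟨c1, c2, rfl⟩ := List.length_eq_two.mp hl2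
  obtain ⟨a, b, c, rfl⟩ := List.length_eq_three.mp (hl3 c1 (by simp))
  obtain ⟨d, e, f, rfl⟩ := List.length_eq_three.mp (hl3 c2 (by simp))
  have hs : (2 * ({3, 3} : Multiset ℕ).sum) = 12 := rfl
  rw [hs] at htot
  have hv : ∀ x y z : ℤ, vs k [x, y, z] = [k - x - y, k - y - z, k - z - x] := fun x y z => rfl
  rw [tot_cons, tot_cons, tot_nil, add_zero, hv, hv] at htot
  have h12 : (Multiset.range 12).map (fun i : ℕ => (i : ℤ) + 1) =
      (([1, 2, 3, 4, 5, 6, 7, 8, 9, 10, 11, 12] : List ℕ) : Multiset ℕ).map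
        (fun i : ℕ => (i : ℤ)) := by
    decide
  have hpos : ∀ x ∈ (Multiset.range 12).map (fun i : ℕ => (i : ℤ) + 1), 1 ≤ x := by decide
  have hsum := congrArg Multiset.sum htot
  have hs2 : ((Multiset.range 12).map (fun i : ℕ => (i : ℤ) + 1)).sum = 78 := by decide
  rw [hs2] at hsum
  simp only [Multiset.sum_add, Multiset.sum_coe, List.sum_cons, List.sum_nil] at hsum
  rw [← htot] at hpos
  have pa := hpos a (by simp)
  have pb := hpos b (by simp)
  have pc := hpos c (by simp)
  have pd := hpos d (by simp)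
  have pe := hpos e (by simp)
  have pf := hpos f (by simp)
  have q1 := hpos (k - a - b) (by simp)
  have q2 := hpos (k - b - c) (by simp)
  have q3 := hpos (k - c - a) (by simp)
  have q4 := hpos (k - d - e) (by simp)
  have q5 := hpos (k - e - f) (by simp)
  have q6 := hpos (k - f - d) (by simp)
  obtain ⟨a, rfl⟩ := Int.eq_ofNat_of_zero_le (show 0 ≤ a by omega)
  obtain ⟨b, rfl⟩ := Int.eq_ofNat_of_zero_le (show 0 ≤ b by omega)
  obtain ⟨c, rfl⟩ := Int.eq_ofNat_of_zero_le (show 0 ≤ c by omega)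
  obtain ⟨d, rfl⟩ := Int.eq_ofNat_of_zero_le (show 0 ≤ d by omega)
  obtain ⟨e, rfl⟩ := Int.eq_ofNat_of_zero_le (show 0 ≤ e by omega)
  obtain ⟨f, rfl⟩ := Int.eq_ofNat_of_zero_le (show 0 ≤ f by omega)
  obtain ⟨k, rfl⟩ := Int.eq_ofNat_of_zero_le (show 0 ≤ k by omega)
  have s1 : (([b, c, a] : List ℕ) : Multiset ℕ).sum = a + b + c := by
    simp
    ring
  have s2 : (([e, f, d] : List ℕ) : Multiset ℕ).sum = d + e + f := by
    simp
    ring
  refine no_nat (A := (([b, c, a] : List ℕ) : Multiset ℕ)) (B := (([e, f, d] : List ℕ) :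
    Multiset ℕ)) (k := k) rfl rfl ?_ ?_
  · apply Multiset.map_injective (f := fun i : ℕ => (i : ℤ)) (fun x y h => by simpa using h)
    rw [← h12, ← htot, s1, s2]
    simp only [Multiset.map_add, Multiset.map_coe, List.map_cons, List.map_nil]
    have e1 : ((c + k - (a + b + c) : ℕ) : ℤ) = (k : ℤ) - a - b := by omega
    have e2 : ((a + k - (a + b + c) : ℕ) : ℤ) = (k : ℤ) - b - c := by omega
    have e3 : ((b + k - (a + b + c) : ℕ) : ℤ) = (k : ℤ) - c - a := by omega
    have e4 : ((f + k - (d + e + f) : ℕ) : ℤ) = (k : ℤ) - d - e := by omega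
    have e5 : ((d + k - (d + e + f) : ℕ) : ℤ) = (k : ℤ) - e - f := by omega
    have e6 : ((e + k - (d + e + f) : ℕ) : ℤ) = (k : ℤ) - f - d := by omega
    rw [e1, e2, e3, e4, e5, e6]
    have r : ∀ x y z : ℤ, (([x, y, z] : List ℤ) : Multiset ℤ) =
        (([y, z, x] : List ℤ) : Multiset ℤ) := by
      intro x y z
      apply Multiset.coe_eq_coe.mpr
      exact (List.perm_middle (l₁ := [y, z]) (l₂ := [])).symm
    rw [r (a : ℤ) b c, r (d : ℤ) e f, r ((k : ℤ) - a - b) _ _, r ((k : ℤ) - b - c) _ _,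
      r ((k : ℤ) - d - e) _ _, r ((k : ℤ) - e - f) _ _]
  · rw [s1, s2]
    omega

end Pool.Agent.VMT
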