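import Pool.Agent.Lib.VMT.Graph2
import Pool.Agent.Lib.VMT.Neg

/-!
# VMT.Graph3 : two-regular graphs
-/

set_option autoImplicit false

namespace Pool.Agent.VMT

open Finset

section

variable {V : Type*} [Fintype V] [DecidableEq V] (G : SimpleGraph V) [DecidableRel G.Adj]

omit [DecidableEq V] in
theorem exists_cycles (hG : G.IsRegularOfDegree 2) :
    ∃ (n : G.ConnectedComponent → ℕ) (φ : (Σ c, Fin (n c)) ≃ V), (∀ c, 3 ≤ n c) ∧
      ∀ x, G.Adj (φ x) (φ (rot n x)) := by
  have hcard : ∀ v, (G.neighborSet v).ncard = 2 := by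
    intro v
    rw [Set.ncard_eq_toFinset_card', ← SimpleGraph.neighborFinset_def,
      SimpleGraph.card_neighborFinset_eq_degree]
    exact hG v
  have hcyc : G.IsCycles := fun v _ => hcard v
  have hnon : ∀ v, (G.neighborSet v).Nonempty := fun v =>
    Set.nonempty_of_ncard_ne_zero (by rw [hcard v]; norm_num)
  choose v hv using fun c : G.ConnectedComponent => c.nonempty_supp
  choose p hp using fun c : G.ConnectedComponent =>
    hcyc.exists_cycle_toSubgraph_verts_eq_connectedComponentSupp (hv c) (hnon (v c))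
  have hmem : ∀ (c : G.ConnectedComponent) (i : ℕ), (p c).getVert i ∈ c.supp := by
    intro c i
    rw [← (hp c).2, SimpleGraph.Walk.mem_verts_toSubgraph]
    exact (p c).getVert_mem_support i
  have hbij : Function.Bijective
      (fun x : (Σ c : G.ConnectedComponent, Fin (p c).length) => (p x.1).getVert (x.2 : ℕ)) := by
    constructor
    · rintro ⟨c, a⟩ ⟨d, b⟩ h
      have h' : (p c).getVert (a : ℕ) = (p d).getVert (b : ℕ) := h
      have h1 := hmem c a
      have h2 := hmem d b
      rw [← h', SimpleGraph.ConnectedComponent.mem_supp_iff] at h2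
      rw [SimpleGraph.ConnectedComponent.mem_supp_iff] at h1
      have hcd : c = d := h1.symm.trans h2
      subst hcd
      have h3 := (hp c).1.getVert_injOn' (x₁ := (a : ℕ)) (x₂ := (b : ℕ))
        (by
          rw [Set.mem_ofPred_eq]
          have := a.2
          omega)
        (by
          rw [Set.mem_ofPred_eq]
          have := b.2
          omega) h'
      rw [Fin.ext h3]
    · intro x
      have hx : x ∈ (G.connectedComponentMk x).supp := by
        rw [SimpleGraph.ConnectedComponent.mem_supp_iff]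
      rw [← (hp _).2, SimpleGraph.Walk.mem_verts_toSubgraph,
        SimpleGraph.Walk.mem_support_iff_exists_getVert] at hx
      obtain ⟨i, hi, hle⟩ := hx
      have h3 := (hp (G.connectedComponentMk x)).1.three_le_length
      rcases Nat.lt_or_ge i (p (G.connectedComponentMk x)).length with h | h
      · exact ⟨⟨_, ⟨i, h⟩⟩, hi⟩
      · have hil : i = (p (G.connectedComponentMk x)).length := le_antisymm hle h
        refine ⟨⟨G.connectedComponentMk x, ⟨0, by omega⟩⟩, ?_⟩
        show (p (G.connectedComponentMk x)).getVert 0 = x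
        have h4 := (p (G.connectedComponentMk x)).getVert_zero
        have h5 := (p (G.connectedComponentMk x)).getVert_length
        rw [← hil] at h5
        exact h4.trans (h5.symm.trans hi)
  refine ⟨fun c => (p c).length, Equiv.ofBijective _ hbij, fun c => (hp c).1.three_le_length, ?_⟩
  rintro ⟨c, a⟩
  rw [rot_apply]
  show G.Adj ((p c).getVert (a : ℕ)) ((p c).getVert ((finRotate _ a : Fin _) : ℕ))
  have h1 := (p c).adj_getVert_succ a.2
  rw [val_finRotate]
  by_cases h : (a : ℕ) + 1 = (p c).length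
  · rw [if_pos h]
    rw [h, SimpleGraph.Walk.getVert_length] at h1
    rwa [SimpleGraph.Walk.getVert_zero]
  · rw [if_neg h]
    exact h1

theorem adj_iff_of_perm (hG : G.IsRegularOfDegree 2) (σ : Equiv.Perm V)
    (hadj : ∀ x, G.Adj x (σ x)) (hne : ∀ x, σ (σ x) ≠ x) (x y : V) :
    G.Adj x y ↔ (σ x = y ∨ σ y = x) := by
  have hs : G.Adj x (σ.symm x) := by
    have := (hadj (σ.symm x)).symm
    rwa [σ.apply_symm_apply] at this
  have hab : σ x ≠ σ.symm x := by
    intro h1
    apply hne x
    rw [h1, σ.apply_symm_apply]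
  have hfin : ({σ x, σ.symm x} : Finset V) = G.neighborFinset x := by
    apply Finset.eq_of_subset_of_card_le
    · intro z hz
      rw [SimpleGraph.mem_neighborFinset]
      rw [Finset.mem_insert, Finset.mem_singleton] at hz
      rcases hz with rfl | rfl
      · exact hadj x
      · exact hs
    · rw [Finset.card_pair hab, SimpleGraph.card_neighborFinset_eq_degree]
      exact le_of_eq (hG x)
  constructor
  · intro h
    rw [← SimpleGraph.mem_neighborFinset, ← hfin, Finset.mem_insert, Finset.mem_singleton] at h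
    rcases h with h | h
    · exact Or.inl h.symm
    · right
      rw [h, σ.apply_symm_apply]
  · rintro (h | h)
    · rw [← h]
      exact hadj x
    · rw [← h]
      exact (hadj y).symm

end

theorem twoK3_adj (x y : Fin 3 ⊕ Fin 3) : twoK3.Adj x y ↔
    (Equiv.sumCongr (finRotate 3) (finRotate 3) x = y ∨
      Equiv.sumCongr (finRotate 3) (finRotate 3) y = x) := by
  unfold twoK3
  rcases x with x | x <;> rcases y with y | y
  · rw [SimpleGraph.sum_adj_inl, SimpleGraph.top_adj]
    simp only [Equiv.sumCongr_apply, Sum.map_inl, Sum.inl.injEq]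
    fin_cases x <;> fin_cases y <;> decide
  · simp
  · simp
  · rw [SimpleGraph.sum_adj_inr, SimpleGraph.top_adj]
    simp only [Equiv.sumCongr_apply, Sum.map_inr, Sum.inr.injEq]
    fin_cases x <;> fin_cases y <;> decide

theorem not_num_two : ¬ Num (Equiv.sumCongr (finRotate 3) (finRotate 3)) := by
  rintro ⟨k, L, hL⟩
  apply not_vm33
  refine ⟨k, [[L (Sum.inl 0), L (Sum.inl 1), L (Sum.inl 2)],
    [L (Sum.inr 0), L (Sum.inr 1), L (Sum.inr 2)]], ?_, rfl⟩
  have hv : ∀ x y z : ℤ, vs k [x, y, z] = [k - x - y, k - y - z, k - z - x] := fun x y z => rfl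
  have h12 : (2 * ({3, 3} : Multiset ℕ).sum) = 2 * Fintype.card (Fin 3 ⊕ Fin 3) := rfl
  rw [h12, ← hL, tot_cons, tot_cons, tot_nil, add_zero, hv, hv, map_val_sum, map_val_sum,
    Fin.univ_val_map, Fin.univ_val_map, Fin.univ_val_map, Fin.univ_val_map]
  simp only [List.ofFn_succ, List.ofFn_zero, Equiv.sumCongr_apply, Sum.map_inl, Sum.map_inr]
  have r0 : finRotate 3 0 = 1 := by decide
  have r1 : finRotate 3 1 = 2 := by decide
  have r2 : finRotate 3 2 = 0 := by decide
  have f1 : (Fin.succ 0 : Fin 3) = 1 := rfl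
  have f2 : (Fin.succ (Fin.succ 0) : Fin 3) = 2 := rfl
  have f3 : (Fin.succ (Fin.succ 0 : Fin 2) : Fin 3) = 2 := rfl
  simp only [f1, r0, r1, r2, f2]
  abel

section

variable {V : Type*} [Fintype V] [DecidableEq V] (G : SimpleGraph V) [DecidableRel G.Adj]

theorem main_neg (e : G ≃g twoK3) : ¬ HasVMTL G := by
  intro h
  set τ := Equiv.sumCongr (finRotate 3) (finRotate 3) with hτ
  set σ : Equiv.Perm V := (e.toEquiv.trans τ).trans e.toEquiv.symm with hσ
  have hσa : ∀ x, σ x = e.symm (τ (e x)) := fun x => rfl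
  have h1 : ∀ x y, G.Adj x y ↔ (σ x = y ∨ σ y = x) := by
    intro x y
    rw [← e.map_adj_iff, twoK3_adj, ← hτ, hσa, hσa]
    constructor
    · rintro (h | h)
      · left
        rw [h]
        exact e.symm_apply_apply y
      · right
        rw [h]
        exact e.symm_apply_apply x
    · rintro (h | h)
      · left
        rw [← h]
        exact (e.apply_symm_apply _).symm
      · right
        rw [← h]
        exact (e.apply_symm_apply _).symm
  have hττ : ∀ z, τ (τ z) ≠ z := by
    rw [hτ]
    decide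
  have h2 : ∀ x, σ (σ x) ≠ x := by
    intro x hx
    rw [hσa, hσa] at hx
    have h3 : e (e.symm (τ (e x))) = τ (e x) := e.apply_symm_apply _
    rw [h3] at hx
    have h4 := congrArg e hx
    have h5 : e (e.symm (τ (τ (e x)))) = τ (τ (e x)) := e.apply_symm_apply _
    rw [h5] at h4
    exact hττ _ h4
  have h3 := (hasVMTL_iff h1 h2).mp h
  have h4 := h3.conj e.toEquiv
  apply not_num_two
  have h5 : (e.toEquiv.symm.trans σ).trans e.toEquiv = τ := by
    ext z
    simp [hσ]
  rw [h5] at h4
  exact h4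

omit [Fintype V] [DecidableEq V] [DecidableRel G.Adj] in
theorem iso_of_33 {ι : Type*} [Fintype ι] [DecidableEq ι] (n : ι → ℕ)
    (φ : (Σ i, Fin (n i)) ≃ V)
    (hadj : ∀ x y, G.Adj (φ x) (φ y) ↔ (rot n x = y ∨ rot n y = x))
    (h : (univ : Finset ι).val.map n = {3, 3}) : Nonempty (G ≃g twoK3) := by
  have hn : ∀ i, n i = 3 := by
    intro i
    have : n i ∈ (univ : Finset ι).val.map n := Multiset.mem_map_of_mem n (Finset.mem_univ i)
    rw [h] at this
    simpa using this
  have hcard : Fintype.card ι = Fintype.card Bool := by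
    have := congrArg Multiset.card h
    rw [Multiset.card_map] at this
    exact this
  obtain rfl : n = fun _ => 3 := funext hn
  have e0 : ι ≃ Bool := Fintype.equivOfCardEq hcard
  let e1 : (Σ _ : ι, Fin 3) ≃ Fin 3 ⊕ Fin 3 :=
    (Equiv.sigmaEquivProd ι (Fin 3)).trans
      ((Equiv.prodCongr e0 (Equiv.refl (Fin 3))).trans (Equiv.boolProdEquivSum (Fin 3)))
  have he1 : ∀ (i : ι) (a : Fin 3), e1 ⟨i, a⟩ =
      (bif e0 i then Sum.inr a else Sum.inl a) := by
    intro i a
    show Equiv.boolProdEquivSum (Fin 3) (e0 i, a) = _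
    cases e0 i <;> rfl
  refine ⟨⟨φ.symm.trans e1, ?_⟩⟩
  intro x y
  obtain ⟨⟨i, a⟩, rfl⟩ := φ.surjective x
  obtain ⟨⟨j, b⟩, rfl⟩ := φ.surjective y
  simp only [Equiv.trans_apply, Equiv.symm_apply_apply]
  rw [hadj, twoK3_adj, rot_apply, rot_apply, he1, he1]
  have hinj : e0 i = e0 j ↔ i = j := e0.injective.eq_iff
  have hs : ∀ (i j : ι) (a b : Fin 3), ((⟨i, a⟩ : (Σ _ : ι, Fin 3)) = ⟨j, b⟩) ↔
      (i = j ∧ a = b) := by
    intro i j a b
    constructor
    · intro h
      rw [Sigma.mk.injEq] at h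
      exact ⟨h.1, eq_of_heq h.2⟩
    · rintro ⟨rfl, rfl⟩
      rfl
  rw [hs, hs]
  by_cases hij : i = j
  · subst hij
    cases e0 i <;> simp
  · have hij' : e0 i ≠ e0 j := fun h => hij (hinj.mp h)
    have hji : j ≠ i := fun h => hij h.symm
    cases hi : e0 i <;> cases hj : e0 j <;> rw [hi, hj] at hij' <;>
      simp_all

theorem main_pos (hall : ∀ F : Multiset ℕ, Pt F → F ≠ {3, 3} → Vm F)
    (hG : G.IsRegularOfDegree 2) (hne : ¬ Nonempty (G ≃g twoK3)) : HasVMTL G := by
  classical
  obtain ⟨n, φ, h3, hadj⟩ := exists_cycles G hG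
  have : Fintype G.ConnectedComponent := Fintype.ofFinite _
  set σ : Equiv.Perm V := (φ.symm.trans (rot n)).trans φ with hσ
  have hσa : ∀ x, σ x = φ (rot n (φ.symm x)) := fun x => rfl
  have h1 : ∀ x, G.Adj x (σ x) := by
    intro x
    have := hadj (φ.symm x)
    rw [φ.apply_symm_apply] at this
    exact this
  have h2 : ∀ x, σ (σ x) ≠ x := by
    intro x hx
    rw [hσa, hσa, φ.symm_apply_apply] at hx
    have := congrArg φ.symm hx
    rw [φ.symm_apply_apply] at this
    exact rot_rot_ne n h3 _ this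
  have h4 := adj_iff_of_perm G hG σ h1 h2
  rw [hasVMTL_iff h4 h2]
  apply Num.conj
  apply num_of_vm
  apply hall
  · intro x hx
    rw [Multiset.mem_map] at hx
    obtain ⟨c, _, rfl⟩ := hx
    exact h3 c
  · intro h
    apply hne
    refine iso_of_33 G n φ ?_ h
    intro x y
    rw [h4, hσa, hσa, φ.symm_apply_apply, φ.symm_apply_apply, φ.apply_eq_iff_eq,
      φ.apply_eq_iff_eq]

theorem main (hall : ∀ F : Multiset ℕ, Pt F → F ≠ {3, 3} → Vm F)
    (hG : G.IsRegularOfDegree 2) : HasVMTL G ↔ ¬ Nonempty (G ≃g twoK3) :=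
  ⟨fun h ⟨e⟩ => main_neg G e h, main_pos G hall hG⟩

end

end Pool.Agent.VMT
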