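import Pool.Agent.Lib.VMT.Mark
import Pool.Agent.Lib.VMT.Gen

/-!
# VMT.Lib0 : checking blocks by computation (MP_4cc966_co)
-/

set_option autoImplicit false

namespace Pool.Agent.VMT

/-- the digits of a number in base `256` -/
def dg : ℕ → ℕ → List ℕ
  | 0, _ => []
  | f + 1, n => bif Nat.beq n 0 then [] else Nat.mod n 256 :: dg f (Nat.div n 256)

/-- an arithmetic progression with step `8` -/
def seg : ℕ → ℕ → List ℕ
  | 0, _ => []
  | r + 1, a => a :: seg r (Nat.add a 8)

theorem seg_coe (r a : ℕ) :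
    (seg r a : Multiset ℕ) = (Multiset.range r).map fun d : ℕ => 8 * d + a := by
  induction r generalizing a with
  | zero => rfl
  | succ r ih =>
    have e : (Multiset.range (r + 1)).map (fun d : ℕ => 8 * d + a) =
        a ::ₘ (Multiset.range r).map (fun d : ℕ => 8 * d + (a + 8)) := by
      rw [add_comm r 1, Multiset.range_add, Multiset.map_add, Multiset.map_map]
      have : (Multiset.range 1).map (fun d : ℕ => 8 * d + a) = {a} := by
        simp [Multiset.range_succ]
      rw [this]
      rw [← Multiset.singleton_add]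
      congr 1
      apply Multiset.map_congr rfl
      intro d _
      simp only [Function.comp]
      ring
    rw [e, ← ih]
    rfl

def LrL (r : ℕ) : List ℕ :=
  seg r 8 ++ (seg r 9 ++ (seg r 10 ++ (seg r 11 ++ seg (Nat.mul 2 r) 12)))

def SrL (r : ℕ) : List ℕ :=
  seg r 16 ++ (seg r 17 ++ (seg r 18 ++ (seg r 19 ++ seg (Nat.mul 2 r) 20)))

theorem LrL_coe (r : ℕ) : (LrL r : Multiset ℕ) = Lr r := by
  have e : ∀ i d : ℕ, 8 * (d + 1) + i = 8 * d + (8 + i) := fun i d => by ring
  simp only [LrL, Lr, ← Multiset.coe_add, seg_coe, e]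
  simp only [← add_assoc]
  rfl

theorem SrL_coe (r : ℕ) : (SrL r : Multiset ℕ) = Sr r := by
  have e : ∀ i d : ℕ, 8 * (d + 2) + i = 8 * d + (16 + i) := fun i d => by ring
  simp only [SrL, Sr, ← Multiset.coe_add, seg_coe, e]
  simp only [← add_assoc]
  rfl

/-- equality of lists of numbers -/
def leq : List ℕ → List ℕ → Bool
  | [], [] => true
  | a :: l, b :: m => Nat.beq a b && leq l m
  | _, _ => false

theorem eq_of_leq {l m : List ℕ} (h : leq l m = true) : l = m := by
  induction l generalizing m with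
  | nil =>
    cases m with
    | nil => rfl
    | cons b m => simp [leq] at h
  | cons a l ih =>
    cases m with
    | nil => simp [leq] at h
    | cons b m =>
      simp only [leq, Bool.and_eq_true] at h
      rw [Nat.eq_of_beq_eq_true h.1, ih h.2]

/-- a block with its certificate -/
structure Blk where
  ty : ℕ
  a : ℕ
  b : ℕ
  E : List ℕ
  r : ℕ
  rev : Bool
  c : List ℕ

/-- the block exists -/
structure Blk.Valid (B : Blk) : Prop where
  hC : B.ty = 0 → BC (B.E : Multiset ℕ)
  hP : B.ty = 1 → BP B.a (B.E : Multiset ℕ)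
  hS : B.ty = 2 → BS B.a B.b (B.E : Multiset ℕ)
  hO : B.ty = 3 → BO B.b (B.E : Multiset ℕ)

def hd (l : List ℕ) (x : ℕ) : Bool :=
  match l with
  | [] => false
  | a :: _ => Nat.beq a x

def lst : List ℕ → ℕ → Bool
  | [], _ => false
  | [a], x => Nat.beq a x
  | _ :: b :: l, x => lst (b :: l) x

theorem hd_spec {l : List ℕ} {x : ℕ} (h : hd l x = true) : l.head? = some x := by
  cases l with
  | nil => simp [hd] at h
  | cons a l =>
    simp only [hd] at h
    rw [Nat.eq_of_beq_eq_true h]
    rfl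

theorem lst_spec {l : List ℕ} {x : ℕ} (h : lst l x = true) : l.getLast? = some x := by
  induction l with
  | nil => simp [lst] at h
  | cons a l ih =>
    cases l with
    | nil =>
      simp only [lst] at h
      rw [Nat.eq_of_beq_eq_true h]
      rfl
    | cons b l =>
      simp only [lst] at h
      rw [List.getLast?_cons_cons]
      exact ih h

def chkC (r : ℕ) (E : List ℕ) (ex : List (List ℕ)) : Bool :=
  leq (ex.map List.length) E && (same ex.flatten (LrL r) && same (ex.map vz).flatten (SrL r))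

def chkP (r a : ℕ) (E : List ℕ) (rev : Bool) (u w : List ℕ) (ex : List (List ℕ)) : Bool :=
  leq (ex.map List.length) E && (Nat.beq (Nat.add u.length w.length) a &&
    (hd u (Nat.mul 8 r) && (lst w (Nat.add (Nat.mul 16 r) 4) &&
      (same (u ++ w ++ ex.flatten) (LrL r) &&
        same (vz (u ++ (bif rev then [4, 0] else [0, 4]) ++ w) ++ (ex.map vz).flatten)
          (3 :: 3 :: SrL r)))))

def chkS (r a b : ℕ) (E : List ℕ) (u w : List ℕ) (ex : List (List ℕ)) : Bool :=
  leq (ex.map List.length) E && (Nat.beq u.length a && (Nat.beq w.length b &&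
    (hd w (Nat.mul 8 r) && (lst w (Nat.add (Nat.mul 16 r) 4) &&
      (same (u ++ w ++ ex.flatten) (LrL r) &&
        same (vz (0 :: 4 :: u) ++ vz w ++ (ex.map vz).flatten) (3 :: 3 :: SrL r))))))

def chkO (r b : ℕ) (E : List ℕ) (w : List ℕ) (ex : List (List ℕ)) : Bool :=
  leq (ex.map List.length) E && (Nat.beq w.length b &&
    (hd w (Nat.mul 8 r) && (lst w (Nat.add (Nat.mul 16 r) 4) &&
      (same (w ++ ex.flatten) (LrL r) && same (vz w ++ (ex.map vz).flatten) (SrL r)))))

def chk1 (r a : ℕ) (E : List ℕ) (rev : Bool) : List (List ℕ) → Bool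
  | u :: w :: ex => chkP r a E rev u w ex
  | _ => false

def chk2 (r a b : ℕ) (E : List ℕ) : List (List ℕ) → Bool
  | u :: w :: ex => chkS r a b E u w ex
  | _ => false

def chk3 (r b : ℕ) (E : List ℕ) : List (List ℕ) → Bool
  | w :: ex => chkO r b E w ex
  | _ => false

def Blk.chk (B : Blk) : Bool :=
  bif Nat.beq B.ty 0 then chkC B.r B.E (B.c.map (dg 64))
  else bif Nat.beq B.ty 1 then chk1 B.r B.a B.E B.rev (B.c.map (dg 64))
  else bif Nat.beq B.ty 2 then chk2 B.r B.a B.b B.E (B.c.map (dg 64))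
  else bif Nat.beq B.ty 3 then chk3 B.r B.b B.E (B.c.map (dg 64))
  else true

theorem chkC_spec {r : ℕ} {E : List ℕ} {ex : List (List ℕ)} (h : chkC r E ex = true) :
    BC (E : Multiset ℕ) := by
  simp only [chkC, Bool.and_eq_true] at h
  obtain ⟨h1, h2, h3⟩ := h
  refine ⟨r, ex, ?_, ?_, ?_⟩
  · rw [coe_eq_of_same h2, LrL_coe]
  · rw [coe_eq_of_same h3, SrL_coe]
  · rw [lens, eq_of_leq h1]

theorem coe33 (r : ℕ) : ((3 :: 3 :: SrL r : List ℕ) : Multiset ℕ) = Sr r + {3, 3} := by
  rw [← Multiset.cons_coe, ← Multiset.cons_coe, SrL_coe, add_comm]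
  rfl

theorem chkP_spec {r a : ℕ} {E : List ℕ} {rev : Bool} {u w : List ℕ} {ex : List (List ℕ)}
    (h : chkP r a E rev u w ex = true) : BP a (E : Multiset ℕ) := by
  simp only [chkP, Bool.and_eq_true] at h
  obtain ⟨h1, h2, h3, h4, h5, h6⟩ := h
  refine ⟨r, u, w, ex, rev, ?_, ?_, hd_spec h3, lst_spec h4, Nat.eq_of_beq_eq_true h2, ?_⟩
  · rw [coe_eq_of_same h5, LrL_coe]
  · rw [coe_eq_of_same h6, coe33]
  · rw [lens, eq_of_leq h1]

theorem chkS_spec {r a b : ℕ} {E : List ℕ} {u w : List ℕ} {ex : List (List ℕ)}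
    (h : chkS r a b E u w ex = true) : BS a b (E : Multiset ℕ) := by
  simp only [chkS, Bool.and_eq_true] at h
  obtain ⟨h1, h2, h2', h3, h4, h5, h6⟩ := h
  refine ⟨r, u, w, ex, ?_, ?_, hd_spec h3, lst_spec h4, Nat.eq_of_beq_eq_true h2,
    Nat.eq_of_beq_eq_true h2', ?_⟩
  · rw [coe_eq_of_same h5, LrL_coe]
  · rw [coe_eq_of_same h6, coe33]
  · rw [lens, eq_of_leq h1]

theorem chkO_spec {r b : ℕ} {E : List ℕ} {w : List ℕ} {ex : List (List ℕ)}
    (h : chkO r b E w ex = true) : BO b (E : Multiset ℕ) := by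
  simp only [chkO, Bool.and_eq_true] at h
  obtain ⟨h1, h2', h3, h4, h5, h6⟩ := h
  refine ⟨r, w, ex, ?_, ?_, hd_spec h3, lst_spec h4, Nat.eq_of_beq_eq_true h2', ?_⟩
  · rw [coe_eq_of_same h5, LrL_coe]
  · rw [coe_eq_of_same h6, SrL_coe]
  · rw [lens, eq_of_leq h1]

theorem Blk.valid_of_chk {B : Blk} (h : B.chk = true) : B.Valid := by
  unfold Blk.chk at h
  refine ⟨fun e => ?_, fun e => ?_, fun e => ?_, fun e => ?_⟩
  · rw [e] at h
    exact chkC_spec h
  · rw [e] at h
    have h' : chk1 B.r B.a B.E B.rev (B.c.map (dg 64)) = true := h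
    unfold chk1 at h'
    split at h'
    · exact chkP_spec h'
    · exact absurd h' (by simp)
  · rw [e] at h
    have h' : chk2 B.r B.a B.b B.E (B.c.map (dg 64)) = true := h
    unfold chk2 at h'
    split at h'
    · exact chkS_spec h'
    · exact absurd h' (by simp)
  · rw [e] at h
    have h' : chk3 B.r B.b B.E (B.c.map (dg 64)) = true := h
    unfold chk3 at h'
    split at h'
    · exact chkO_spec h'
    · exact absurd h' (by simp)

/-- binary trees with data at the leaves -/
inductive BT (α : Type) : Type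
  | nil : BT α
  | leaf : α → BT α
  | node : BT α → BT α → BT α

def BT.get {α : Type} : BT α → ℕ → Option α
  | .nil, _ => none
  | .leaf a, _ => some a
  | .node l r, i => bif Nat.beq (Nat.mod i 2) 0 then l.get (Nat.div i 2) else r.get (Nat.div i 2)

def BT.all {α : Type} (p : α → Bool) : BT α → Bool
  | .nil => true
  | .leaf a => p a
  | .node l r => l.all p && r.all p

def BT.All {α : Type} (p : α → Prop) : BT α → Prop
  | .nil => True
  | .leaf a => p a
  | .node l r => l.All p ∧ r.All p

theorem BT.All_of_all {α : Type} {p : α → Bool} {q : α → Prop} (h : ∀ a, p a = true → q a)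
    {t : BT α} (ht : t.all p = true) : t.All q := by
  induction t with
  | nil => trivial
  | leaf a => exact h a ht
  | node l r ihl ihr =>
    simp only [BT.all, Bool.and_eq_true] at ht
    exact ⟨ihl ht.1, ihr ht.2⟩

theorem BT.All.node {α : Type} {p : α → Prop} {l r : BT α} (hl : l.All p) (hr : r.All p) :
    (BT.node l r).All p := ⟨hl, hr⟩

theorem BT.get_spec {α : Type} {p : α → Prop} {t : BT α} (ht : t.All p) {i : ℕ} {a : α}
    (h : t.get i = some a) : p a := by
  induction t generalizing i with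
  | nil => simp [BT.get] at h
  | leaf b =>
    simp only [BT.get, Option.some.injEq] at h
    rw [← h]
    exact ht
  | node l r ihl ihr =>
    simp only [BT.get] at h
    cases hb : Nat.beq (Nat.mod i 2) 0
    · rw [hb] at h
      exact ihr ht.2 h
    · rw [hb] at h
      exact ihl ht.1 h

end Pool.Agent.VMT
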