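import Pool.Agent.Lib.VMT.Blk

/-!
# VMT.Mark : reachable multisets of cycle lengths (MP_4cc966_co)

`Um G`: the cycles with the lengths `G` have a labeling with a cut; `Mk F n`: the cycles with the
lengths `F` and one marked cycle of length `n`. The moves are the block moves.
-/

set_option autoImplicit false

namespace Pool.Agent.VMT

/-- the value of a linear form at `R` -/
def ev (R : ℕ) : LF →+ ℤ where
  toFun a := a.1 + a.2 * (R : ℤ)
  map_zero' := by simp
  map_add' a b := by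
    simp only [Prod.fst_add, Prod.snd_add]
    ring

/-- the labels of the seed and of the windows fill an interval, for every number of steps -/
def Fills (s : Sys) (B : Multiset LF) (p0 : ℕ) : Prop :=
  ∀ R : ℕ, (B + W s R).map (ev R) =
    (Multiset.range (2 * (p0 + 6 * R))).map fun i : ℕ => (i : ℤ) + 1

/-- the lengths of a list of lists -/
def lens {α : Type*} (cs : List (List α)) : Multiset ℕ := (cs.map List.length : List ℕ)

theorem lens_append {α : Type*} (cs ds : List (List α)) :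
    lens (cs ++ ds) = lens cs + lens ds := by
  rw [lens, List.map_append, ← Multiset.coe_add]
  rfl

theorem lens_cons {α : Type*} (c : List α) (cs : List (List α)) :
    lens (c :: cs) = {c.length} + lens cs := by
  rw [lens, List.map_cons, ← Multiset.cons_coe]
  rfl

theorem lens_map {α β : Type*} (f : α → β) (cs : List (List α)) :
    lens (cs.map (List.map f)) = lens cs := by
  rw [lens, lens, List.map_map]
  congr 1
  apply List.map_congr_left
  intro c _
  simp

def Um (G : Multiset ℕ) : Prop :=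
  ∃ (s : Sys) (B : Multiset LF) (p0 R : ℕ) (cs : List (List LF)),
    s.OK ∧ Fills s B p0 ∧ tot s.k cs = B + W s R ∧ lens cs = G

def Mk0 (F : Multiset ℕ) (n : ℕ) : Prop :=
  ∃ (s : Sys) (B : Multiset LF) (p0 R : ℕ) (p : List LF) (cs : List (List LF)),
    s.OK ∧ Fills s B p0 ∧ Good s B R p cs ∧ lens cs = F ∧ p.length = n

/-- closed blocks with the lengths `E` -/
def BC (E : Multiset ℕ) : Prop :=
  ∃ (r : ℕ) (ex : List (List ℕ)), ((ex.flatten : List ℕ) : Multiset ℕ) = Lr r ∧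
    (((ex.map vz).flatten : List ℕ) : Multiset ℕ) = Sr r ∧ lens ex = E

/-- the marked cycle grows by `q`, new cycles `E` -/
def BP (q : ℕ) (E : Multiset ℕ) : Prop :=
  ∃ (r : ℕ) (u w : List ℕ) (ex : List (List ℕ)) (rev : Bool),
    ((u ++ w ++ ex.flatten : List ℕ) : Multiset ℕ) = Lr r ∧
    ((vz (u ++ (bif rev then [4, 0] else [0, 4]) ++ w) ++ (ex.map vz).flatten : List ℕ) :
      Multiset ℕ) = Sr r + {3, 3} ∧
    u.head? = some (8 * r) ∧ w.getLast? = some (16 * r + 4) ∧
    u.length + w.length = q ∧ lens ex = E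

/-- the marked cycle grows by `a` and is closed, new marked cycle of length `b`, new cycles `E` -/
def BS (a b : ℕ) (E : Multiset ℕ) : Prop :=
  ∃ (r : ℕ) (u w : List ℕ) (ex : List (List ℕ)),
    ((u ++ w ++ ex.flatten : List ℕ) : Multiset ℕ) = Lr r ∧
    ((vz (0 :: 4 :: u) ++ vz w ++ (ex.map vz).flatten : List ℕ) :
      Multiset ℕ) = Sr r + {3, 3} ∧
    w.head? = some (8 * r) ∧ w.getLast? = some (16 * r + 4) ∧
    u.length = a ∧ w.length = b ∧ lens ex = E

/-- opening: new marked cycle of length `b`, new cycles `E` -/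
def BO (b : ℕ) (E : Multiset ℕ) : Prop :=
  ∃ (r : ℕ) (w : List ℕ) (ex : List (List ℕ)),
    ((w ++ ex.flatten : List ℕ) : Multiset ℕ) = Lr r ∧
    ((vz w ++ (ex.map vz).flatten : List ℕ) : Multiset ℕ) = Sr r ∧
    w.head? = some (8 * r) ∧ w.getLast? = some (16 * r + 4) ∧ w.length = b ∧ lens ex = E

theorem Um.close {G E : Multiset ℕ} (h : Um G) (hE : BC E) : Um (G + E) := by
  obtain ⟨s, B, p0, R, cs, h1, h2, h3, h4⟩ := h
  obtain ⟨r, ex, e1, e2, e3⟩ := hE
  refine ⟨s, B, p0, R + r, _, h1, h2, good_C h1 h3 e1 e2, ?_⟩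
  rw [lens_append, lens_map, e3, h4, add_comm]

theorem Um.opening {G E : Multiset ℕ} {b : ℕ} (h : Um G) (hE : BO b E) : Mk0 (G + E) b := by
  obtain ⟨s, B, p0, R, cs, h1, h2, h3, h4⟩ := h
  obtain ⟨r, w, ex, e1, e2, e3, e4, e5, e6⟩ := hE
  refine ⟨s, B, p0, R + r, _, _, h1, h2, good_O h1 h3 e1 e2 e3 e4, ?_, ?_⟩
  · rw [lens_append, lens_map, e6, h4, add_comm]
  · rw [List.length_map, e5]

theorem Mk0.grow {F E : Multiset ℕ} {n q : ℕ} (h : Mk0 F n) (hE : BP q E) :
    Mk0 (F + E) (n + q) := by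
  obtain ⟨s, B, p0, R, p, cs, h1, h2, h3, h4, h5⟩ := h
  obtain ⟨r, u, w, ex, rev, e1, e2, e3, e4, e5, e6⟩ := hE
  refine ⟨s, B, p0, R + r, _, _, h1, h2, good_P h1 h3 e1 e2 e3 e4, ?_, ?_⟩
  · rw [lens_append, lens_map, e6, h4, add_comm]
  · rw [List.length_append, List.length_append, List.length_map, List.length_map, ← h5, ← e5]
    cases rev
    · simp only [cond_false]
      ring
    · simp only [cond_true, List.length_reverse]
      ring

theorem Mk0.switch {F E : Multiset ℕ} {n a b : ℕ} (h : Mk0 F n) (hE : BS a b E) :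
    Mk0 (F + E + {n + a}) b := by
  obtain ⟨s, B, p0, R, p, cs, h1, h2, h3, h4, h5⟩ := h
  obtain ⟨r, u, w, ex, e1, e2, e3, e4, e5, e6, e7⟩ := hE
  refine ⟨s, B, p0, R + r, _, _, h1, h2, good_S h1 h3 e1 e2 e3 e4, ?_, ?_⟩
  · rw [lens_append, lens_map, lens_cons, e7, h4, List.length_append, List.length_map, h5, e5]
    abel
  · rw [List.length_map, e6]

theorem Mk0.um {F : Multiset ℕ} {n : ℕ} (h : Mk0 F n) : Um (F + {n}) := by
  obtain ⟨s, B, p0, R, p, cs, h1, h2, h3, h4, h5⟩ := h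
  refine ⟨s, B, p0, R, p :: cs, h1, h2, h3.htot, ?_⟩
  rw [lens_cons, h4, h5, add_comm]

/-- sums of closed blocks -/
inductive Cl : Multiset ℕ → Prop
  | zero : Cl 0
  | add {B E : Multiset ℕ} : Cl B → BC E → Cl (B + E)

theorem Um.cl {G B : Multiset ℕ} (h : Um G) (hB : Cl B) : Um (G + B) := by
  induction hB with
  | zero => rwa [add_zero]
  | add _ hE ih =>
    rw [← add_assoc]
    exact ih.close hE

/-- a marked state, with closed blocks to be inserted at the end -/
def Mk (F : Multiset ℕ) (n : ℕ) : Prop := ∃ F1 B : Multiset ℕ, Mk0 F1 n ∧ Cl B ∧ F = F1 + B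

theorem Mk0.mk {F : Multiset ℕ} {n : ℕ} (h : Mk0 F n) : Mk F n :=
  ⟨F, 0, h, Cl.zero, (add_zero F).symm⟩

theorem Mk.um {F : Multiset ℕ} {n : ℕ} (h : Mk F n) : Um (F + {n}) := by
  obtain ⟨F1, B, h1, h2, rfl⟩ := h
  have := h1.um.cl h2
  rwa [add_right_comm] at this

theorem Mk.close {F E : Multiset ℕ} {n : ℕ} (h : Mk F n) (hE : BC E) : Mk (F + E) n := by
  obtain ⟨F1, B, h1, h2, rfl⟩ := h
  exact ⟨F1, B + E, h1, h2.add hE, add_assoc _ _ _⟩

theorem Mk.grow {F E : Multiset ℕ} {n q : ℕ} (h : Mk F n) (hE : BP q E) :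
    Mk (F + E) (n + q) := by
  obtain ⟨F1, B, h1, h2, rfl⟩ := h
  exact ⟨F1 + E, B, h1.grow hE, h2, add_right_comm _ _ _⟩

theorem Mk.switch {F E : Multiset ℕ} {n a b : ℕ} (h : Mk F n) (hE : BS a b E) :
    Mk (F + E + {n + a}) b := by
  obtain ⟨F1, B, h1, h2, rfl⟩ := h
  exact ⟨F1 + E + {n + a}, B, h1.switch hE, h2, by abel⟩

theorem Um.opening' {G E : Multiset ℕ} {b : ℕ} (h : Um G) (hE : BO b E) : Mk (G + E) b :=
  (h.opening hE).mk

end Pool.Agent.VMT
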