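import Pool.Agent.Lib.VMT.Mark

/-!
# VMT.Rules : the rules of the induction (MP_4cc966_co)
-/

set_option autoImplicit false

namespace Pool.Agent.VMT

def Pt (F : Multiset ℕ) : Prop := ∀ x ∈ F, 3 ≤ x

/-- six triangles -/
def t6 : Multiset ℕ := {3, 3, 3, 3, 3, 3}

/-- everything of total less than `t` is known -/
structure Ctx (t : ℕ) : Prop where
  hU : ∀ G : Multiset ℕ, Pt G → 15 ≤ G.sum → G.sum < t → G ≠ t6 → Um G
  hM : ∀ (F : Multiset ℕ) (n : ℕ), Pt F → 9 ≤ n → 15 ≤ F.sum + n → F.sum + n < t → Mk F n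

def Cov (F : Multiset ℕ) (n : ℕ) : Prop := Ctx (F.sum + n) → Mk F n

def AllCov (S : Multiset ℕ) (n : ℕ) : Prop :=
  ∀ F : Multiset ℕ, S ≤ F → Pt F → 15 ≤ F.sum + n → Cov F n

def ThrCov (S : Multiset ℕ) (n T : ℕ) : Prop :=
  ∀ F : Multiset ℕ, S ≤ F → Pt F → 15 ≤ F.sum + n → (∃ m ∈ F - S, T ≤ m) → Cov F n

theorem sum_sub {E F : Multiset ℕ} (h : E ≤ F) : (F - E).sum + E.sum = F.sum := by
  rw [← Multiset.sum_add, tsub_add_cancel_of_le h]

theorem sum_mono {E F : Multiset ℕ} (h : E ≤ F) : E.sum ≤ F.sum := by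
  rw [← sum_sub h]
  omega

theorem Pt.sub {F : Multiset ℕ} (h : Pt F) (E : Multiset ℕ) : Pt (F - E) := fun x hx =>
  h x (Multiset.mem_of_le (Multiset.sub_le_self F E) hx)

theorem AllCov.mono {S S' : Multiset ℕ} {n : ℕ} (h : AllCov S n) (hS : S ≤ S') : AllCov S' n :=
  fun F hF => h F (hS.trans hF)

theorem ThrCov.mono {S S' : Multiset ℕ} {n T : ℕ} (h : ThrCov S n T) (hS : S ≤ S') :
    ThrCov S' n T := by
  intro F hF hP hn hm
  obtain ⟨m, hm, hT⟩ := hm
  exact h F (hS.trans hF) hP hn ⟨m, Multiset.mem_of_le (tsub_le_tsub_left hS F) hm, hT⟩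

theorem ThrCov.all {S : Multiset ℕ} {n T x : ℕ} (h : ThrCov S n T) (hx : T ≤ x) :
    AllCov (x ::ₘ S) n := by
  intro F hF hP hn
  refine h F ((Multiset.le_cons_self S x).trans hF) hP hn ⟨x, ?_, hx⟩
  rw [← Multiset.singleton_le]
  exact le_tsub_of_add_le_left (by rw [add_comm, Multiset.singleton_add]; exact hF)

theorem rC {S E : Multiset ℕ} {n : ℕ} (hE : BC E) (hS : E ≤ S) (h0 : 0 < E.sum)
    (h9 : 9 ≤ n) (h15 : 15 + E.sum ≤ S.sum + n) : AllCov S n := by
  intro F hF hP _ hc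
  have h1 : E ≤ F := hS.trans hF
  have h2 := sum_sub h1
  have h3 := sum_mono hF
  have := (hc.hM (F - E) n (hP.sub E) h9 (by omega) (by omega)).close hE
  rwa [tsub_add_cancel_of_le h1] at this

theorem rP {S E : Multiset ℕ} {n q : ℕ} (hE : BP q E) (hS : E ≤ S) (h0 : 0 < q + E.sum)
    (h9 : q + 9 ≤ n) (h15 : 15 + q + E.sum ≤ S.sum + n) : AllCov S n := by
  intro F hF hP _ hc
  have h1 : E ≤ F := hS.trans hF
  have h2 := sum_sub h1
  have h3 := sum_mono hF
  have := (hc.hM (F - E) (n - q) (hP.sub E) (by omega) (by omega) (by omega)).grow hE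
  rwa [tsub_add_cancel_of_le h1, Nat.sub_add_cancel (by omega)] at this

/-- the number of parts different from three -/
def nn (F : Multiset ℕ) : ℕ := F.countP (· ≠ 3)

theorem nn_mono {E F : Multiset ℕ} (h : E ≤ F) : nn E ≤ nn F := Multiset.countP_le_of_le _ h

theorem ne_t6 {F S E : Multiset ℕ} (hS : E ≤ S) (hF : S ≤ F)
    (h : 19 + E.sum ≤ S.sum ∨ nn E < nn S) : F - E ≠ t6 := by
  intro h6
  have h1 : E ≤ F := hS.trans hF
  have h2 := sum_sub h1
  have h3 := sum_mono hF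
  rw [h6] at h2
  have h4 : t6.sum = 18 := rfl
  rcases h with h | h
  · omega
  · have h5 := nn_mono hF
    have h7 : nn F = nn (F - E) + nn E := by
      rw [nn, nn, nn, ← Multiset.countP_add, tsub_add_cancel_of_le h1]
    have h8 : nn t6 = 0 := by decide
    rw [h6, h8] at h7
    omega

theorem rO {S E : Multiset ℕ} {n : ℕ} (hE : BO n E) (hS : E ≤ S) (h9 : 9 ≤ n)
    (h15 : 15 + E.sum ≤ S.sum) (h6 : 19 + E.sum ≤ S.sum ∨ nn E < nn S) : AllCov S n := by
  intro F hF hP _ hc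
  have h1 : E ≤ F := hS.trans hF
  have h2 := sum_sub h1
  have h3 := sum_mono hF
  have := (hc.hU (F - E) (hP.sub E) (by omega) (by omega) (ne_t6 hS hF h6)).opening' hE
  rwa [tsub_add_cancel_of_le h1] at this

theorem rS_aux {F E : Multiset ℕ} {n a m : ℕ} (hE : BS a n E) (hF : m ::ₘ E ≤ F) (hP : Pt F)
    (hm : a + 9 ≤ m) (h15 : 15 + a + E.sum ≤ F.sum) (h9 : 9 ≤ n) : Cov F n := by
  intro hc
  have h2 := sum_sub hF
  rw [Multiset.sum_cons] at h2
  have := (hc.hM (F - m ::ₘ E) (m - a) (hP.sub _) (by omega) (by omega) (by omega)).switch hE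
  rw [Nat.sub_add_cancel (by omega)] at this
  have e : F - m ::ₘ E + E + {m} = F := by
    rw [add_assoc, add_comm E {m}, Multiset.singleton_add]
    exact tsub_add_cancel_of_le hF
  rwa [e] at this

theorem rS {S E : Multiset ℕ} {n a m : ℕ} (hE : BS a n E) (hS : m ::ₘ E ≤ S)
    (hm : a + 9 ≤ m) (h15 : 15 + a + E.sum ≤ S.sum) (h9 : 9 ≤ n) : AllCov S n := by
  intro F hF hP _
  have h3 := sum_mono hF
  exact rS_aux hE (hS.trans hF) hP hm (by omega) h9

theorem rX {S E : Multiset ℕ} {n a T : ℕ} (hE : BS a n E) (hS : E ≤ S)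
    (hT : a + 9 ≤ T) (h15 : 15 + a + E.sum ≤ S.sum + T) (h9 : 9 ≤ n) : ThrCov S n T := by
  intro F hF hP _ hm
  obtain ⟨m, hm, hT'⟩ := hm
  have h1 : {m} ≤ F - S := Multiset.singleton_le.mpr hm
  have h2 : {m} + S ≤ F := by
    calc {m} + S ≤ (F - S) + S := by gcongr
      _ = F := tsub_add_cancel_of_le hF
  have h3 := sum_mono h2
  rw [Multiset.sum_add, Multiset.sum_singleton] at h3
  refine rS_aux (m := m) hE ?_ hP (by omega) (by omega) h9
  rw [← Multiset.singleton_add]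
  calc {m} + E ≤ {m} + S := by gcongr
    _ ≤ F := h2

/-! ## The unmarked case -/

def CovU (G : Multiset ℕ) : Prop :=
  Ctx G.sum → (∀ (F : Multiset ℕ) (n : ℕ), Pt F → 9 ≤ n → F.sum + n = G.sum → Mk F n) → Um G

def AllU (S : Multiset ℕ) : Prop :=
  ∀ G : Multiset ℕ, S ≤ G → Pt G → 15 ≤ G.sum → G ≠ t6 → CovU G

theorem rCU {S E : Multiset ℕ} (hE : BC E) (hS : E ≤ S) (h0 : 0 < E.sum)
    (h15 : 15 + E.sum ≤ S.sum) (h6 : 19 + E.sum ≤ S.sum ∨ nn E < nn S) : AllU S := by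
  intro F hF hP _ _ hc _
  have h1 : E ≤ F := hS.trans hF
  have h2 := sum_sub h1
  have h3 := sum_mono hF
  have := (hc.hU (F - E) (hP.sub E) (by omega) (by omega) (ne_t6 hS hF h6)).close hE
  rwa [tsub_add_cancel_of_le h1] at this

theorem rNC {S E : Multiset ℕ} (hE : BC E) (hS : E ≤ S) (h0 : 0 < E.sum) (hP : Pt S)
    (h15 : 15 + E.sum ≤ S.sum) (h6 : 18 + E.sum ≠ S.sum ∨ nn E < nn S) : CovU S := by
  intro hc _
  have h2 := sum_sub hS
  have hne : S - E ≠ t6 := by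
    rcases h6 with h6 | h6
    · intro h
      rw [h] at h2
      have h4 : t6.sum = 18 := rfl
      omega
    · exact ne_t6 hS le_rfl (Or.inr h6)
  have := (hc.hU (S - E) (hP.sub E) (by omega) (by omega) hne).close hE
  rwa [tsub_add_cancel_of_le hS] at this

theorem big_part {G : Multiset ℕ} {m : ℕ} (hm : m ∈ G) (h9 : 9 ≤ m) (hP : Pt G) : CovU G := by
  intro _ hM
  obtain ⟨F, rfl⟩ := Multiset.exists_cons_of_mem hm
  have := (hM F m (fun x hx => hP x (Multiset.mem_cons_of_mem hx)) h9 (by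
    rw [Multiset.sum_cons, add_comm])).um
  rwa [add_comm, Multiset.singleton_add] at this

end Pool.Agent.VMT
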