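import Pool.Agent.Lib.VMT.Lib0

/-!
# VMT.Seed : checking seeds by computation (MP_4cc966_co)

The ten windows have the numbers `0, ..., 3` (the edge windows `A`), `4` (the double edge window),
`5, ..., 8` (the vertex windows `v`), `9` (the double vertex window). Window `i` is inserted after
the label with the number `ps i`, and `es i` is the total length of the windows before it.
-/

set_option autoImplicit false

namespace Pool.Agent.VMT

/-- digits -/
def shf (S L : ℕ) : ℕ := Nat.mod (Nat.shiftRight S (Nat.mul 4 L)) 16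

def psd (P i : ℕ) : ℕ := Nat.mod (Nat.shiftRight P (Nat.mul 8 i)) 256

def wl (i : ℕ) : ℕ := bif Nat.beq i 4 then 2 else bif Nat.beq i 9 then 2 else 1

def sysOf (k C P E : ℕ) : Sys where
  k := ((k : ℤ), (C : ℤ))
  A := fun i => ((psd P i : ℤ), (shf E i : ℤ))
  z := ((psd P 4 : ℤ) + 1, (shf E 4 : ℤ) + 2)
  v := fun u => ((psd P (5 + u) : ℤ), (shf E (5 + u) : ℤ))
  w := ((psd P 9 : ℤ) + 1, (shf E 9 : ℤ) + 2)

def chkRel (k C P E : ℕ) : Bool :=
  Nat.beq (psd P 0 + psd P 4 + psd P 8) k && (Nat.beq (shf E 0 + shf E 4 + shf E 8 + 2) C &&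
  (Nat.beq (psd P 1 + psd P 4 + psd P 7 + 3) k && (Nat.beq (shf E 1 + shf E 4 + shf E 7 + 2) C &&
  (Nat.beq (psd P 2 + psd P 4 + psd P 6 + 3) k && (Nat.beq (shf E 2 + shf E 4 + shf E 6 + 2) C &&
  (Nat.beq (psd P 3 + psd P 4 + psd P 5) k && (Nat.beq (shf E 3 + shf E 4 + shf E 5 + 2) C &&
  (Nat.beq (psd P 0 + psd P 3 + psd P 9 + 2) k && (Nat.beq (shf E 0 + shf E 3 + shf E 9 + 2) C &&
  (Nat.beq (psd P 1 + psd P 2 + psd P 9 + 1) k &&
    Nat.beq (shf E 1 + shf E 2 + shf E 9 + 2) C))))))))))

theorem sysOf_OK {k C P E : ℕ} (h : chkRel k C P E = true) : (sysOf k C P E).OK := by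
  simp only [chkRel, Bool.and_eq_true] at h
  obtain ⟨a1, a2, b1, b2, c1, c2, d1, d2, e1, e2, f1, f2⟩ := h
  replace a1 := Nat.eq_of_beq_eq_true a1
  replace a2 := Nat.eq_of_beq_eq_true a2
  replace b1 := Nat.eq_of_beq_eq_true b1
  replace b2 := Nat.eq_of_beq_eq_true b2
  replace c1 := Nat.eq_of_beq_eq_true c1
  replace c2 := Nat.eq_of_beq_eq_true c2
  replace d1 := Nat.eq_of_beq_eq_true d1
  replace d2 := Nat.eq_of_beq_eq_true d2
  replace e1 := Nat.eq_of_beq_eq_true e1
  replace e2 := Nat.eq_of_beq_eq_true e2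
  replace f1 := Nat.eq_of_beq_eq_true f1
  replace f2 := Nat.eq_of_beq_eq_true f2
  refine ⟨?_, ?_, ?_, ?_, ?_, ?_⟩ <;> ext <;> simp only [sysOf, Prod.fst_add, Prod.snd_add] <;>
    norm_num <;> omega

def segchk (S : ℕ) : ℕ → ℕ → ℕ → Bool
  | 0, _, _ => true
  | c + 1, P, s => Nat.beq (shf S (Nat.succ P)) s && segchk S c (Nat.succ P) s

def chkFill (S P E T : ℕ) : List ℕ → ℕ → ℕ → Bool
  | [], Q, s => Nat.ble Q T && (Nat.beq s 12 && segchk S (Nat.sub T Q) Q s)
  | i :: l, Q, s => Nat.ble Q (psd P i) && (Nat.beq (shf E i) s &&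
      (segchk S (Nat.sub (psd P i) Q) Q s && chkFill S P E T l (psd P i) (Nat.add s (wl i))))

/-- the label with the number `L` -/
def lb (S L : ℕ) : LF := ((L : ℤ), (shf S L : ℤ))

def Ivl (a : ℤ) (n : ℕ) : Multiset ℤ := (Multiset.range n).map fun i : ℕ => a + (i : ℤ) + 1

theorem Ivl_add (a : ℤ) (n m : ℕ) : Ivl a (n + m) = Ivl a n + Ivl (a + n) m := by
  rw [Ivl, Multiset.range_add, Multiset.map_add, Multiset.map_map, Ivl, Ivl]
  congr 1
  apply Multiset.map_congr rfl
  intro i _
  simp only [Function.comp]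
  push_cast
  ring

def Bseg (S P n : ℕ) : Multiset LF := (Multiset.range n).map fun i : ℕ => lb S (P + i + 1)

theorem Bseg_add (S P n m : ℕ) : Bseg S P (n + m) = Bseg S P n + Bseg S (P + n) m := by
  rw [Bseg, Multiset.range_add, Multiset.map_add, Multiset.map_map, Bseg, Bseg]
  congr 1
  apply Multiset.map_congr rfl
  intro i _
  simp only [Function.comp]
  congr 1
  ring

theorem segchk_spec {S n P s : ℕ} (h : segchk S n P s = true) (R : ℕ) :
    (Bseg S P n).map (ev R) = Ivl ((P : ℤ) + s * R) n := by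
  have key : ∀ i < n, shf S (P + i + 1) = s := by
    induction n generalizing P with
    | zero => intro i hi; omega
    | succ n ih =>
      simp only [segchk, Bool.and_eq_true] at h
      intro i hi
      cases i with
      | zero => exact Nat.eq_of_beq_eq_true h.1
      | succ i =>
        have := ih h.2 i (by omega)
        rw [← this]
        congr 1
        simp only [Nat.succ_eq_add_one]
        ring
  rw [Bseg, Ivl, Multiset.map_map]
  apply Multiset.map_congr rfl
  intro i hi
  rw [Multiset.mem_range] at hi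
  simp only [Function.comp, lb, key i hi]
  simp only [ev, AddMonoidHom.coe_mk, ZeroHom.coe_mk]
  push_cast
  ring

def Win (P E i R : ℕ) : Multiset LF :=
  if i = 4 ∨ i = 9 then dn ((psd P i : ℤ) + 1, (shf E i : ℤ) + 2) (2 * R)
  else up ((psd P i : ℤ), (shf E i : ℤ)) R

theorem W_sysOf (k C P E R : ℕ) :
    W (sysOf k C P E) R =
      (([0, 1, 2, 3, 4, 5, 6, 7, 8, 9] : List ℕ).map fun i => Win P E i R).sum := by
  simp only [W, sysOf, List.map_cons, List.map_nil, List.sum_cons, List.sum_nil, Win]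
  norm_num
  abel

theorem map_up (a : LF) (R n : ℕ) : (up a n).map (ev R) = Ivl (a.1 + a.2 * R) n := by
  rw [up, Ivl, Multiset.map_map]
  apply Multiset.map_congr rfl
  intro i _
  simp only [Function.comp, ev, AddMonoidHom.coe_mk, ZeroHom.coe_mk, Prod.fst_add, Prod.snd_add]
  ring

theorem map_dn (a : LF) (R n : ℕ) : (dn a n).map (ev R) = Ivl (a.1 + a.2 * R - 1 - n) n := by
  have h1 : (Multiset.range n).map (fun i : ℕ => n - 1 - i) = Multiset.range n := by
    have := congrArg (fun l : List ℕ => (l : Multiset ℕ)) (List.reverse_range' (s := 0) (n := n))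
    simp only [Multiset.coe_reverse] at this
    rw [← Multiset.coe_range, Multiset.map_coe]
    have e0 : (fun i : ℕ => n - 1 - i) = fun x => 0 + n - 1 - x := by
      funext i
      rw [zero_add]
    rw [e0, ← this, ← List.range_eq_range']
  rw [dn, Ivl, Multiset.map_map]
  conv_rhs => rw [← h1]
  rw [Multiset.map_map]
  apply Multiset.map_congr rfl
  intro i hi
  rw [Multiset.mem_range] at hi
  simp only [Function.comp, ev, AddMonoidHom.coe_mk, ZeroHom.coe_mk, Prod.fst_sub, Prod.snd_sub]
  have : ((n - 1 - i : ℕ) : ℤ) = (n : ℤ) - 1 - i := by omega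
  rw [this]
  ring

theorem wl_le (i : ℕ) (R : ℕ) (P E : ℕ) :
    (Win P E i R).map (ev R) =
      Ivl ((psd P i : ℤ) + (shf E i : ℤ) * R) (wl i * R) := by
  by_cases h : i = 4 ∨ i = 9
  · have hw : wl i = 2 := by
      rcases h with rfl | rfl <;> rfl
    rw [Win, if_pos h, map_dn, hw]
    congr 1
    push_cast
    ring
  · have hw : wl i = 1 := by
      rw [wl]
      have h4 : Nat.beq i 4 = false := by
        rw [← Bool.not_eq_true]
        intro h'
        exact h (Or.inl (Nat.eq_of_beq_eq_true h'))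
      have h9 : Nat.beq i 9 = false := by
        rw [← Bool.not_eq_true]
        intro h'
        exact h (Or.inr (Nat.eq_of_beq_eq_true h'))
      rw [h4, h9]
      rfl
    rw [Win, if_neg h, map_up, hw, one_mul]

theorem chkFill_spec {S P E T : ℕ} (R : ℕ) : ∀ (l : List ℕ) (Q s : ℕ),
    chkFill S P E T l Q s = true →
    s ≤ 12 ∧ Q ≤ T ∧
    (Bseg S Q (T - Q) + (l.map fun i => Win P E i R).sum).map (ev R) =
      Ivl ((Q : ℤ) + s * R) (T - Q + (12 - s) * R) := by
  intro l
  induction l with
  | nil =>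
    intro Q s h
    simp only [chkFill, Bool.and_eq_true] at h
    obtain ⟨h1, h2, h3⟩ := h
    have h2' : s = 12 := Nat.eq_of_beq_eq_true h2
    have h1' : Q ≤ T := Nat.le_of_ble_eq_true h1
    subst h2'
    refine ⟨le_refl _, h1', ?_⟩
    have := segchk_spec h3 R
    simp only [List.map_nil, List.sum_nil, add_zero, Nat.sub_self, zero_mul]
    exact this
  | cons i l ih =>
    intro Q s h
    simp only [chkFill, Bool.and_eq_true] at h
    obtain ⟨h1, h2, h3, h4⟩ := h
    have h1' : Q ≤ psd P i := Nat.le_of_ble_eq_true h1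
    have h2' : shf E i = s := Nat.eq_of_beq_eq_true h2
    obtain ⟨i1, i2, i3⟩ := ih _ _ h4
    have hwl : s + wl i ≤ 12 := i1
    refine ⟨by omega, by omega, ?_⟩
    have hs : wl i ≤ 12 - s := by omega
    have e1 : T - Q = (psd P i - Q) + (T - psd P i) := by omega
    have e2 : Q + (psd P i - Q) = psd P i := by omega
    have e3 : T - Q + (12 - s) * R =
        (psd P i - Q) + (wl i * R + (T - psd P i + (12 - (s + wl i)) * R)) := by
      have : (12 - s) * R = wl i * R + (12 - (s + wl i)) * R := by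
        rw [← add_mul]
        congr 1
        omega
      omega
    rw [e3, Ivl_add, Ivl_add, e1, Bseg_add, e2, List.map_cons, List.sum_cons]
    have hseg := segchk_spec h3 R
    have hwin := wl_le i R P E
    have hc : ((psd P i - Q : ℕ) : ℤ) = (psd P i : ℤ) - Q := by omega
    rw [h2'] at hwin
    have i3' : (Bseg S (psd P i) (T - psd P i) + (l.map fun i => Win P E i R).sum).map (ev R) =
        Ivl ((Q : ℤ) + s * R + ((psd P i - Q : ℕ) : ℤ) + ((wl i * R : ℕ) : ℤ))
          (T - psd P i + (12 - (s + wl i)) * R) := by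
      rw [i3]
      congr 1
      rw [hc]
      push_cast
      have : ((Nat.add s (wl i) : ℕ) : ℤ) = (s : ℤ) + wl i := by
        exact_mod_cast rfl
      rw [this]
      ring
    rw [← i3']
    have hwin' : (Win P E i R).map (ev R) =
        Ivl ((Q : ℤ) + s * R + ((psd P i - Q : ℕ) : ℤ)) (wl i * R) := by
      rw [hwin]
      congr 1
      rw [hc]
      ring
    rw [← hwin']
    have hseg' : (Bseg S Q (psd P i - Q)).map (ev R) = Ivl ((Q : ℤ) + s * R) (psd P i - Q) := hseg
    rw [← hseg']
    simp only [Multiset.map_add]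
    abel

/-! ## The cycles of a seed -/

def pvs (k : ℕ) : List ℕ → List ℕ
  | a :: b :: l => Nat.sub k (Nat.add a b) :: pvs k (b :: l)
  | _ => []

def vvs (k : ℕ) : List ℕ → List ℕ
  | [] => []
  | a :: l => pvs k ((a :: l) ++ [a])

def okp (S k C : ℕ) : List ℕ → Bool
  | a :: b :: l => (Nat.ble (Nat.add a b) k &&
      Nat.beq (Nat.add (Nat.add (shf S a) (shf S b)) (shf S (Nat.sub k (Nat.add a b)))) C) &&
      okp S k C (b :: l)
  | _ => true

def okc (S k C : ℕ) : List ℕ → Bool
  | [] => true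
  | a :: l => okp S k C ((a :: l) ++ [a])

theorem okp_spec {S k C : ℕ} {l : List ℕ} (h : okp S k C l = true) :
    ps ((k : ℤ), (C : ℤ)) (l.map (lb S)) = (pvs k l).map (lb S) := by
  induction l with
  | nil => rfl
  | cons a l ih =>
    cases l with
    | nil => rfl
    | cons b l =>
      simp only [okp, Bool.and_eq_true] at h
      obtain ⟨⟨h1, h2⟩, h3⟩ := h
      simp only [List.map_cons, ps_cons_cons] at ih ⊢
      rw [pvs, List.map_cons, ih h3]
      congr 1
      have h1' : a + b ≤ k := Nat.le_of_ble_eq_true h1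
      have h2' : shf S a + shf S b + shf S (k - (a + b)) = C := Nat.eq_of_beq_eq_true h2
      have e : Nat.sub k (Nat.add a b) = k - (a + b) := rfl
      rw [e]
      ext
      · simp only [lb, Prod.fst_sub]
        omega
      · simp only [lb, Prod.snd_sub]
        omega

theorem okc_spec {S k C : ℕ} {l : List ℕ} (h : okc S k C l = true) :
    vs ((k : ℤ), (C : ℤ)) (l.map (lb S)) = (vvs k l).map (lb S) := by
  cases l with
  | nil => rfl
  | cons a l =>
    have := okp_spec (l := (a :: l) ++ [a]) h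
    rw [vvs, ← this, List.map_append]
    rfl

theorem okc_tot {S k C : ℕ} {cs : List (List ℕ)} (h : cs.all (okc S k C) = true) :
    tot ((k : ℤ), (C : ℤ)) (cs.map (List.map (lb S))) =
      ((cs.flatten ++ (cs.map (vvs k)).flatten : List ℕ) : Multiset ℕ).map (lb S) := by
  induction cs with
  | nil => rfl
  | cons c cs ih =>
    rw [List.all_cons, Bool.and_eq_true] at h
    rw [List.map_cons, tot_cons, ih h.2, okc_spec h.1, List.map_cons, List.flatten_cons,
      List.flatten_cons]
    simp only [← Multiset.coe_add, Multiset.map_add, Multiset.map_coe]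
    abel

/-- digits in base `16` -/
def dw : ℕ → ℕ → List ℕ
  | 0, _ => []
  | f + 1, n => Nat.mod n 16 :: dw f (Nat.div n 16)

def iot : ℕ → ℕ → List ℕ
  | 0, _ => []
  | n + 1, a => a :: iot n (Nat.succ a)

theorem iot_coe (n a : ℕ) :
    (iot n a : Multiset ℕ) = (Multiset.range n).map fun i : ℕ => a + i := by
  induction n generalizing a with
  | zero => rfl
  | succ n ih =>
    have e : (Multiset.range (n + 1)).map (fun i : ℕ => a + i) =
        a ::ₘ (Multiset.range n).map (fun i : ℕ => a + 1 + i) := by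
      rw [add_comm n 1, Multiset.range_add, Multiset.map_add, Multiset.map_map]
      have : (Multiset.range 1).map (fun i : ℕ => a + i) = {a} := by
        simp [Multiset.range_succ]
      rw [this, ← Multiset.singleton_add]
      congr 1
      apply Multiset.map_congr rfl
      intro i _
      simp only [Function.comp]
      ring
    rw [e, ← ih]
    rfl

/-- a seed with its certificate; `n = 0` means no marked cycle -/
structure Sd where
  n : ℕ
  F : List ℕ
  p0 : ℕ
  k : ℕ
  C : ℕ
  P : ℕ
  E : ℕ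
  S : ℕ
  w : ℕ
  c : List ℕ

/-- the common part of the test -/
def Sd.base (d : Sd) (cs : List (List ℕ)) : Bool :=
  chkRel d.k d.C d.P d.E && (same (dw 10 d.w) [0, 1, 2, 3, 4, 5, 6, 7, 8, 9] &&
    (chkFill d.S d.P d.E (Nat.mul 2 d.p0) (dw 10 d.w) 0 0 &&
      (cs.all (okc d.S d.k d.C) &&
        same (cs.flatten ++ (cs.map (vvs d.k)).flatten) (iot (Nat.mul 2 d.p0) 1))))

def chkM (S P E n : ℕ) : List (List ℕ) → Bool
  | p :: _ => hd p (psd P 0) && (Nat.beq (shf S (psd P 0)) (shf E 0) &&
      (lst p (Nat.succ (psd P 4)) && (Nat.beq (shf S (Nat.succ (psd P 4))) (Nat.add (shf E 4) 2) &&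
        Nat.beq p.length n)))
  | [] => false

def Sd.chk (d : Sd) : Bool :=
  bif Nat.beq d.n 0 then
    leq ((d.c.map (dg 100)).map List.length) d.F && d.base (d.c.map (dg 100))
  else
    (leq ((d.c.map (dg 100)).tail.map List.length) d.F && chkM d.S d.P d.E d.n (d.c.map (dg 100))) &&
      d.base (d.c.map (dg 100))

structure Sd.Valid (d : Sd) : Prop where
  hU : d.n = 0 → Um (d.F : Multiset ℕ)
  hM : d.n ≠ 0 → Mk0 (d.F : Multiset ℕ) d.n

theorem W_zero (s : Sys) : W s 0 = 0 := by
  simp [W, up, dn]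

theorem base_spec {d : Sd} {cs : List (List ℕ)} (h : d.base cs = true) :
    (sysOf d.k d.C d.P d.E).OK ∧ Fills (sysOf d.k d.C d.P d.E) (Bseg d.S 0 (2 * d.p0)) d.p0 ∧
    tot (sysOf d.k d.C d.P d.E).k (cs.map (List.map (lb d.S))) = Bseg d.S 0 (2 * d.p0) := by
  simp only [Sd.base, Bool.and_eq_true] at h
  obtain ⟨h1, h2, h3, h4, h5⟩ := h
  refine ⟨sysOf_OK h1, ?_, ?_⟩
  · intro R
    obtain ⟨-, -, h6⟩ := chkFill_spec R _ _ _ h3
    have e : ((dw 10 d.w).map fun i => Win d.P d.E i R).sum = W (sysOf d.k d.C d.P d.E) R := by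
      rw [W_sysOf]
      have := congrArg (fun m : Multiset ℕ => (m.map fun i => Win d.P d.E i R).sum)
        (coe_eq_of_same h2)
      simpa using this
    rw [e] at h6
    have e2 : Nat.mul 2 d.p0 - 0 = 2 * d.p0 := rfl
    rw [e2] at h6
    rw [h6, Ivl]
    have e3 : 2 * d.p0 + (12 - 0) * R = 2 * (d.p0 + 6 * R) := by ring
    rw [e3]
    apply Multiset.map_congr rfl
    intro i _
    push_cast
    ring
  · have : (sysOf d.k d.C d.P d.E).k = ((d.k : ℤ), (d.C : ℤ)) := rfl
    rw [this, okc_tot h4, coe_eq_of_same h5, iot_coe, Bseg, Multiset.map_map]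
    apply Multiset.map_congr rfl
    intro i _
    simp only [Function.comp]
    congr 1
    ring

theorem Sd.valid_of_chk {d : Sd} (h : d.chk = true) : d.Valid := by
  unfold Sd.chk at h
  refine ⟨fun e => ?_, fun e => ?_⟩
  · rw [e] at h
    have h' : (leq ((d.c.map (dg 100)).map List.length) d.F && d.base (d.c.map (dg 100))) = true := h
    rw [Bool.and_eq_true] at h'
    obtain ⟨h1, h2⟩ := h'
    obtain ⟨h3, h4, h5⟩ := base_spec h2
    refine ⟨_, _, _, 0, (d.c.map (dg 100)).map (List.map (lb d.S)), h3, h4, ?_, ?_⟩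
    · rw [h5, W_zero, add_zero]
    · rw [lens_map, lens, eq_of_leq h1]
  · have hn : Nat.beq d.n 0 = false := by
      rw [← Bool.not_eq_true]
      intro h'
      exact e (Nat.eq_of_beq_eq_true h')
    rw [hn, cond_false, Bool.and_eq_true, Bool.and_eq_true] at h
    obtain ⟨⟨h1, h2⟩, h6⟩ := h
    obtain ⟨h3, h4, h5⟩ := base_spec h6
    unfold chkM at h2
    split at h2
    · rename_i p cs hcs
      rw [hcs] at h1 h5
      simp only [Bool.and_eq_true] at h2
      obtain ⟨a1, a2, a3, a4, a5⟩ := h2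
      replace a1 := hd_spec a1
      replace a2 := Nat.eq_of_beq_eq_true a2
      replace a3 := lst_spec a3
      replace a4 := Nat.eq_of_beq_eq_true a4
      replace a5 := Nat.eq_of_beq_eq_true a5
      refine ⟨_, _, _, 0, p.map (lb d.S), cs.map (List.map (lb d.S)), h3, h4, ⟨?_, ?_, ?_⟩, ?_, ?_⟩
      · rw [W_zero, add_zero, ← h5]
        rfl
      · rw [List.head?_map, a1]
        simp only [Option.map_some, lab, lb, sysOf, Option.some.injEq]
        ext
        · simp
        · simp only [a2]
          simp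
      · rw [List.getLast?_map, a3]
        simp only [Option.map_some, lab, lb, sysOf, Option.some.injEq]
        ext
        · simp
        · simp only [a4]
          simp
      · rw [lens_map]
        rw [List.tail_cons] at h1
        rw [lens, eq_of_leq h1]
      · rw [List.length_map, a5]
    · exact absurd h2 (by simp)

end Pool.Agent.VMT
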