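import Pool.Agent.Lib.VMT.Core

/-!
# VMT.Sys : cut systems and blocks (MP_4cc966_co)

A label is a linear form `(c, s)`, meaning `c + s R` where `R` is the total number of inserted
steps. A system has four edge windows `A 0, ..., A 3` (upwards), a double edge window `z`
(downwards), four vertex windows `v 0, ..., v 3` (upwards) and a double vertex window `w`
(downwards). Codes: `8 d + i` is the label number `d` in `A i` (`i < 4`), `8 d + 4` the label number
`d` in `z`; `8 (t + 1) + u` is the place number `t` in `v u` (`u < 4`), `8 (t + 1) + 4` the place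
number `t` in `w`; all numbers are relative to the time `R`.
-/

set_option autoImplicit false

namespace Pool.Agent.VMT

abbrev LF := ℤ × ℤ

structure Sys where
  k : LF
  A : ℕ → LF
  z : LF
  v : ℕ → LF
  w : LF

/-- the relations of a system -/
structure Sys.OK (s : Sys) : Prop where
  h0 : s.A 0 + s.z + s.v 3 = s.k + (1, 0)
  h1 : s.A 1 + s.z + s.v 2 + (2, 0) = s.k
  h2 : s.A 2 + s.z + s.v 1 + (2, 0) = s.k
  h3 : s.A 3 + s.z + s.v 0 = s.k + (1, 0)
  h03 : s.A 0 + s.A 3 + s.w + (1, 0) = s.k
  h12 : s.A 1 + s.A 2 + s.w = s.k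

/-- the label with code `c` at time `R` -/
def lab (s : Sys) (R c : ℕ) : LF :=
  if c % 8 = 4 then s.z - (2 * (R : ℤ) + ((c / 8 : ℕ) : ℤ), 0)
  else s.A (c % 8) + ((R : ℤ) + ((c / 8 : ℕ) : ℤ), 0)

/-- the place with code `c` at time `R` -/
def sl (s : Sys) (R c : ℕ) : LF :=
  if c % 8 = 4 then s.w - (2 * (R : ℤ) + ((c / 8 : ℕ) : ℤ) - 1, 0)
  else s.v (c % 8) + ((R : ℤ) + ((c / 8 : ℕ) : ℤ) - 1, 0)

def slot1 (i d e : ℕ) : ℕ :=
  bif (i == 0 || i == 3) then (bif Nat.ble d e then 8 * (e - d) + (3 - i) else 7)
  else bif (i == 1 || i == 2) then (bif Nat.ble d (e + 3) then 8 * (e + 3 - d) + (3 - i) else 7)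
  else 7

/-- the code of the place of the vertex between the edges with codes `a` and `b` (`7`: none) -/
def slot (a b : ℕ) : ℕ :=
  bif b % 8 == 4 then slot1 (a % 8) (a / 8) (b / 8)
  else bif a % 8 == 4 then slot1 (b % 8) (b / 8) (a / 8)
  else bif a % 8 + b % 8 == 3 then
    (bif (a % 8 == 0 || b % 8 == 0) then 8 * (a / 8 + b / 8) + 4
      else 8 * (a / 8 + b / 8 + 1) + 4)
  else 7

def pz : List ℕ → List ℕ
  | a :: b :: l => slot a b :: pz (b :: l)
  | _ => []

def vz : List ℕ → List ℕ
  | [] => []
  | a :: l => pz ((a :: l) ++ [a])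

theorem slot1_spec {s : Sys} (hs : s.OK) (R i d e : ℕ) (h : slot1 i d e % 8 ≠ 7) :
    s.k - (s.A i + ((R : ℤ) + (d : ℤ), 0)) - (s.z - (2 * (R : ℤ) + (e : ℤ), 0)) =
      sl s R (slot1 i d e) := by
  obtain ⟨h0, h1, h2, h3, h03, h12⟩ := hs
  unfold slot1 at h ⊢
  have key : ∀ (u c : ℕ) (x : ℤ), u < 4 → s.A i + s.z + s.v u + (x, 0) = s.k →
      ((c : ℕ) : ℤ) = (e : ℤ) - d + x + 1 →
      s.k - (s.A i + ((R : ℤ) + (d : ℤ), 0)) - (s.z - (2 * (R : ℤ) + (e : ℤ), 0)) =
        sl s R (8 * c + u) := by
    intro u c x hu h4 h5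
    have e1 : (8 * c + u) % 8 = u := by omega
    have e2 : (8 * c + u) / 8 = c := by omega
    have e3 : ¬ u = 4 := by omega
    rw [sl, e1, e2, if_neg e3, ← h4, h5]
    ext
    · simp only [Prod.fst_add, Prod.fst_sub]
      ring
    · simp only [Prod.snd_add, Prod.snd_sub]
      ring
  by_cases c1 : i = 0
  · subst c1
    by_cases c2 : d ≤ e
    · have c2' : Nat.ble d e = true := (by rw [Nat.ble_eq]; exact c2)
      simp only [beq_self_eq_true, Bool.true_or, cond_true, c2'] at h ⊢
      refine key 3 (e - d) (-1) (by norm_num) ?_ (by omega)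
      rw [h0]
      ext <;> simp
    · have c2' : Nat.ble d e = false := by
        rw [← Bool.not_eq_true, Nat.ble_eq]
        exact c2
      simp [c2'] at h
  · by_cases c1' : i = 3
    · subst c1'
      by_cases c2 : d ≤ e
      · have c2' : Nat.ble d e = true := (by rw [Nat.ble_eq]; exact c2)
        simp only [beq_self_eq_true, Bool.or_true, cond_true, c2'] at h ⊢
        refine key 0 (e - d) (-1) (by norm_num) ?_ (by omega)
        rw [h3]
        ext <;> simp
      · have c2' : Nat.ble d e = false := by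
          rw [← Bool.not_eq_true, Nat.ble_eq]
          exact c2
        simp [c2'] at h
    · by_cases c3 : i = 1
      · subst c3
        by_cases c2 : d ≤ e + 3
        · have c2' : Nat.ble d (e + 3) = true := (by rw [Nat.ble_eq]; exact c2)
          simp only [beq_self_eq_true, Bool.true_or, cond_true, c2', Nat.reduceBEq,
            Bool.or_false, cond_false] at h ⊢
          exact key 2 (e + 3 - d) 2 (by norm_num) h1 (by omega)
        · have c2' : Nat.ble d (e + 3) = false := by
            rw [← Bool.not_eq_true, Nat.ble_eq]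
            exact c2
          simp [c2'] at h
      · by_cases c4 : i = 2
        · subst c4
          by_cases c2 : d ≤ e + 3
          · have c2' : Nat.ble d (e + 3) = true := (by rw [Nat.ble_eq]; exact c2)
            simp only [beq_self_eq_true, Bool.or_true, cond_true, c2', Nat.reduceBEq,
              Bool.or_false, cond_false] at h ⊢
            exact key 1 (e + 3 - d) 2 (by norm_num) h2 (by omega)
          · have c2' : Nat.ble d (e + 3) = false := by
              rw [← Bool.not_eq_true, Nat.ble_eq]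
              exact c2
            simp [c2'] at h
        · have b0 : (i == 0) = false := by simpa using c1
          have b1 : (i == 1) = false := by simpa using c3
          have b2 : (i == 2) = false := by simpa using c4
          have b3 : (i == 3) = false := by simpa using c1'
          rw [b0, b1, b2, b3] at h
          simp at h

theorem slot_spec {s : Sys} (hs : s.OK) (R a b : ℕ) (h : slot a b % 8 ≠ 7) :
    s.k - lab s R a - lab s R b = sl s R (slot a b) := by
  unfold slot at h ⊢
  by_cases hb : b % 8 = 4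
  · have hb' : (b % 8 == 4) = true := by simp [hb]
    rw [hb', cond_true] at h ⊢
    have ha : a % 8 ≠ 4 := by
      intro ha
      rw [ha] at h
      simp [slot1] at h
    rw [← slot1_spec hs R _ _ _ h, lab, lab, if_neg ha, if_pos hb]
  · have hb' : (b % 8 == 4) = false := by simp [hb]
    rw [hb', cond_false] at h ⊢
    by_cases ha : a % 8 = 4
    · have ha' : (a % 8 == 4) = true := by simp [ha]
      rw [ha', cond_true] at h ⊢
      rw [← slot1_spec hs R _ _ _ h, lab, lab, if_neg hb, if_pos ha]
      abel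
    · have ha' : (a % 8 == 4) = false := by simp [ha]
      rw [ha', cond_false] at h ⊢
      by_cases hab : a % 8 + b % 8 = 3
      · have hab' : (a % 8 + b % 8 == 3) = true := by simp [hab]
        rw [hab', cond_true] at h ⊢
        obtain ⟨h0, h1, h2, h3, h03, h12⟩ := hs
        have hcases : (a % 8 = 0 ∧ b % 8 = 3) ∨ (a % 8 = 3 ∧ b % 8 = 0) ∨
            (a % 8 = 1 ∧ b % 8 = 2) ∨ (a % 8 = 2 ∧ b % 8 = 1) := by omega
        have e1 : ∀ c : ℕ, (8 * c + 4) % 8 = 4 := fun c => by omega
        have e2 : ∀ c : ℕ, (8 * c + 4) / 8 = c := fun c => by omega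
        rw [lab, lab, if_neg ha, if_neg hb]
        rcases hcases with ⟨q1, q2⟩ | ⟨q1, q2⟩ | ⟨q1, q2⟩ | ⟨q1, q2⟩
        · rw [q1, q2]
          simp only [beq_self_eq_true, Bool.true_or, cond_true]
          rw [sl, e1, if_pos rfl, e2, ← h03]
          push_cast
          ext
          · simp only [Prod.fst_add, Prod.fst_sub]
            ring
          · simp only [Prod.snd_add, Prod.snd_sub]
            ring
        · rw [q1, q2]
          simp only [beq_self_eq_true, Bool.or_true, cond_true]
          rw [sl, e1, if_pos rfl, e2, ← h03]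
          push_cast
          ext
          · simp only [Prod.fst_add, Prod.fst_sub]
            ring
          · simp only [Prod.snd_add, Prod.snd_sub]
            ring
        · rw [q1, q2]
          simp only [Nat.reduceBEq, Bool.or_false, cond_false]
          rw [sl, e1, if_pos rfl, e2, ← h12]
          push_cast
          ext
          · simp only [Prod.fst_add, Prod.fst_sub]
            ring
          · simp only [Prod.snd_add, Prod.snd_sub]
            ring
        · rw [q1, q2]
          simp only [Nat.reduceBEq, Bool.or_false, cond_false]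
          rw [sl, e1, if_pos rfl, e2, ← h12]
          push_cast
          ext
          · simp only [Prod.fst_add, Prod.fst_sub]
            ring
          · simp only [Prod.snd_add, Prod.snd_sub]
            ring
      · have hab' : (a % 8 + b % 8 == 3) = false := by simp [hab]
        rw [hab', cond_false] at h
        simp at h

theorem ps_lab {s : Sys} (hs : s.OK) (R : ℕ) (l : List ℕ) (h : ∀ c ∈ pz l, c % 8 ≠ 7) :
    ps s.k (l.map (lab s R)) = (pz l).map (sl s R) := by
  induction l with
  | nil => rfl
  | cons a l ih =>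
    cases l with
    | nil => rfl
    | cons b l =>
      simp only [List.map_cons, ps_cons_cons] at ih ⊢
      rw [pz, List.map_cons, ih (fun c hc => h c (by rw [pz]; exact List.mem_cons_of_mem _ hc)),
        slot_spec hs R a b (h _ (by rw [pz]; exact List.mem_cons_self))]

theorem vs_lab {s : Sys} (hs : s.OK) (R : ℕ) (l : List ℕ) (h : ∀ c ∈ vz l, c % 8 ≠ 7) :
    vs s.k (l.map (lab s R)) = (vz l).map (sl s R) := by
  cases l with
  | nil => rfl
  | cons a l =>
    rw [vz, ← ps_lab hs R _ h, List.map_append]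
    rfl

/-! ## The windows -/

/-- the codes of the labels of `r` steps -/
def Lr (r : ℕ) : Multiset ℕ :=
  (Multiset.range r).map (fun d : ℕ => 8 * (d + 1) + 0) +
  (Multiset.range r).map (fun d : ℕ => 8 * (d + 1) + 1) +
  (Multiset.range r).map (fun d : ℕ => 8 * (d + 1) + 2) +
  (Multiset.range r).map (fun d : ℕ => 8 * (d + 1) + 3) +
  (Multiset.range (2 * r)).map (fun d : ℕ => 8 * (d + 1) + 4)

/-- the codes of the places of `r` steps -/
def Sr (r : ℕ) : Multiset ℕ :=
  (Multiset.range r).map (fun d : ℕ => 8 * (d + 2) + 0) +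
  (Multiset.range r).map (fun d : ℕ => 8 * (d + 2) + 1) +
  (Multiset.range r).map (fun d : ℕ => 8 * (d + 2) + 2) +
  (Multiset.range r).map (fun d : ℕ => 8 * (d + 2) + 3) +
  (Multiset.range (2 * r)).map (fun d : ℕ => 8 * (d + 2) + 4)

def up (a : LF) (R : ℕ) : Multiset LF := (Multiset.range R).map fun d : ℕ => a + ((d : ℤ) + 1, 0)

def dn (a : LF) (R : ℕ) : Multiset LF := (Multiset.range R).map fun d : ℕ => a - ((d : ℤ) + 1, 0)

/-- the labels in the windows after `R` steps -/
def W (s : Sys) (R : ℕ) : Multiset LF :=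
  (up (s.A 0) R + up (s.A 1) R + up (s.A 2) R + up (s.A 3) R + dn s.z (2 * R)) +
  (up (s.v 0) R + up (s.v 1) R + up (s.v 2) R + up (s.v 3) R + dn s.w (2 * R))

theorem up_add (a : LF) (R r : ℕ) :
    up a (R + r) = up a R + (Multiset.range r).map fun d : ℕ => a + ((R : ℤ) + ((d : ℤ) + 1), 0) := by
  rw [up, Multiset.range_add, Multiset.map_add, Multiset.map_map, up]
  congr 1

theorem dn_add (a : LF) (R r : ℕ) :
    dn a (R + r) = dn a R + (Multiset.range r).map fun d : ℕ => a - ((R : ℤ) + ((d : ℤ) + 1), 0) := by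
  rw [dn, Multiset.range_add, Multiset.map_add, Multiset.map_map, dn]
  congr 1

theorem lab_A (s : Sys) (R d i : ℕ) (hi : i < 4) :
    lab s R (8 * (d + 1) + i) = s.A i + ((R : ℤ) + ((d : ℤ) + 1), 0) := by
  have e1 : (8 * (d + 1) + i) % 8 = i := by omega
  have e2 : (8 * (d + 1) + i) / 8 = d + 1 := by omega
  rw [lab, e1, e2, if_neg (by omega)]
  push_cast
  rfl

theorem lab_z (s : Sys) (R d : ℕ) :
    lab s R (8 * (d + 1) + 4) = s.z - (2 * (R : ℤ) + ((d : ℤ) + 1), 0) := by
  have e1 : (8 * (d + 1) + 4) % 8 = 4 := by omega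
  have e2 : (8 * (d + 1) + 4) / 8 = d + 1 := by omega
  rw [lab, e1, e2, if_pos rfl]
  push_cast
  rfl

theorem sl_v (s : Sys) (R d i : ℕ) (hi : i < 4) :
    sl s R (8 * (d + 2) + i) = s.v i + ((R : ℤ) + ((d : ℤ) + 1), 0) := by
  have e1 : (8 * (d + 2) + i) % 8 = i := by omega
  have e2 : (8 * (d + 2) + i) / 8 = d + 2 := by omega
  rw [sl, e1, e2, if_neg (by omega)]
  push_cast
  congr 2
  ring

theorem sl_w (s : Sys) (R d : ℕ) :
    sl s R (8 * (d + 2) + 4) = s.w - (2 * (R : ℤ) + ((d : ℤ) + 1), 0) := by
  have e1 : (8 * (d + 2) + 4) % 8 = 4 := by omega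
  have e2 : (8 * (d + 2) + 4) / 8 = d + 2 := by omega
  rw [sl, e1, e2, if_pos rfl]
  push_cast
  congr 2
  ring

theorem W_add (s : Sys) (R r : ℕ) :
    W s (R + r) = W s R + ((Lr r).map (lab s R) + (Sr r).map (sl s R)) := by
  have e2 : 2 * (R + r) = 2 * R + 2 * r := by ring
  rw [W, W, up_add, up_add, up_add, up_add, up_add, up_add, up_add, up_add, e2, dn_add, dn_add]
  simp only [Lr, Sr, Multiset.map_add, Multiset.map_map, Function.comp_def]
  simp only [lab_A s R _ 0 (by norm_num), lab_A s R _ 1 (by norm_num),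
    lab_A s R _ 2 (by norm_num), lab_A s R _ 3 (by norm_num), lab_z,
    sl_v s R _ 0 (by norm_num), sl_v s R _ 1 (by norm_num),
    sl_v s R _ 2 (by norm_num), sl_v s R _ 3 (by norm_num), sl_w]
  push_cast
  abel

end Pool.Agent.VMT
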