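import Pool.Agent.Lib.VMT.Rules
import Pool.Agent.Lib.VMT.Seed

/-!
# VMT.Tree : checking the induction trees by computation (MP_4cc966_co)

A node of a tree is a multiset `S` of lengths (a list in descending order); its children are the
lists `x :: S` with `x` at least the last added number (`child`, then the siblings).
-/

set_option autoImplicit false

namespace Pool.Agent.VMT

inductive T : Type
  | nil : T
  | node : ℕ → T → T → T

def sumL : List ℕ → ℕ
  | [] => 0
  | a :: l => Nat.add a (sumL l)

def nnL : List ℕ → ℕ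
  | [] => 0
  | a :: l => bif Nat.beq a 3 then nnL l else Nat.succ (nnL l)

theorem sumL_coe (l : List ℕ) : (l : Multiset ℕ).sum = sumL l := by
  induction l with
  | nil => rfl
  | cons a l ih =>
    rw [← Multiset.cons_coe, Multiset.sum_cons, ih]
    rfl

theorem nnL_coe (l : List ℕ) : nn (l : Multiset ℕ) = nnL l := by
  induction l with
  | nil => rfl
  | cons a l ih =>
    rw [nn, ← Multiset.cons_coe]
    by_cases h : a = 3
    · subst h
      rw [Multiset.countP_cons_of_neg _ (by simp), ← nn, ih]
      rfl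
    · rw [Multiset.countP_cons_of_pos (p := fun x => x ≠ 3) _ h, ← nn, ih, nnL]
      have : Nat.beq a 3 = false := by
        rw [← Bool.not_eq_true]
        intro h'
        exact h (Nat.eq_of_beq_eq_true h')
      rw [this]
      rfl

def subl : List ℕ → List ℕ → Bool
  | [], _ => true
  | _ :: _, [] => false
  | e :: E, s :: S => bif Nat.beq e s then subl E S else subl (e :: E) S

theorem subl_spec {E S : List ℕ} (h : subl E S = true) : (E : Multiset ℕ) ≤ S := by
  have key : ∀ (S E : List ℕ), subl E S = true → List.Sublist E S := by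
    intro S
    induction S with
    | nil =>
      intro E h
      cases E with
      | nil => exact List.Sublist.refl _
      | cons e E => simp [subl] at h
    | cons s S ih =>
      intro E h
      cases E with
      | nil => exact List.nil_sublist _
      | cons e E =>
        rw [subl] at h
        cases hb : Nat.beq e s
        · rw [hb] at h
          exact (ih _ h).cons _
        · rw [hb] at h
          rw [Nat.eq_of_beq_eq_true hb]
          exact (ih _ h).cons_cons _
  exact (key S E h).subperm

def ins (m : ℕ) : List ℕ → List ℕ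
  | [] => [m]
  | e :: E => bif Nat.ble e m then m :: e :: E else e :: ins m E

theorem ins_coe (m : ℕ) (E : List ℕ) : (ins m E : Multiset ℕ) = m ::ₘ (E : Multiset ℕ) := by
  induction E with
  | nil => rfl
  | cons e E ih =>
    rw [ins]
    cases Nat.ble e m
    · rw [cond_false, ← Multiset.cons_coe, ih, ← Multiset.cons_coe, Multiset.cons_swap]
    · rfl

def withB (lib : BT Blk) (i : ℕ) (f : Blk → Bool) : Bool :=
  match lib.get i with
  | some B => f B
  | none => false

def withS (sd : BT Sd) (i : ℕ) (f : Sd → Bool) : Bool :=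
  match sd.get i with
  | some d => f d
  | none => false

theorem withB_spec {lib : BT Blk} (hl : lib.All Blk.Valid) {i : ℕ} {f : Blk → Bool}
    (h : withB lib i f = true) : ∃ B : Blk, B.Valid ∧ f B = true := by
  unfold withB at h
  split at h
  · rename_i B hB
    exact ⟨B, BT.get_spec hl hB, h⟩
  · exact absurd h (by simp)

theorem withS_spec {sd : BT Sd} (hl : sd.All Sd.Valid) {i : ℕ} {f : Sd → Bool}
    (h : withS sd i f = true) : ∃ d : Sd, d.Valid ∧ f d = true := by
  unfold withS at h
  split at h
  · rename_i B hB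
    exact ⟨B, BT.get_spec hl hB, h⟩
  · exact absurd h (by simp)

/-! ## Robust items -/

def kP (S : List ℕ) (sm n : ℕ) (B : Blk) : Bool :=
  Nat.beq B.ty 1 && (subl B.E S && (Nat.ble (Nat.add B.a 9) n &&
    (Nat.ble (Nat.add (Nat.add 15 B.a) (sumL B.E)) (Nat.add sm n) &&
      Nat.ble 1 (Nat.add B.a (sumL B.E)))))

def kO (S : List ℕ) (sm n : ℕ) (B : Blk) : Bool :=
  Nat.beq B.ty 3 && (Nat.beq B.b n && (subl B.E S && (Nat.ble (Nat.add 15 (sumL B.E)) sm &&
    (Nat.ble (Nat.add 19 (sumL B.E)) sm || Nat.ble (Nat.succ (nnL B.E)) (nnL S)))))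

def kS (S : List ℕ) (sm n m : ℕ) (B : Blk) : Bool :=
  Nat.beq B.ty 2 && (Nat.beq B.b n && (subl (ins m B.E) S && (Nat.ble (Nat.add B.a 9) m &&
    Nat.ble (Nat.add (Nat.add 15 B.a) (sumL B.E)) sm)))

def robust (lib : BT Blk) (S : List ℕ) (sm n k i m : ℕ) : Bool :=
  withB lib i fun B => bif Nat.beq k 0 then kP S sm n B else bif Nat.beq k 1 then kO S sm n B
    else kS S sm n m B

theorem robust_spec {lib : BT Blk} (hl : lib.All Blk.Valid) {S : List ℕ} {sm n k i m : ℕ}
    (hs : (S : Multiset ℕ).sum = sm) (h9 : 9 ≤ n) (h : robust lib S sm n k i m = true) :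
    AllCov S n := by
  obtain ⟨B, hB, h⟩ := withB_spec hl h
  cases h0 : Nat.beq k 0
  · rw [h0, cond_false] at h
    cases h1 : Nat.beq k 1
    · rw [h1, cond_false] at h
      simp only [kS, Bool.and_eq_true] at h
      obtain ⟨a1, a2, a3, a4, a5⟩ := h
      have a1 := Nat.eq_of_beq_eq_true a1
      have a2 := Nat.eq_of_beq_eq_true a2
      have a3 := subl_spec a3
      have a4 : B.a + 9 ≤ m := Nat.le_of_ble_eq_true a4
      have a5 : 15 + B.a + sumL B.E ≤ sm := Nat.le_of_ble_eq_true a5
      have a6 := hB.hS a1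
      rw [a2] at a6
      rw [ins_coe] at a3
      exact rS a6 a3 a4 (by rw [hs, sumL_coe]; exact a5) h9
    · rw [h1, cond_true] at h
      simp only [kO, Bool.and_eq_true, Bool.or_eq_true] at h
      obtain ⟨a1, a2, a3, a4, a5⟩ := h
      have a1 := Nat.eq_of_beq_eq_true a1
      have a2 := Nat.eq_of_beq_eq_true a2
      have a3 := subl_spec a3
      have a4 : 15 + sumL B.E ≤ sm := Nat.le_of_ble_eq_true a4
      have a6 := hB.hO a1
      rw [a2] at a6
      refine rO a6 a3 h9 (by rw [hs, sumL_coe]; exact a4) ?_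
      rw [hs, sumL_coe, nnL_coe, nnL_coe]
      rcases a5 with a5 | a5
      · exact Or.inl (Nat.le_of_ble_eq_true a5)
      · exact Or.inr (Nat.le_of_ble_eq_true a5)
  · rw [h0, cond_true] at h
    simp only [kP, Bool.and_eq_true] at h
    obtain ⟨a1, a2, a3, a4, a5⟩ := h
    have a1 := Nat.eq_of_beq_eq_true a1
    have a2 := subl_spec a2
    have a3 : B.a + 9 ≤ n := Nat.le_of_ble_eq_true a3
    have a4 : 15 + B.a + sumL B.E ≤ sm + n := Nat.le_of_ble_eq_true a4
    have a5 : 1 ≤ B.a + sumL B.E := Nat.le_of_ble_eq_true a5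
    exact rP (hB.hP a1) a2 (by rw [sumL_coe]; exact a5) a3 (by rw [hs, sumL_coe]; exact a4)

/-! ## Single items -/

def kB (S : List ℕ) (n : ℕ) (d : Sd) : Bool := Nat.beq d.n n && same d.F S

def kNP (S : List ℕ) (n : ℕ) (d : Sd) (B : Blk) : Bool :=
  Nat.beq B.ty 1 && (Nat.ble 1 d.n && (Nat.beq (Nat.add d.n B.a) n && same (B.E ++ d.F) S))

def kNS (S : List ℕ) (n : ℕ) (d : Sd) (B : Blk) : Bool :=
  Nat.beq B.ty 2 && (Nat.ble 1 d.n && (Nat.beq B.b n &&
    same (Nat.add d.n B.a :: (B.E ++ d.F)) S))

def single (lib : BT Blk) (sd : BT Sd) (S : List ℕ) (sm n k i j : ℕ) : Bool :=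
  bif Nat.beq k 6 then Nat.ble (Nat.add sm n) 14 else withS sd j fun d =>
    bif Nat.beq k 3 then kB S n d else withB lib i fun B =>
      bif Nat.beq k 4 then kNP S n d B else kNS S n d B

theorem kNP_spec {S : List ℕ} {n : ℕ} {d : Sd} {B : Blk} (hd : d.Valid) (hB : B.Valid)
    (h : kNP S n d B = true) : Mk S n := by
  simp only [kNP, Bool.and_eq_true] at h
  obtain ⟨a1, a2, a3, a4⟩ := h
  have a1 := Nat.eq_of_beq_eq_true a1
  have a2 : 1 ≤ d.n := Nat.le_of_ble_eq_true a2
  have a3 : d.n + B.a = n := Nat.eq_of_beq_eq_true a3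
  have := ((hd.hM (by omega)).mk.grow (hB.hP a1))
  rw [a3, add_comm, Multiset.coe_add, coe_eq_of_same a4] at this
  exact this

theorem kNS_spec {S : List ℕ} {n : ℕ} {d : Sd} {B : Blk} (hd : d.Valid) (hB : B.Valid)
    (h : kNS S n d B = true) : Mk S n := by
  simp only [kNS, Bool.and_eq_true] at h
  obtain ⟨a1, a2, a3, a4⟩ := h
  have a1 := Nat.eq_of_beq_eq_true a1
  have a2 : 1 ≤ d.n := Nat.le_of_ble_eq_true a2
  have a3 : B.b = n := Nat.eq_of_beq_eq_true a3
  have := ((hd.hM (by omega)).mk.switch (hB.hS a1))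
  have e : (d.F : Multiset ℕ) + B.E + {d.n + B.a} =
      ((Nat.add d.n B.a :: (B.E ++ d.F) : List ℕ) : Multiset ℕ) := by
    rw [← Multiset.cons_coe, ← Multiset.coe_add, ← Multiset.singleton_add, add_comm,
      add_comm (d.F : Multiset ℕ)]
    rfl
  rw [e, a3, coe_eq_of_same a4] at this
  exact this

theorem single_spec {lib : BT Blk} (hl : lib.All Blk.Valid) {sd : BT Sd}
    (hsd : sd.All Sd.Valid) {S : List ℕ} {sm n k i j : ℕ}
    (hs : (S : Multiset ℕ).sum = sm) (h9 : 9 ≤ n) (h : single lib sd S sm n k i j = true)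
    (h15 : 15 ≤ (S : Multiset ℕ).sum + n) : Cov S n := by
  unfold single at h
  cases h6 : Nat.beq k 6
  · rw [h6, cond_false] at h
    obtain ⟨d, hd, h⟩ := withS_spec hsd h
    intro _
    cases h3 : Nat.beq k 3
    · rw [h3, cond_false] at h
      obtain ⟨B, hB, h⟩ := withB_spec hl h
      cases h4 : Nat.beq k 4
      · rw [h4, cond_false] at h
        exact kNS_spec hd hB h
      · rw [h4, cond_true] at h
        exact kNP_spec hd hB h
    · rw [h3, cond_true] at h
      simp only [kB, Bool.and_eq_true] at h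
      have a1 := Nat.eq_of_beq_eq_true h.1
      have := (hd.hM (by omega)).mk
      rwa [a1, coe_eq_of_same h.2] at this
  · rw [h6, cond_true] at h
    have : sm + n ≤ 14 := Nat.le_of_ble_eq_true h
    omega

/-! ## Thresholds -/

def mx (a b : ℕ) : ℕ := bif Nat.ble a b then b else a

def kX (S : List ℕ) (sm n t : ℕ) (B : Blk) : Bool :=
  Nat.beq B.ty 2 && (Nat.beq B.b n && (subl B.E S && (Nat.ble (Nat.add B.a 9) t &&
    Nat.ble (Nat.add (Nat.add 15 B.a) (sumL B.E)) (Nat.add sm t))))

/-- the test of a threshold, given as a part of the item -/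
def newT (lib : BT Blk) (S : List ℕ) (sm n i t : ℕ) : Bool :=
  bif Nat.beq t 0 then true else withB lib i fun B => kX S sm n t B

theorem newT_spec {lib : BT Blk} (hl : lib.All Blk.Valid) {S : List ℕ} {sm n i t : ℕ}
    (hs : (S : Multiset ℕ).sum = sm) (h9 : 9 ≤ n) (h : newT lib S sm n i t = true)
    (ht : Nat.beq t 0 = false) : ThrCov S n t := by
  unfold newT at h
  rw [ht, cond_false] at h
  obtain ⟨B, hB, h⟩ := withB_spec hl h
  simp only [kX, Bool.and_eq_true] at h
  obtain ⟨a1, a2, a3, a4, a5⟩ := h
  have a1 := Nat.eq_of_beq_eq_true a1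
  have a2 := Nat.eq_of_beq_eq_true a2
  have a3 := subl_spec a3
  have a4 : B.a + 9 ≤ t := Nat.le_of_ble_eq_true a4
  have a5 : 15 + B.a + sumL B.E ≤ sm + t := Nat.le_of_ble_eq_true a5
  have a6 := hB.hS a1
  rw [a2] at a6
  exact rX a6 a3 a4 (by rw [hs, sumL_coe]; exact a5) h9

/-! ## Nodes

An item is `k + 8 i + 2 ^ 15 m + 2 ^ 21 j + 2 ^ 34 i' + 2 ^ 46 t`. -/

def proc (lib : BT Blk) (sd : BT Sd) (S : List ℕ) (sm : ℕ) :
    List (ℕ × ℕ) → List ℕ → Option (List (ℕ × ℕ))
  | [], _ => some []
  | _ :: _, [] => none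
  | (n, t) :: L, c :: cs =>
    bif Nat.ble (Nat.mod c 8) 2 then
      bif robust lib S sm n (Nat.mod c 8) (Nat.mod (Nat.div c 8) 4096)
          (Nat.mod (Nat.div c 32768) 64) then proc lib sd S sm L cs
      else none
    else
      bif single lib sd S sm n (Nat.mod c 8) (Nat.mod (Nat.div c 8) 4096)
          (Nat.mod (Nat.div c 2097152) 8192) &&
        newT lib S sm n (Nat.mod (Nat.div c 17179869184) 4096) (Nat.div c 70368744177664)
      then
        match proc lib sd S sm L cs with
        | none => none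
        | some L' => some ((n, bif Nat.beq (Nat.div c 70368744177664) 0 then t
            else Nat.div c 70368744177664) :: L')
      else none

theorem proc_spec {lib : BT Blk} (hl : lib.All Blk.Valid) {sd : BT Sd}
    (hsd : sd.All Sd.Valid) {S : List ℕ} {sm : ℕ}
    (hs : (S : Multiset ℕ).sum = sm) : ∀ (L : List (ℕ × ℕ)) (cs : List ℕ) (L' : List (ℕ × ℕ)),
    proc lib sd S sm L cs = some L' → ∀ n t, (n, t) ∈ L → 9 ≤ n →
    AllCov S n ∨ ((15 ≤ (S : Multiset ℕ).sum + n → Cov S n) ∧
      ∃ t', (n, t') ∈ L' ∧ (t' = t ∨ ThrCov S n t')) := by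
  intro L
  induction L with
  | nil => intro cs L' _ n t hn; simp at hn
  | cons a L ih =>
    obtain ⟨n0, t0⟩ := a
    intro cs L' h n t hn h9
    cases cs with
    | nil => simp [proc] at h
    | cons c cs =>
      rw [proc] at h
      cases h1 : Nat.ble (Nat.mod c 8) 2
      · rw [h1, cond_false] at h
        cases h2 : (single lib sd S sm n0 (Nat.mod c 8) (Nat.mod (Nat.div c 8) 4096)
          (Nat.mod (Nat.div c 2097152) 8192) &&
          newT lib S sm n0 (Nat.mod (Nat.div c 17179869184) 4096) (Nat.div c 70368744177664))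
        · rw [h2] at h
          simp at h
        · rw [h2, cond_true] at h
          rw [Bool.and_eq_true] at h2
          split at h
          · simp at h
          · rename_i L1 hL1
            simp only [Option.some.injEq] at h
            subst h
            rw [List.mem_cons] at hn
            rcases hn with hn | hn
            · rw [Prod.mk.injEq] at hn
              obtain ⟨rfl, rfl⟩ := hn
              right
              refine ⟨fun h15 => single_spec hl hsd hs h9 h2.1 h15, _, List.mem_cons_self, ?_⟩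
              cases h3 : Nat.beq (Nat.div c 70368744177664) 0
              · right
                exact newT_spec hl hs h9 h2.2 h3
              · left
                rfl
            · rcases ih cs L1 hL1 n t hn h9 with h4 | ⟨h4, t', h5, h6⟩
              · exact Or.inl h4
              · exact Or.inr ⟨h4, t', List.mem_cons_of_mem _ h5, h6⟩
      · rw [h1, cond_true] at h
        cases h2 : robust lib S sm n0 (Nat.mod c 8) (Nat.mod (Nat.div c 8) 4096)
          (Nat.mod (Nat.div c 32768) 64)
        · rw [h2] at h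
          simp at h
        · rw [h2, cond_true] at h
          rw [List.mem_cons] at hn
          rcases hn with hn | hn
          · rw [Prod.mk.injEq] at hn
            obtain ⟨rfl, rfl⟩ := hn
            exact Or.inl (robust_spec hl hs h9 h2)
          · exact ih cs L' h n t hn h9

def dropLe (x : ℕ) : List (ℕ × ℕ) → List (ℕ × ℕ)
  | [] => []
  | (n, t) :: L => bif Nat.ble t x then dropLe x L else (n, t) :: dropLe x L

theorem dropLe_spec {x n t : ℕ} {L : List (ℕ × ℕ)} (h : (n, t) ∈ L) :
    t ≤ x ∨ (n, t) ∈ dropLe x L := by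
  induction L with
  | nil => simp at h
  | cons a L ih =>
    obtain ⟨n0, t0⟩ := a
    rw [List.mem_cons] at h
    rw [dropLe]
    rcases h with h | h
    · rw [Prod.mk.injEq] at h
      obtain ⟨rfl, rfl⟩ := h
      cases hb : Nat.ble t x
      · right
        rw [cond_false]
        exact List.mem_cons_self
      · exact Or.inl (Nat.le_of_ble_eq_true hb)
    · rcases ih h with h | h
      · exact Or.inl h
      · right
        cases Nat.ble t0 x
        · rw [cond_false]
          exact List.mem_cons_of_mem _ h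
        · exact h

def allLe (x : ℕ) : List (ℕ × ℕ) → Bool
  | [] => true
  | (_, t) :: L => Nat.ble t x && allLe x L

theorem allLe_spec {x n t : ℕ} {L : List (ℕ × ℕ)} (h : allLe x L = true) (hn : (n, t) ∈ L) :
    t ≤ x := by
  induction L with
  | nil => simp at hn
  | cons a L ih =>
    obtain ⟨n0, t0⟩ := a
    simp only [allLe, Bool.and_eq_true] at h
    rw [List.mem_cons] at hn
    rcases hn with hn | hn
    · rw [Prod.mk.injEq] at hn
      obtain ⟨rfl, rfl⟩ := hn
      exact Nat.le_of_ble_eq_true h.1
    · exact ih h.2 hn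

/-- dropping the numbers `n` with `15 + e ≤ sm + n` -/
def dropC (e sm : ℕ) : List (ℕ × ℕ) → List (ℕ × ℕ)
  | [] => []
  | (n, t) :: L => bif Nat.ble (Nat.add 15 e) (Nat.add sm n) then dropC e sm L
      else (n, t) :: dropC e sm L

theorem dropC_spec {e sm n t : ℕ} {L : List (ℕ × ℕ)} (h : (n, t) ∈ L) :
    15 + e ≤ sm + n ∨ (n, t) ∈ dropC e sm L := by
  induction L with
  | nil => simp at h
  | cons a L ih =>
    obtain ⟨n0, t0⟩ := a
    rw [List.mem_cons] at h
    rw [dropC]
    rcases h with h | h
    · rw [Prod.mk.injEq] at h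
      obtain ⟨rfl, rfl⟩ := h
      cases hb : Nat.ble (Nat.add 15 e) (Nat.add sm n)
      · right
        rw [cond_false]
        exact List.mem_cons_self
      · exact Or.inl (Nat.le_of_ble_eq_true hb)
    · rcases ih h with h | h
      · exact Or.inl h
      · right
        cases Nat.ble (Nat.add 15 e) (Nat.add sm n0)
        · rw [cond_false]
          exact List.mem_cons_of_mem _ h
        · exact h

def cdrop (lib : BT Blk) (S : List ℕ) (sm c : ℕ) (L : List (ℕ × ℕ)) : Option (List (ℕ × ℕ)) :=
  match c with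
  | 0 => some L
  | i + 1 =>
    match lib.get i with
    | some B =>
      bif Nat.beq B.ty 0 && (subl B.E S && Nat.ble 1 (sumL B.E)) then
        some (dropC (sumL B.E) sm L)
      else none
    | none => none

theorem cdrop_spec {lib : BT Blk} (hl : lib.All Blk.Valid) {S : List ℕ} {sm c : ℕ}
    (hs : (S : Multiset ℕ).sum = sm) {L L' : List (ℕ × ℕ)} (h : cdrop lib S sm c L = some L')
    {n t : ℕ} (hn : (n, t) ∈ L) (h9 : 9 ≤ n) : AllCov S n ∨ (n, t) ∈ L' := by
  unfold cdrop at h
  split at h
  · simp only [Option.some.injEq] at h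
    rw [← h]
    exact Or.inr hn
  · split at h
    · rename_i i B hB
      have hv := BT.get_spec hl hB
      cases hb : (Nat.beq B.ty 0 && (subl B.E S && Nat.ble 1 (sumL B.E)))
      · rw [hb] at h
        simp at h
      · rw [hb, cond_true, Option.some.injEq] at h
        simp only [Bool.and_eq_true] at hb
        obtain ⟨a1, a2, a3⟩ := hb
        have a1 := Nat.eq_of_beq_eq_true a1
        have a2 := subl_spec a2
        have a3 : 1 ≤ sumL B.E := Nat.le_of_ble_eq_true a3
        rcases dropC_spec (e := sumL B.E) (sm := sm) hn with h4 | h4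
        · left
          exact rC (hv.hC a1) a2 (by rw [sumL_coe]; exact a3) h9 (by rw [hs, sumL_coe]; exact h4)
        · right
          rwa [h] at h4
    · simp at h

/-- digits in base `2 ^ 54` -/
def di : ℕ → ℕ → List ℕ
  | 0, _ => []
  | f + 1, n => bif Nat.beq n 0 then [] else
      Nat.mod n 18014398509481984 :: di f (Nat.div n 18014398509481984)

def node1 (lib : BT Blk) (sd : BT Sd) (S : List ℕ) (sm it : ℕ) (L : List (ℕ × ℕ)) :
    Option (List (ℕ × ℕ)) :=
  match cdrop lib S sm (Nat.mod it 4096) L with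
  | none => none
  | some L1 => proc lib sd S sm L1 (di 20 (Nat.div it 4096))

theorem node1_spec {lib : BT Blk} (hl : lib.All Blk.Valid) {sd : BT Sd}
    (hsd : sd.All Sd.Valid) {S : List ℕ} {sm it : ℕ} {L L' : List (ℕ × ℕ)}
    (hs : (S : Multiset ℕ).sum = sm) (h : node1 lib sd S sm it L = some L') {n t : ℕ}
    (hn : (n, t) ∈ L) (h9 : 9 ≤ n) :
    AllCov S n ∨ ((15 ≤ (S : Multiset ℕ).sum + n → Cov S n) ∧
      ∃ t', (n, t') ∈ L' ∧ (t' = t ∨ ThrCov S n t')) := by
  unfold node1 at h
  split at h
  · simp at h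
  · rename_i L1 hL1
    rcases cdrop_spec hl hs hL1 hn h9 with h4 | h4
    · exact Or.inl h4
    · exact proc_spec hl hsd hs L1 _ L' h n t h4 h9

def chkT (lib : BT Blk) (sd : BT Sd) : T → List ℕ → ℕ → ℕ → List (ℕ × ℕ) → Bool
  | .nil, _, _, x, L => allLe x L
  | .node it ch sb, S, sm, x, L =>
    (match node1 lib sd (x :: S) (Nat.add sm x) it (dropLe x L) with
      | none => false
      | some L' => chkT lib sd ch (x :: S) (Nat.add sm x) x L') &&
    chkT lib sd sb S sm (Nat.succ x) L

def Inv (S : Multiset ℕ) (L : List (ℕ × ℕ)) : Prop :=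
  ∀ n, 9 ≤ n → n ≤ 26 → AllCov S n ∨ ∃ t, (n, t) ∈ L ∧ ThrCov S n t

theorem chkT_spec {lib : BT Blk} (hl : lib.All Blk.Valid) {sd : BT Sd}
    (hsd : sd.All Sd.Valid) (τ : T) : ∀ (S : List ℕ) (sm x : ℕ) (L : List (ℕ × ℕ)),
    (S : Multiset ℕ).sum = sm → chkT lib sd τ S sm x L = true → Inv S L →
    ∀ F : Multiset ℕ, (S : Multiset ℕ) ≤ F → (∃ m, m ∈ F - S) → (∀ m ∈ F - S, x ≤ m) → Pt F →
    ∀ n, 9 ≤ n → n ≤ 26 → 15 ≤ F.sum + n → Cov F n := by
  induction τ with
  | nil =>
    intro S sm x L hs h hI F hF hne hx hP n h9 h26 h15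
    obtain ⟨m, hm⟩ := hne
    rcases hI n h9 h26 with h1 | ⟨t, h1, h2⟩
    · exact h1 F hF hP h15
    · exact h2 F hF hP h15 ⟨m, hm, (allLe_spec h h1).trans (hx m hm)⟩
  | node it ch sb ihc ihs =>
    intro S sm x L hs h hI F hF hne hx hP n h9 h26 h15
    simp only [chkT, Bool.and_eq_true] at h
    obtain ⟨h1, h2⟩ := h
    by_cases hxm : x ∈ F - S
    · -- the node
      split at h1
      · exact absurd h1 (by simp)
      · rename_i L' hL'
        have hs' : ((x :: S : List ℕ) : Multiset ℕ).sum = Nat.add sm x := by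
          rw [← Multiset.cons_coe, Multiset.sum_cons, hs]
          exact add_comm _ _
        have hle : (S : Multiset ℕ) ≤ ((x :: S : List ℕ) : Multiset ℕ) := by
          rw [← Multiset.cons_coe]
          exact Multiset.le_cons_self _ _
        have hF' : ((x :: S : List ℕ) : Multiset ℕ) ≤ F := by
          rw [← Multiset.cons_coe, ← Multiset.singleton_add]
          calc {x} + (S : Multiset ℕ) ≤ (F - S) + S := by
                gcongr
                exact Multiset.singleton_le.mpr hxm
            _ = F := tsub_add_cancel_of_le hF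
        -- the situation for one number
        have key : ∀ n, 9 ≤ n → n ≤ 26 → AllCov ((x :: S : List ℕ) : Multiset ℕ) n ∨
            ((15 ≤ ((x :: S : List ℕ) : Multiset ℕ).sum + n →
                Cov ((x :: S : List ℕ) : Multiset ℕ) n) ∧
              ∃ t', (n, t') ∈ L' ∧ ThrCov ((x :: S : List ℕ) : Multiset ℕ) n t') := by
          intro n h9 h26
          rcases hI n h9 h26 with h3 | ⟨t, h3, h4⟩
          · exact Or.inl (h3.mono hle)
          · rcases dropLe_spec (x := x) h3 with h5 | h5
            · left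
              have := h4.all h5
              rwa [Multiset.cons_coe] at this
            · rcases node1_spec hl hsd hs' hL' h5 h9 with h6 | ⟨h6, t', h7, h8⟩
              · exact Or.inl h6
              · right
                refine ⟨h6, t', h7, ?_⟩
                rcases h8 with h8 | h8
                · rw [h8]
                  exact h4.mono hle
                · exact h8
        by_cases hFe : F = ((x :: S : List ℕ) : Multiset ℕ)
        · rw [hFe] at h15 ⊢
          rcases key n h9 h26 with h3 | ⟨h3, -⟩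
          · exact h3 _ le_rfl (by rw [← hFe]; exact hP) h15
          · exact h3 h15
        · have hI' : Inv ((x :: S : List ℕ) : Multiset ℕ) L' := by
            intro n h9 h26
            rcases key n h9 h26 with h3 | ⟨-, t', h3, h4⟩
            · exact Or.inl h3
            · exact Or.inr ⟨t', h3, h4⟩
          refine ihc (x :: S) (Nat.add sm x) x L' hs' h1 hI' F hF' ?_ ?_ hP n h9 h26 h15
          · apply Multiset.exists_mem_of_ne_zero
            intro h0
            apply hFe
            apply le_antisymm _ hF'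
            rwa [← tsub_eq_zero_iff_le]
          · intro m hm
            exact hx m (Multiset.mem_of_le (tsub_le_tsub_left hle F) hm)
    · refine ihs S sm (Nat.succ x) L hs h2 hI F hF hne ?_ hP n h9 h26 h15
      intro m hm
      have h3 := hx m hm
      rcases Nat.lt_or_ge x m with h4 | h4
      · exact h4
      · have : m = x := le_antisymm h4 h3
        rw [this] at hm
        exact absurd hm hxm

/-- the start values -/
def L0 : List (ℕ × ℕ) :=
  [(9, 1000), (10, 1000), (11, 1000), (12, 1000), (13, 1000), (14, 1000), (15, 1000), (16, 1000),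
    (17, 1000), (18, 1000), (19, 1000), (20, 1000), (21, 1000), (22, 1000), (23, 1000),
    (24, 1000), (25, 1000), (26, 1000)]

theorem mem_L0 {n : ℕ} (h9 : 9 ≤ n) (h26 : n ≤ 26) : (n, 1000) ∈ L0 := by
  interval_cases n <;> simp [L0]

def chkRoot (lib : BT Blk) (sd : BT Sd) (it : ℕ) (τ : T) : Bool :=
  match node1 lib sd [] 0 it L0 with
  | none => false
  | some L' => allLe 999 L' && chkT lib sd τ [] 0 3 L'

theorem chkRoot_spec {lib : BT Blk} (hl : lib.All Blk.Valid) {sd : BT Sd}
    (hsd : sd.All Sd.Valid) {it : ℕ} {τ : T} (h : chkRoot lib sd it τ = true)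
    {F : Multiset ℕ} (hP : Pt F) {n : ℕ} (h9 : 9 ≤ n) (h26 : n ≤ 26) (h15 : 15 ≤ F.sum + n) :
    Cov F n := by
  unfold chkRoot at h
  split at h
  · exact absurd h (by simp)
  · rename_i L' hL'
    rw [Bool.and_eq_true] at h
    have key : ∀ n, 9 ≤ n → n ≤ 26 → AllCov (([] : List ℕ) : Multiset ℕ) n ∨
        ((15 ≤ (([] : List ℕ) : Multiset ℕ).sum + n → Cov (([] : List ℕ) : Multiset ℕ) n) ∧
          ∃ t', (n, t') ∈ L' ∧ ThrCov (([] : List ℕ) : Multiset ℕ) n t') := by
      intro n h9 h26
      rcases node1_spec hl hsd rfl hL' (mem_L0 h9 h26) h9 with h6 | ⟨h6, t', h7, h8⟩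
      · exact Or.inl h6
      · right
        refine ⟨h6, t', h7, ?_⟩
        rcases h8 with h8 | h8
        · have := allLe_spec h.1 h7
          omega
        · exact h8
    by_cases hF : F = 0
    · subst hF
      rcases key n h9 h26 with h3 | ⟨h3, -⟩
      · exact h3 _ le_rfl hP h15
      · exact h3 h15
    · have hI : Inv (([] : List ℕ) : Multiset ℕ) L' := by
        intro n h9 h26
        rcases key n h9 h26 with h3 | ⟨-, t', h3, h4⟩
        · exact Or.inl h3
        · exact Or.inr ⟨t', h3, h4⟩
      refine chkT_spec hl hsd τ [] 0 3 L' rfl h.2 hI F (Multiset.zero_le F) ?_ ?_ hP n h9 h26 h15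
      · rw [Multiset.coe_nil, tsub_zero]
        exact Multiset.exists_mem_of_ne_zero hF
      · intro m hm
        exact hP m (Multiset.mem_of_le (Multiset.sub_le_self _ _) hm)

end Pool.Agent.VMT
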