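import Pool.Agent.Lib.VMT.Tree

/-!
# VMT.TreeU : checking the tree of the unmarked case (MP_4cc966_co)
-/

set_option autoImplicit false

namespace Pool.Agent.VMT

def kCU (S : List ℕ) (sm : ℕ) (B : Blk) : Bool :=
  Nat.beq B.ty 0 && (subl B.E S && (Nat.ble 1 (sumL B.E) && (Nat.ble (Nat.add 15 (sumL B.E)) sm &&
    (Nat.ble (Nat.add 19 (sumL B.E)) sm || Nat.ble (Nat.succ (nnL B.E)) (nnL S)))))

def kNC (S : List ℕ) (sm : ℕ) (B : Blk) : Bool :=
  Nat.beq B.ty 0 && (subl B.E S && (Nat.ble 1 (sumL B.E) && (Nat.ble (Nat.add 15 (sumL B.E)) sm &&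
    (!(Nat.beq (Nat.add 18 (sumL B.E)) sm) || Nat.ble (Nat.succ (nnL B.E)) (nnL S)))))

def kUP (S : List ℕ) (d : Sd) (B : Blk) : Bool :=
  Nat.beq B.ty 1 && (Nat.ble 1 d.n && same (Nat.add d.n B.a :: (B.E ++ d.F)) S)

def kUS (S : List ℕ) (d : Sd) (B : Blk) : Bool :=
  Nat.beq B.ty 2 && (Nat.ble 1 d.n && same (B.b :: Nat.add d.n B.a :: (B.E ++ d.F)) S)

def hered (lib : BT Blk) (S : List ℕ) (sm it : ℕ) : Bool :=
  Nat.beq (Nat.mod it 8) 0 && withB lib (Nat.mod (Nat.div it 8) 4096) (kCU S sm)

def singleU (lib : BT Blk) (sd : BT Sd) (S : List ℕ) (sm k i j : ℕ) : Bool :=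
  bif Nat.beq k 5 then (Nat.ble sm 14 || (Nat.beq sm 18 && Nat.beq (nnL S) 0))
  else bif Nat.beq k 2 then withB lib i (kNC S sm)
  else bif Nat.beq k 1 then withS sd j fun d => Nat.beq d.n 0 && same d.F S
  else bif Nat.beq k 3 then withB lib i fun B => withS sd j fun d => kUP S d B
  else withB lib i fun B => withS sd j fun d => kUS S d B

theorem hered_spec {lib : BT Blk} (hl : lib.All Blk.Valid) {S : List ℕ} {sm it : ℕ}
    (hs : (S : Multiset ℕ).sum = sm) (h : hered lib S sm it = true) : AllU S := by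
  unfold hered at h
  rw [Bool.and_eq_true] at h
  obtain ⟨B, hB, h⟩ := withB_spec hl h.2
  simp only [kCU, Bool.and_eq_true, Bool.or_eq_true] at h
  obtain ⟨a1, a2, a3, a4, a5⟩ := h
  have a1 := Nat.eq_of_beq_eq_true a1
  have a2 := subl_spec a2
  have a3 : 1 ≤ sumL B.E := Nat.le_of_ble_eq_true a3
  have a4 : 15 + sumL B.E ≤ sm := Nat.le_of_ble_eq_true a4
  refine rCU (hB.hC a1) a2 (by rw [sumL_coe]; exact a3) (by rw [hs, sumL_coe]; exact a4) ?_
  rw [hs, sumL_coe, nnL_coe, nnL_coe]
  rcases a5 with a5 | a5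
  · exact Or.inl (Nat.le_of_ble_eq_true a5)
  · exact Or.inr (Nat.le_of_ble_eq_true a5)

theorem eq_t6 {S : Multiset ℕ} (h : nn S = 0) (h18 : S.sum = 18) : S = t6 := by
  have h1 : ∀ x ∈ S, x = 3 := by
    intro x hx
    by_contra hne
    rw [nn, Multiset.countP_eq_zero] at h
    exact h x hx hne
  have h2 := Multiset.eq_replicate_card.mpr h1
  rw [h2, Multiset.sum_replicate, smul_eq_mul] at h18
  have h3 : Multiset.card S = 6 := by omega
  rw [h2, h3]
  rfl

theorem singleU_spec {lib : BT Blk} (hl : lib.All Blk.Valid) {sd : BT Sd}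
    (hsd : sd.All Sd.Valid) {S : List ℕ} {sm k i j : ℕ}
    (hs : (S : Multiset ℕ).sum = sm) (h : singleU lib sd S sm k i j = true)
    (hP : Pt (S : Multiset ℕ)) (h15 : 15 ≤ (S : Multiset ℕ).sum) (h6 : (S : Multiset ℕ) ≠ t6) :
    CovU (S : Multiset ℕ) := by
  unfold singleU at h
  cases e5 : Nat.beq k 5
  · rw [e5, cond_false] at h
    cases e2 : Nat.beq k 2
    · rw [e2, cond_false] at h
      cases e1 : Nat.beq k 1
      · rw [e1, cond_false] at h
        cases e3 : Nat.beq k 3
        · rw [e3, cond_false] at h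
          obtain ⟨B, hB, h⟩ := withB_spec hl h
          obtain ⟨d, hd, h⟩ := withS_spec hsd h
          simp only [kUS, Bool.and_eq_true] at h
          obtain ⟨a1, a2, a3⟩ := h
          have a1 := Nat.eq_of_beq_eq_true a1
          have a2 : 1 ≤ d.n := Nat.le_of_ble_eq_true a2
          intro _ _
          have := ((hd.hM (by omega)).mk.switch (hB.hS a1)).um
          have e : (d.F : Multiset ℕ) + B.E + {d.n + B.a} + {B.b} =
              ((B.b :: Nat.add d.n B.a :: (B.E ++ d.F) : List ℕ) : Multiset ℕ) := by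
            rw [← Multiset.cons_coe, ← Multiset.cons_coe, ← Multiset.coe_add,
              ← Multiset.singleton_add, ← Multiset.singleton_add]
            have : Nat.add d.n B.a = d.n + B.a := rfl
            rw [this]
            abel
          rwa [e, coe_eq_of_same a3] at this
        · rw [e3, cond_true] at h
          obtain ⟨B, hB, h⟩ := withB_spec hl h
          obtain ⟨d, hd, h⟩ := withS_spec hsd h
          simp only [kUP, Bool.and_eq_true] at h
          obtain ⟨a1, a2, a3⟩ := h
          have a1 := Nat.eq_of_beq_eq_true a1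
          have a2 : 1 ≤ d.n := Nat.le_of_ble_eq_true a2
          intro _ _
          have := ((hd.hM (by omega)).mk.grow (hB.hP a1)).um
          have e : (d.F : Multiset ℕ) + B.E + {d.n + B.a} =
              ((Nat.add d.n B.a :: (B.E ++ d.F) : List ℕ) : Multiset ℕ) := by
            rw [← Multiset.cons_coe, ← Multiset.coe_add, ← Multiset.singleton_add]
            have : Nat.add d.n B.a = d.n + B.a := rfl
            rw [this]
            abel
          rwa [e, coe_eq_of_same a3] at this
      · rw [e1, cond_true] at h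
        obtain ⟨d, hd, h⟩ := withS_spec hsd h
        rw [Bool.and_eq_true] at h
        have a1 := Nat.eq_of_beq_eq_true h.1
        intro _ _
        have := hd.hU a1
        rwa [coe_eq_of_same h.2] at this
    · rw [e2, cond_true] at h
      obtain ⟨B, hB, h⟩ := withB_spec hl h
      simp only [kNC, Bool.and_eq_true, Bool.or_eq_true] at h
      obtain ⟨a1, a2, a3, a4, a5⟩ := h
      have a1 := Nat.eq_of_beq_eq_true a1
      have a2 := subl_spec a2
      have a3 : 1 ≤ sumL B.E := Nat.le_of_ble_eq_true a3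
      have a4 : 15 + sumL B.E ≤ sm := Nat.le_of_ble_eq_true a4
      refine rNC (hB.hC a1) a2 (by rw [sumL_coe]; exact a3) hP (by rw [hs, sumL_coe]; exact a4) ?_
      rw [hs, sumL_coe, nnL_coe, nnL_coe]
      rcases a5 with a5 | a5
      · left
        intro h
        have : Nat.beq (Nat.add 18 (sumL B.E)) sm = true := by
          rw [Nat.beq_eq]
          exact h
        rw [this] at a5
        simp at a5
      · exact Or.inr (Nat.le_of_ble_eq_true a5)
  · rw [e5, cond_true, Bool.or_eq_true, Bool.and_eq_true] at h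
    exfalso
    rcases h with h | h
    · have : sm ≤ 14 := Nat.le_of_ble_eq_true h
      omega
    · apply h6
      refine eq_t6 ?_ ?_
      · rw [nnL_coe]
        exact Nat.eq_of_beq_eq_true h.2
      · rw [hs]
        exact Nat.eq_of_beq_eq_true h.1

def chkU (lib : BT Blk) (sd : BT Sd) : T → List ℕ → ℕ → ℕ → Bool
  | .nil, _, _, x => Nat.ble 9 x
  | .node it ch sb, S, sm, x =>
    (hered lib (x :: S) (Nat.add sm x) it ||
      (singleU lib sd (x :: S) (Nat.add sm x) (Nat.mod it 8) (Nat.mod (Nat.div it 8) 4096)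
        (Nat.div it 2097152) && chkU lib sd ch (x :: S) (Nat.add sm x) x)) &&
    chkU lib sd sb S sm (Nat.succ x)

theorem chkU_spec {lib : BT Blk} (hl : lib.All Blk.Valid) {sd : BT Sd}
    (hsd : sd.All Sd.Valid) (τ : T) : ∀ (S : List ℕ) (sm x : ℕ),
    (S : Multiset ℕ).sum = sm → chkU lib sd τ S sm x = true →
    ∀ F : Multiset ℕ, (S : Multiset ℕ) ≤ F → (∃ m, m ∈ F - S) → (∀ m ∈ F - S, x ≤ m) → Pt F →
    15 ≤ F.sum → F ≠ t6 → CovU F := by
  induction τ with
  | nil =>
    intro S sm x hs h F hF hne hx hP h15 h6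
    obtain ⟨m, hm⟩ := hne
    have h9 : 9 ≤ x := Nat.le_of_ble_eq_true h
    exact big_part (Multiset.mem_of_le (Multiset.sub_le_self _ _) hm) (h9.trans (hx m hm)) hP
  | node it ch sb ihc ihs =>
    intro S sm x hs h F hF hne hx hP h15 h6
    simp only [chkU, Bool.and_eq_true] at h
    obtain ⟨h1, h2⟩ := h
    by_cases hxm : x ∈ F - S
    · have hs' : ((x :: S : List ℕ) : Multiset ℕ).sum = Nat.add sm x := by
        rw [← Multiset.cons_coe, Multiset.sum_cons, hs]
        exact add_comm _ _
      have hle : (S : Multiset ℕ) ≤ ((x :: S : List ℕ) : Multiset ℕ) := by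
        rw [← Multiset.cons_coe]
        exact Multiset.le_cons_self _ _
      have hF' : ((x :: S : List ℕ) : Multiset ℕ) ≤ F := by
        rw [← Multiset.cons_coe, ← Multiset.singleton_add]
        calc {x} + (S : Multiset ℕ) ≤ (F - S) + S := by
              gcongr
              exact Multiset.singleton_le.mpr hxm
          _ = F := tsub_add_cancel_of_le hF
      rw [Bool.or_eq_true, Bool.and_eq_true] at h1
      rcases h1 with h1 | ⟨h1, h3⟩
      · exact hered_spec hl hs' h1 F hF' hP h15 h6
      · by_cases hFe : F = ((x :: S : List ℕ) : Multiset ℕ)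
        · rw [hFe] at hP h15 h6 ⊢
          exact singleU_spec hl hsd hs' h1 hP h15 h6
        · refine ihc (x :: S) (Nat.add sm x) x hs' h3 F hF' ?_ ?_ hP h15 h6
          · apply Multiset.exists_mem_of_ne_zero
            intro h0
            apply hFe
            apply le_antisymm _ hF'
            rwa [← tsub_eq_zero_iff_le]
          · intro m hm
            exact hx m (Multiset.mem_of_le (tsub_le_tsub_left hle F) hm)
    · refine ihs S sm (Nat.succ x) hs h2 F hF hne ?_ hP h15 h6
      intro m hm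
      have h3 := hx m hm
      rcases Nat.lt_or_ge x m with h4 | h4
      · exact h4
      · have : m = x := le_antisymm h4 h3
        rw [this] at hm
        exact absurd hm hxm

theorem chkU_root {lib : BT Blk} (hl : lib.All Blk.Valid) {sd : BT Sd}
    (hsd : sd.All Sd.Valid) {τ : T} (h : chkU lib sd τ [] 0 3 = true) {G : Multiset ℕ}
    (hP : Pt G) (h15 : 15 ≤ G.sum) (h6 : G ≠ t6) : CovU G := by
  refine chkU_spec hl hsd τ [] 0 3 rfl h G (Multiset.zero_le G) ?_ ?_ hP h15 h6
  · rw [Multiset.coe_nil, tsub_zero]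
    apply Multiset.exists_mem_of_ne_zero
    intro h0
    rw [h0] at h15
    simp at h15
  · intro m hm
    exact hP m (Multiset.mem_of_le (Multiset.sub_le_self _ _) hm)

/-! ## The induction -/

/-- the marked cycles of length at least `27` -/
structure Long : Prop where
  h18 : BP 18 0
  hm : ∀ (F : Multiset ℕ) (n : ℕ), Pt F → 27 ≤ n → F.sum + n ≤ 32 → Mk F n

theorem all_ctx (hM : ∀ (F : Multiset ℕ) (n : ℕ), Pt F → 9 ≤ n → n ≤ 26 → 15 ≤ F.sum + n →
    Cov F n) (hU : ∀ G : Multiset ℕ, Pt G → 15 ≤ G.sum → G ≠ t6 → CovU G) (hL : Long) (t : ℕ) :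
    Ctx t := by
  induction t with
  | zero => exact ⟨fun G _ _ h => absurd h (by omega), fun F n _ _ _ h => absurd h (by omega)⟩
  | succ t ih =>
    have hM' : ∀ (F : Multiset ℕ) (n : ℕ), Pt F → 9 ≤ n → 15 ≤ F.sum + n → F.sum + n < t + 1 →
        Mk F n := by
      intro F n hP h9 h15 hlt
      rcases Nat.lt_or_ge (F.sum + n) t with h1 | h1
      · exact ih.hM F n hP h9 h15 h1
      · have ht : F.sum + n = t := by omega
        rcases Nat.lt_or_ge 26 n with h2 | h2
        · rcases Nat.lt_or_ge 32 (F.sum + n) with h3 | h3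
          · have := (ih.hM F (n - 18) hP (by omega) (by omega) (by omega)).grow hL.h18
            rwa [add_zero, Nat.sub_add_cancel (by omega)] at this
          · exact hL.hm F n hP (by omega) h3
        · exact hM F n hP h9 h2 h15 (by rw [ht]; exact ih)
    refine ⟨?_, hM'⟩
    intro G hP h15 hlt h6
    rcases Nat.lt_or_ge G.sum t with h1 | h1
    · exact ih.hU G hP h15 h1 h6
    · have ht : G.sum = t := by omega
      exact hU G hP h15 h6 (by rw [ht]; exact ih) (fun F n hF h9 hs =>
        hM' F n hF h9 (by omega) (by omega))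

theorem all_um (hM : ∀ (F : Multiset ℕ) (n : ℕ), Pt F → 9 ≤ n → n ≤ 26 → 15 ≤ F.sum + n →
    Cov F n) (hU : ∀ G : Multiset ℕ, Pt G → 15 ≤ G.sum → G ≠ t6 → CovU G) (hL : Long)
    {G : Multiset ℕ} (hP : Pt G) (h15 : 15 ≤ G.sum) (h6 : G ≠ t6) : Um G :=
  (all_ctx hM hU hL (G.sum + 1)).hU G hP h15 (by omega) h6

end Pool.Agent.VMT
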